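import Pool.Agent.Helper79.ForbPos

set_option autoImplicit false

/-!
The counting argument: a set of numbers closed under splicing along a union of few intervals is
small.
-/

namespace Pool.Agent.Helper79.Forb

/-- Few windows meet both the union of the intervals and its complement. -/
lemma mixed_card {ι : Type} [Fintype ι] (st en : ι → ℕ) (U : ℕ → Prop)
    (hU : ∀ p, U p ↔ ∃ k, st k ≤ p ∧ p < en k) (a b : ℕ → ℕ)
    (hdisj : ∀ i j, i < j → b i ≤ a j ∨ b j ≤ a i) (J : Finset ℕ)
    (hJ : ∀ j ∈ J, (∃ p, a j ≤ p ∧ p < b j ∧ U p) ∧ (∃ p, a j ≤ p ∧ p < b j ∧ ¬ U p)) :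
    J.card ≤ 2 * Fintype.card ι := by
  classical
  let ep : ι × Bool → ℕ := fun x => if x.2 then en x.1 else st x.1
  have hex : ∀ j ∈ J, ∃ x ∈ (Finset.univ : Finset (ι × Bool)), a j < ep x ∧ ep x < b j := by
    intro j hj
    obtain ⟨⟨p, hp1, hp2, hp3⟩, q, hq1, hq2, hq3⟩ := hJ j hj
    rw [hU] at hp3
    obtain ⟨k, hk1, hk2⟩ := hp3
    by_contra hcon
    push Not at hcon
    have c1 := hcon (k, false) (Finset.mem_univ _)
    have c2 := hcon (k, true) (Finset.mem_univ _)
    simp only [ep, Bool.false_eq_true, if_false, if_true] at c1 c2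
    apply hq3
    rw [hU]
    refine ⟨k, ?_, ?_⟩
    · by_contra h
      have := c1 (by omega)
      omega
    · by_contra h
      have := c2 (by omega)
      omega
  have h1 := Finset.card_le_card_of_forall_subsingleton
    (fun (j : ℕ) (x : ι × Bool) => a j < ep x ∧ ep x < b j) hex (by
      intro x _ i hi j hj
      simp only [Set.mem_ofPred_eq] at hi hj
      rcases Nat.lt_trichotomy i j with h | h | h
      · have := hdisj i j h
        omega
      · exact h
      · have := hdisj j i h
        omega)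
  rw [Finset.card_univ, Fintype.card_prod, Fintype.card_bool] at h1
  omega

/-- Among many windows one is pure. -/
lemma pure_window {ι : Type} [Fintype ι] (st en : ι → ℕ) (U : ℕ → Prop)
    (hU : ∀ p, U p ↔ ∃ k, st k ≤ p ∧ p < en k) (a b : ℕ → ℕ)
    (hdisj : ∀ i j, i < j → j < 2 * Fintype.card ι + 1 → b i ≤ a j ∨ b j ≤ a i) :
    ∃ j < 2 * Fintype.card ι + 1, (∀ p, a j ≤ p → p < b j → U p) ∨
      (∀ p, a j ≤ p → p < b j → ¬ U p) := by
  by_contra hcon
  push Not at hcon
  have := mixed_card st en U hU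
    (fun j => if j < 2 * Fintype.card ι + 1 then a j else 0)
    (fun j => if j < 2 * Fintype.card ι + 1 then b j else 0) (by
      intro i j hij
      by_cases hj : j < 2 * Fintype.card ι + 1
      · rw [if_pos hj, if_pos hj, if_pos (by omega), if_pos (by omega)]
        exact hdisj i j hij hj
      · rw [if_neg hj, if_neg hj]
        right
        exact Nat.zero_le _) (Finset.range (2 * Fintype.card ι + 1)) (by
      intro j hj
      rw [Finset.mem_range] at hj
      simp only [if_pos hj]
      obtain ⟨⟨p, h1, h2, h3⟩, q, h4, h5, h6⟩ := hcon j hj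
      exact ⟨⟨q, h4, h5, h6⟩, p, h1, h2, h3⟩)
  rw [Finset.card_range] at this
  omega

open Classical in
/-- A window inside of a set with many elements which is a union of few intervals (or the
complement of such a set). -/
lemma find_window {ι : Type} [Fintype ι] (st en : ι → ℕ) (U : ℕ → Prop)
    (hU : ∀ p, U p ↔ ∃ k, st k ≤ p ∧ p < en k) (o n L : ℕ) (hL : 0 < L) (σ : Prop)
    (hcard : (2 * Fintype.card ι + 1) * L <
      ((Finset.range n).filter (fun i => (U (o + i) ↔ σ))).card) :
    ∃ a, a + L ≤ n ∧ ∀ i, a ≤ i → i < a + L → (U (o + i) ↔ σ) := by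
  by_contra hcon
  push Not at hcon
  -- windows containing an element with the right status
  let J : Finset ℕ := (Finset.range (n / L)).filter
    (fun j => ∃ i, j * L ≤ i ∧ i < (j + 1) * L ∧ (U (o + i) ↔ σ))
  have hJ : J.card ≤ 2 * Fintype.card ι := by
    apply mixed_card st en U hU (fun j => o + j * L) (fun j => o + (j + 1) * L)
    · intro i j hij
      left
      have : (i + 1) * L ≤ j * L := Nat.mul_le_mul_right _ hij
      omega
    · intro j hj
      rw [Finset.mem_filter, Finset.mem_range] at hj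
      obtain ⟨hj1, i, hi1, hi2, hi3⟩ := hj
      have hjn : j * L + L ≤ n := by
        have h1 : (j + 1) * L ≤ n / L * L := Nat.mul_le_mul_right _ hj1
        have h2 : n / L * L ≤ n := Nat.div_mul_le_self n L
        have h3 : (j + 1) * L = j * L + L := by ring
        omega
      obtain ⟨i', hi1', hi2', hi3'⟩ := hcon (j * L) hjn
      have h3 : (j + 1) * L = j * L + L := by ring
      have hi3'' : ¬ (U (o + i') ↔ σ) := by
        intro h
        rcases hi3' with h' | h'
        · exact h'.2 (h.mp h'.1)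
        · exact h'.1 (h.mpr h'.2)
      by_cases hu : U (o + i)
      · refine ⟨⟨o + i, by omega, by omega, hu⟩, o + i', by omega, by omega, ?_⟩
        intro hu'
        exact hi3'' ⟨fun _ => hi3.mp hu, fun _ => hu'⟩
      · refine ⟨⟨o + i', by omega, by omega, ?_⟩, o + i, by omega, by omega, hu⟩
        by_contra hu'
        exact hi3'' ⟨fun h => absurd h hu', fun h => absurd (hi3.mpr h) hu⟩
  have hsub : (Finset.range n).filter (fun i => (U (o + i) ↔ σ)) ⊆
      (J.biUnion (fun j => Finset.Ico (j * L) ((j + 1) * L))) ∪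
        Finset.Ico (n / L * L) n := by
    intro i hi
    rw [Finset.mem_filter, Finset.mem_range] at hi
    obtain ⟨hi1, hi2⟩ := hi
    rw [Finset.mem_union, Finset.mem_biUnion, Finset.mem_Ico]
    rcases Nat.lt_or_ge i (n / L * L) with h | h
    · left
      have h1 : i / L * L ≤ i := Nat.div_mul_le_self i L
      have h2 : i < (i / L + 1) * L := by
        rw [Nat.mul_comm]
        exact Nat.lt_mul_div_succ i hL
      refine ⟨i / L, ?_, by rw [Finset.mem_Ico]; exact ⟨h1, h2⟩⟩
      rw [Finset.mem_filter, Finset.mem_range]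
      refine ⟨?_, i, h1, h2, hi2⟩
      rw [Nat.div_lt_iff_lt_mul hL]
      exact h
    · right
      exact ⟨h, hi1⟩
  have h1 := Finset.card_le_card hsub
  have h2 := Finset.card_union_le (J.biUnion (fun j => Finset.Ico (j * L) ((j + 1) * L)))
    (Finset.Ico (n / L * L) n)
  have h3 : (J.biUnion (fun j => Finset.Ico (j * L) ((j + 1) * L))).card ≤ J.card * L := by
    apply Finset.card_biUnion_le_card_mul
    intro j _
    rw [Nat.card_Ico]
    have : (j + 1) * L = j * L + L := by ring
    omega
  have h4 : J.card * L ≤ 2 * Fintype.card ι * L := Nat.mul_le_mul_right _ hJ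
  rw [Nat.card_Ico] at h2
  have h5 : n < n / L * L + L := by
    have := Nat.lt_mul_div_succ n hL
    have e : L * (n / L + 1) = n / L * L + L := by ring
    omega
  have h6 : (2 * Fintype.card ι + 1) * L = 2 * Fintype.card ι * L + L := by ring
  omega

lemma final_eq {v v' a L e : ℕ} (h1 : v % 2 ^ a = v' % 2 ^ a)
    (h2 : v / 2 ^ (a + L) = v' / 2 ^ (a + L)) (h3 : v % 3 ^ e = v' % 3 ^ e)
    (h4 : 2 ^ L ≤ 3 ^ e) : v = v' := by
  wlog hle : v ≤ v' generalizing v v' with H
  · exact (H h1.symm h2.symm h3.symm (by omega)).symm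
  have d1 : 2 ^ a ∣ v' - v := (Nat.modEq_iff_dvd' hle).mp h1
  have d2 : 3 ^ e ∣ v' - v := (Nat.modEq_iff_dvd' hle).mp h3
  have d3 : 2 ^ a * 3 ^ e ∣ v' - v :=
    Nat.Coprime.mul_dvd_of_dvd_of_dvd (Nat.Coprime.pow _ _ (by norm_num)) d1 d2
  have h5 : v' - v < 2 ^ a * 3 ^ e := by
    have h6 : v' - v < 2 ^ (a + L) := by
      have e1 := Nat.div_add_mod v (2 ^ (a + L))
      have e2 := Nat.div_add_mod v' (2 ^ (a + L))
      have e3 : v' % 2 ^ (a + L) < 2 ^ (a + L) := Nat.mod_lt _ (by positivity)
      rw [h2] at e1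
      omega
    have h7 : 2 ^ (a + L) ≤ 2 ^ a * 3 ^ e := by
      rw [Nat.pow_add]
      exact Nat.mul_le_mul_left _ h4
    omega
  have := Nat.eq_zero_of_dvd_of_lt d3 h5
  omega

open Classical in
/-- A class of numbers closed under splicing is small. -/
theorem class_bound {ι : Type} [Fintype ι] (st en : ι → ℕ) (U : ℕ → Prop)
    (hU : ∀ p, U p ↔ ∃ k, st k ≤ p ∧ p < en k) (n lam : ℕ) (hlam : 0 < lam)
    (C : Finset ℕ) (hC : ∀ v ∈ C, v < 6 ^ n)
    (hcross : ∀ v ∈ C, ∀ v' ∈ C, ∃ x < 6 ^ n, ∀ p < 4 * n + 1,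
      (U p → letter n x p = letter n v' p) ∧ (¬ U p → letter n x p = letter n v p))
    (hcov : 2 * (2 * Fintype.card ι + 1) ^ 2 * lam <
      ((Finset.range n).filter (fun i => U (2 * n + 1 + i))).card)
    (hcov' : 2 * (2 * Fintype.card ι + 1) ^ 2 * lam <
      ((Finset.range n).filter (fun i => ¬ U (2 * n + 1 + i))).card) :
    C.card * 3 ^ lam ≤ 2 * 6 ^ n := by
  set s := Fintype.card ι with hs
  have hn : 2 * (2 * s + 1) ^ 2 * lam < n := by
    refine lt_of_lt_of_le hcov ?_
    exact le_trans (Finset.card_filter_le _ _) (by rw [Finset.card_range])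
  have hsl : (2 * s + 1) * lam ≤ n := by
    have : (2 * s + 1) * lam ≤ 2 * (2 * s + 1) ^ 2 * lam := by
      apply Nat.mul_le_mul_right
      nlinarith
    omega
  -- pure window on the left
  obtain ⟨j, hj, hpure⟩ := pure_window st en U hU (fun j => 2 * n - (j + 1) * lam)
    (fun j => 2 * n - j * lam) (by
      intro i j hij hj
      right
      have h1 : (i + 1) * lam ≤ j * lam := Nat.mul_le_mul_right _ hij
      omega)
  have hje : (j + 1) * lam ≤ (2 * s + 1) * lam := Nat.mul_le_mul_right _ hj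
  have hjb : (j + 1) * lam = j * lam + lam := by ring
  obtain ⟨b, hb⟩ : ∃ b, b = j * lam := ⟨_, rfl⟩
  obtain ⟨e, he⟩ : ∃ e, e = (j + 1) * lam := ⟨_, rfl⟩
  have heb : e = b + lam := by omega
  have hen : e ≤ n := by omega
  obtain ⟨L, hLdef⟩ : ∃ L, L = Nat.log 2 (3 ^ e) := ⟨_, rfl⟩
  have h3e : (3 : ℕ) ^ e ≠ 0 := by positivity
  have hL1 : 2 ^ L ≤ 3 ^ e := by rw [hLdef]; exact Nat.pow_log_le_self 2 h3e
  have hL2 : 3 ^ e < 2 ^ (L + 1) := by
    rw [hLdef]; exact Nat.lt_pow_succ_log_self (by norm_num) _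
  have hL0 : 0 < L := by
    rcases Nat.eq_zero_or_pos L with h | h
    · rw [h] at hL2
      have : 3 ^ 1 ≤ 3 ^ e := Nat.pow_le_pow_right (by norm_num) (by omega)
      omega
    · exact h
  have hL3 : L ≤ 2 * e := by
    by_contra hcon
    push Not at hcon
    have h1 : 2 ^ (2 * e + 1) ≤ 2 ^ L := Nat.pow_le_pow_right (by norm_num) hcon
    have h2 : (3 : ℕ) ^ e ≤ 4 ^ e := Nat.pow_le_pow_left (by norm_num) e
    have h3 : (2 : ℕ) ^ (2 * e + 1) = 4 ^ e * 2 := by
      rw [Nat.pow_succ, Nat.pow_mul]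
    have h4 : 0 < (4 : ℕ) ^ e := by positivity
    omega
  have hLbound : (2 * s + 1) * L ≤ 2 * (2 * s + 1) ^ 2 * lam := by
    calc (2 * s + 1) * L ≤ (2 * s + 1) * (2 * ((2 * s + 1) * lam)) :=
          Nat.mul_le_mul_left _ (by omega)
      _ = 2 * (2 * s + 1) ^ 2 * lam := by ring
  -- the main claim
  have main : ∃ a, a + L ≤ n ∧ ∀ v ∈ C, ∀ v' ∈ C, v % 3 ^ b = v' % 3 ^ b →
      v % 2 ^ a = v' % 2 ^ a → v / 2 ^ (a + L) = v' / 2 ^ (a + L) → v = v' := by
    -- from digits in the pure window conclude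
    have conclude : ∀ a v v', v % 3 ^ b = v' % 3 ^ b →
        v % 2 ^ a = v' % 2 ^ a → v / 2 ^ (a + L) = v' / 2 ^ (a + L) →
        (∀ i, b ≤ i → i < e → pd n v (2 * n - 1 - i) = pd n v' (2 * n - 1 - i)) → v = v' := by
      intro a v v' h1 h2 h3 h4
      refine final_eq h2 h3 ?_ hL1
      apply mod_eq_of_digits
      intro i hi
      rcases Nat.lt_or_ge i b with hib | hib
      · have := digit_of_mod (r := 3) (K := 1) (i := i) (m := 3 ^ b)
          (by rw [Nat.one_mul]; exact Nat.pow_dvd_pow 3 (by omega)) h1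
        rwa [Nat.div_one, Nat.div_one] at this
      · have := h4 i hib hi
        rwa [pd_x1 (by omega), pd_x1 (by omega)] at this
    rcases hpure with hp | hp
    · -- left window covered, look for an uncovered right window
      obtain ⟨a, ha1, ha2⟩ := find_window st en U hU (2 * n + 1) n L hL0 False (by
        refine lt_of_le_of_lt hLbound ?_
        simpa using hcov')
      refine ⟨a, ha1, ?_⟩
      intro v hv v' hv' h1 h2 h3
      obtain ⟨x, hx, hxl⟩ := hcross v hv v' hv'
      have hxv : x = v := by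
        apply ydet hx (hC v hv)
        intro p hp1 hp2
        have hy := hxl p hp2
        by_cases hu : U p
        · rw [letter_eq_iff.mp (hy.1 hu)]
          refine (youtside ha1 h2 h3 p hp1 ?_ hp2).symm
          rintro ⟨h4, h5⟩
          have := ha2 (p - (2 * n + 1)) (by omega) (by omega)
          have e1 : 2 * n + 1 + (p - (2 * n + 1)) = p := by omega
          rw [e1] at this
          exact this.mp hu
        · exact letter_eq_iff.mp (hy.2 hu)
      apply conclude a v v' h1 h2 h3
      intro i hi1 hi2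
      have hu : U (2 * n - 1 - i) := hp _ (by omega) (by omega)
      have := letter_eq_iff.mp ((hxl (2 * n - 1 - i) (by omega)).1 hu)
      rwa [hxv] at this
    · -- left window uncovered, look for a covered right window
      obtain ⟨a, ha1, ha2⟩ := find_window st en U hU (2 * n + 1) n L hL0 True (by
        refine lt_of_le_of_lt hLbound ?_
        simpa using hcov)
      refine ⟨a, ha1, ?_⟩
      intro v hv v' hv' h1 h2 h3
      obtain ⟨x, hx, hxl⟩ := hcross v hv v' hv'
      have hxv : x = v' := by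
        apply ydet hx (hC v' hv')
        intro p hp1 hp2
        have hy := hxl p hp2
        by_cases hu : U p
        · exact letter_eq_iff.mp (hy.1 hu)
        · rw [letter_eq_iff.mp (hy.2 hu)]
          refine youtside ha1 h2 h3 p hp1 ?_ hp2
          rintro ⟨h4, h5⟩
          have := ha2 (p - (2 * n + 1)) (by omega) (by omega)
          have e1 : 2 * n + 1 + (p - (2 * n + 1)) = p := by omega
          rw [e1] at this
          exact hu (this.mpr trivial)
      apply conclude a v v' h1 h2 h3
      intro i hi1 hi2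
      have hu : ¬ U (2 * n - 1 - i) := hp _ (by omega) (by omega)
      have := letter_eq_iff.mp ((hxl (2 * n - 1 - i) (by omega)).2 hu)
      rw [hxv] at this
      exact this.symm
  obtain ⟨a, ha, hinj⟩ := main
  -- counting
  have hdvd : 2 ^ (a + L) ∣ 6 ^ n := by
    rw [six_pow]
    exact Dvd.dvd.mul_right (Nat.pow_dvd_pow 2 ha) _
  obtain ⟨c, hc⟩ := hdvd
  have hcard : C.card ≤ (Finset.range (3 ^ b) ×ˢ (Finset.range (2 ^ a) ×ˢ Finset.range c)).card := by
    apply Finset.card_le_card_of_injOn (fun v => (v % 3 ^ b, v % 2 ^ a, v / 2 ^ (a + L)))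
    · intro v hv
      simp only [Finset.coe_product, Finset.coe_range, Set.mem_prod, Set.mem_Iio]
      refine ⟨Nat.mod_lt _ (by positivity), Nat.mod_lt _ (by positivity), ?_⟩
      rw [Nat.div_lt_iff_lt_mul (by positivity), Nat.mul_comm, ← hc]
      exact hC v hv
    · intro v hv v' hv' heq
      simp only [Prod.mk.injEq] at heq
      exact hinj v hv v' hv' heq.1 heq.2.1 heq.2.2
  rw [Finset.card_product, Finset.card_product, Finset.card_range, Finset.card_range,
    Finset.card_range] at hcard
  calc C.card * 3 ^ lam ≤ (3 ^ b * (2 ^ a * c)) * 3 ^ lam := Nat.mul_le_mul_right _ hcard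
    _ = 3 ^ e * (2 ^ a * c) := by rw [heb, Nat.pow_add]; ring
    _ ≤ 2 ^ (L + 1) * (2 ^ a * c) := Nat.mul_le_mul_right _ hL2.le
    _ = 2 * 6 ^ n := by rw [hc, Nat.pow_add, Nat.pow_add]; ring

end Pool.Agent.Helper79.Forb
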