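import Pool.Agent.Helper79.ForbRigid

set_option autoImplicit false

/-!
Cuts of derivations, their descriptors and the crossing of two cuts with the same descriptor.
-/

namespace Pool.Agent.Helper79.Forb

open Relation

namespace ForbiddingGrammar

variable {g : ForbiddingGrammar Tm}

/-- A long nonterminal item. -/
def long (l : ℕ) (it : g.Item) : Bool := isNT it && decide (l ≤ it.2.length)

lemma long_iff {l : ℕ} {it : g.Item} :
    long l it = true ↔ (∃ A, it.1 = Symbol.nonterminal A) ∧ l ≤ it.2.length := by
  obtain ⟨X, z⟩ := it
  cases X <;> simp [long, isNT]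

/-- Number of letters of class 3 in the long items. -/
def cov (l : ℕ) (I : List g.Item) : ℕ := (I.map (fun it => if long l it then cls it.2 3 else 0)).sum

lemma cov_append (l : ℕ) (I J : List g.Item) : cov l (I ++ J) = cov l I + cov l J := by
  unfold cov; simp

lemma cov_cons (l : ℕ) (it : g.Item) (I : List g.Item) :
    cov l (it :: I) = (if long l it then cls it.2 3 else 0) + cov l I := by
  unfold cov; simp

lemma cls_append (u v : List Tm) (j : Fin 5) : cls (u ++ v) j = cls u j + cls v j := by
  unfold cls; simp

lemma cls_le (u : List Tm) (j : Fin 5) : cls u j ≤ u.length := by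
  unfold cls
  exact le_trans List.count_le_length (by simp)

lemma cls_flat_le {l : ℕ} (hl : 0 < l) {J : List g.Item} (hp : Proper J) :
    cls (flat J) 3 ≤ cov l J + J.length * l := by
  induction J with
  | nil => simp [cls]
  | cons it J ih =>
    have ih' := ih (fun a z h => hp a z (by simp [h]))
    simp only [flat_cons, cls_append, cov_cons, List.length_cons]
    have e : (J.length + 1) * l = J.length * l + l := by ring
    rw [e]
    by_cases hlong : long l it
    · rw [if_pos hlong]
      omega
    · rw [if_neg hlong]
      have : cls it.2 3 ≤ l := by
        refine le_trans (cls_le _ _) ?_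
        obtain ⟨X, z⟩ := it
        cases X with
        | terminal a =>
          have : z = [a] := hp a z (by simp)
          subst this
          simp only [List.length_cons, List.length_nil]
          omega
        | nonterminal A =>
          simp only [Bool.not_eq_true] at hlong
          have h2 : ¬ (long l ((Symbol.nonterminal A, z) : g.Item) = true) := by simp [hlong]
          rw [long_iff] at h2
          simp at h2
          simp only
          omega
      omega

/-- Existence of a cut. -/
theorem cut_exists (hL : Gen g) {ρ : ℕ}
    (hρ : ∀ r ∈ g.rules, r.rule.output.length ≤ ρ) {n l v lo : ℕ} (hl : 0 < l)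
    (hln : l ≤ 4 * n + 1) (hlo : 0 < lo) (hlon : lo ≤ n) (hv : v < 6 ^ n) :
    ∃ I : List g.Item, IsDec g n v I ∧ lo ≤ cov l I ∧ cov l I ≤ lo + ρ * l := by
  have hne : word n v ≠ [] := by
    intro h
    have := word_length n v
    rw [h] at this
    simp at this
  have hw : word n v ∈ g.language := (hL _ hne).mpr (word_mem_lang n v hv)
  have hbase : ∀ I : List g.Item, (∀ it ∈ I, ∃ a, it = (Symbol.terminal a, [a])) → cov l I = 0 := by
    intro I hI
    unfold cov
    apply List.sum_eq_zero
    intro x hx
    rw [List.mem_map] at hx
    obtain ⟨it, hit, rfl⟩ := hx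
    obtain ⟨a, rfl⟩ := hI it hit
    simp [long, isNT]
  have hstep : ∀ (I1 I2 Jx : List g.Item) (A : g.NT),
      (∃ r ∈ g.rules, Jx.map Prod.fst = r.rule.output) → Proper Jx →
      cov l (I1 ++ (Symbol.nonterminal A, flat Jx) :: I2) ≤ cov l (I1 ++ Jx ++ I2) + ρ * l := by
    rintro I1 I2 Jx A ⟨r, hr, hJx⟩ hp
    simp only [cov_append, cov_cons]
    have hlen : Jx.length ≤ ρ := by
      rw [← List.length_map (as := Jx) Prod.fst, hJx]
      exact hρ r hr
    have h1 := cls_flat_le hl hp
    have h2 : Jx.length * l ≤ ρ * l := Nat.mul_le_mul_right _ hlen
    split_ifs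
    · omega
    · omega
  have hstart : lo ≤ cov l [((Symbol.nonterminal g.initial, word n v) : g.Item)] := by
    unfold cov
    simp only [List.map_cons, List.map_nil, List.sum_cons, List.sum_nil]
    rw [if_pos]
    · simp only [cls_word n v 3 (by decide)]
      omega
    · rw [long_iff]
      exact ⟨⟨_, rfl⟩, by simp only [word_length]; exact hln⟩
  obtain ⟨I, h1, h2, h3, h4, h5⟩ := exists_cut hw (cov l) lo (ρ * l) hlo hbase hstep hstart
  exact ⟨I, ⟨h1, h2, h3, hv⟩, h4, h5⟩

/-- The flags of the positions covered by long items. -/
def flags (l : ℕ) (I : List g.Item) : List Bool :=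
  I.flatMap (fun it => List.replicate it.2.length (long l it))

lemma flags_nil (l : ℕ) : flags l ([] : List g.Item) = [] := rfl

lemma flags_cons (l : ℕ) (it : g.Item) (I : List g.Item) :
    flags l (it :: I) = List.replicate it.2.length (long l it) ++ flags l I := rfl

lemma flags_append (l : ℕ) (I J : List g.Item) : flags l (I ++ J) = flags l I ++ flags l J := by
  unfold flags; exact List.flatMap_append

lemma flags_length (l : ℕ) (I : List g.Item) : (flags l I).length = (flat I).length := by
  induction I with
  | nil => rfl
  | cons it I ih => rw [flags_cons, flat_cons, List.length_append, List.length_append, ih]; simp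

lemma flags_true {l : ℕ} {I : List g.Item} : ∀ {p : ℕ}, ((flags l I)[p]? = some true ↔
    ∃ I1 it I2, I = I1 ++ it :: I2 ∧ long l it = true ∧ (flat I1).length ≤ p ∧
      p < (flat I1).length + it.2.length) := by
  induction I with
  | nil =>
    intro p
    simp [flags_nil]
  | cons it I ih =>
    intro p
    rw [flags_cons]
    rcases Nat.lt_or_ge p it.2.length with hp | hp
    · rw [List.getElem?_append_left (by simpa using hp)]
      constructor
      · intro h
        refine ⟨[], it, I, rfl, ?_, by simp, by simpa using hp⟩
        rw [List.getElem?_replicate, if_pos hp] at h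
        exact Option.some.inj h
      · rintro ⟨I1, it', I2, hI, hlong, h1, h2⟩
        cases I1 with
        | nil =>
          simp only [List.nil_append, List.cons.injEq] at hI
          rw [List.getElem?_replicate, if_pos hp, hI.1, hlong]
        | cons i1 I1 =>
          simp only [List.cons_append, List.cons.injEq] at hI
          rw [← hI.1] at h1
          simp only [flat_cons, List.length_append] at h1
          omega
    · rw [List.getElem?_append_right (by simpa using hp)]
      simp only [List.length_replicate]
      rw [ih]
      constructor
      · rintro ⟨I1, it', I2, hI, hlong, h1, h2⟩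
        refine ⟨it :: I1, it', I2, by rw [hI]; rfl, hlong, ?_, ?_⟩
        · simp only [flat_cons, List.length_append]; omega
        · simp only [flat_cons, List.length_append]; omega
      · rintro ⟨I1, it', I2, hI, hlong, h1, h2⟩
        cases I1 with
        | nil =>
          simp only [List.nil_append, List.cons.injEq] at hI
          rw [← hI.1] at h2
          simp at h2
          omega
        | cons i1 I1 =>
          simp only [List.cons_append, List.cons.injEq] at hI
          obtain ⟨rfl, hI2⟩ := hI
          simp only [flat_cons, List.length_append] at h1 h2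
          exact ⟨I1, it', I2, hI2, hlong, by omega, by omega⟩

/-- Replacing the targets of the long items by the factors of another word. -/
def cross (l : ℕ) : List g.Item → List Tm → List g.Item
  | [], _ => []
  | it :: I, u => (it.1, if long l it then u.take it.2.length else it.2) ::
      cross l I (u.drop it.2.length)

lemma cross_map_fst (l : ℕ) (I : List g.Item) : ∀ u, (cross l I u).map Prod.fst = I.map Prod.fst := by
  induction I with
  | nil => intro u; rfl
  | cons it I ih => intro u; simp [cross, ih]

lemma cross_append (l : ℕ) (I J : List g.Item) : ∀ u,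
    cross l (I ++ J) u = cross l I u ++ cross l J (u.drop (flat I).length) := by
  induction I with
  | nil => intro u; simp [cross]
  | cons it I ih =>
    intro u
    simp only [List.cons_append, cross, ih, flat_cons, List.length_append, List.drop_drop]

lemma cross_get (l : ℕ) (I : List g.Item) : ∀ (u : List Tm), (flat I).length ≤ u.length → ∀ p,
    p < (flat I).length →
    ((flags l I)[p]? = some true → (flat (cross l I u))[p]? = u[p]?) ∧
    (¬ (flags l I)[p]? = some true → (flat (cross l I u))[p]? = (flat I)[p]?) := by
  induction I with
  | nil =>
    intro u _ p hp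
    simp at hp
  | cons it I ih =>
    intro u hu p hp
    simp only [flat_cons, List.length_append] at hu hp
    simp only [cross, flat_cons, flags_cons]
    have hlen : (if long l it then u.take it.2.length else it.2).length = it.2.length := by
      split_ifs
      · rw [List.length_take]; omega
      · rfl
    have hrep : (List.replicate it.2.length (long l it)).length = it.2.length :=
      List.length_replicate
    rcases Nat.lt_or_ge p it.2.length with h | h
    · rw [List.getElem?_append_left (l₁ := List.replicate _ _) (by rw [hrep]; exact h),
        List.getElem?_append_left (l₁ := ite _ _ _) (by rw [hlen]; exact h),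
        List.getElem?_append_left h,
        List.getElem?_replicate, if_pos h]
      by_cases hlong : long l it = true
      · rw [if_pos hlong, List.getElem?_take_of_lt h]
        exact ⟨fun _ => rfl, fun hh => absurd (by rw [hlong]) hh⟩
      · rw [if_neg hlong]
        exact ⟨fun hh => absurd (Option.some.inj hh) hlong, fun _ => rfl⟩
    · rw [List.getElem?_append_right (l₁ := List.replicate _ _) (by rw [hrep]; exact h),
        List.getElem?_append_right (l₁ := ite _ _ _) (by rw [hlen]; exact h),
        List.getElem?_append_right h, hlen,
        List.length_replicate]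
      have e1 : u[p]? = (u.drop it.2.length)[p - it.2.length]? := by
        rw [List.getElem?_drop]
        congr 1
        omega
      rw [e1]
      exact ih _ (by rw [List.length_drop]; omega) _ (by omega)

lemma cross_flat_length (l : ℕ) (I : List g.Item) : ∀ (u : List Tm),
    (flat I).length ≤ u.length → (flat (cross l I u)).length = (flat I).length := by
  induction I with
  | nil => intro u _; rfl
  | cons it I ih =>
    intro u hu
    simp only [flat_cons, List.length_append] at hu
    simp only [cross, flat_cons, List.length_append]
    rw [ih _ (by rw [List.length_drop]; omega)]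
    split_ifs
    · rw [List.length_take]; omega
    · rfl

/-! ### Descriptors -/

open Classical in
/-- Start of the first item of a nonterminal. -/
noncomputable def startOf (A : g.NT) (I : List g.Item) : ℕ :=
  (flat (I.takeWhile (fun it => decide (it.1 ≠ Symbol.nonterminal A)))).length

/-- Length of the first target of a nonterminal. -/
noncomputable def lenOf (A : g.NT) (I : List g.Item) : ℕ := ((tg A I)[0]?.getD []).length

lemma takeWhile_of_tg_nil {A : g.NT} {I1 I2 : List g.Item} {z : List Tm} (h : tg A I1 = []) :
    startOf A (I1 ++ (Symbol.nonterminal A, z) :: I2) = (flat I1).length := by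
  unfold startOf
  congr 2
  induction I1 with
  | nil => simp
  | cons it I ih =>
    by_cases hit : it.1 = Symbol.nonterminal A
    · obtain ⟨X, y⟩ := it
      simp only at hit
      subst hit
      rw [tg_cons_pos] at h
      simp at h
    · rw [tg_cons_neg _ _ _ hit] at h
      rw [List.cons_append, List.takeWhile_cons_of_pos (by simpa using hit), ih h]

/-- Two cuts with the same descriptor. -/
structure SameDesc (l : ℕ) (I I' : List g.Item) : Prop where
  start : ∀ A, startOf A I = startOf A I'
  len : ∀ A, lenOf A I = lenOf A I'
  count : ∀ A, (tg A I).length = (tg A I').length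
  code : ∀ A, ∀ i < 2 * l + 1, ∀ j < l,
    ((tg A I)[i]?.getD [])[j]? = ((tg A I')[i]?.getD [])[j]?

/-- Positions in the union of the long intervals of a descriptor. -/
def Cov (l : ℕ) (I : List g.Item) (p : ℕ) : Prop :=
  ∃ A : g.NT, l ≤ lenOf A I ∧ startOf A I ≤ p ∧ p < startOf A I + lenOf A I

lemma IsDec.tg_single (hg : g.IsPropagating) (hL : Gen g) {n l v : ℕ} (hl : 0 < l)
    (hgood : Good n l v) {I : List g.Item} (h : IsDec g n v I) {A : g.NT}
    (hlen : l ≤ lenOf A I) : ∃ I1 z I2, I = I1 ++ (Symbol.nonterminal A, z) :: I2 ∧
      tg A I1 = [] ∧ tg A I2 = [] ∧ tg A I = [z] ∧ z.length = lenOf A I ∧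
      (ForbiddingGrammar.flat I1).length = startOf A I := by
  unfold lenOf at hlen
  cases htg : tg A I with
  | nil => rw [htg] at hlen; simp at hlen; omega
  | cons z Z =>
    rw [htg] at hlen
    simp at hlen
    have h1 := h.long_unique hg hL hl hgood (A := A) (z := z) (by rw [htg]; simp) hlen
    obtain ⟨I1, I2, hI, h2, h3⟩ := tg_split (Z1 := []) (Z2 := []) (x := z) h1
    refine ⟨I1, z, I2, hI, h2, h3, by rw [← htg]; exact h1, ?_, ?_⟩
    · unfold lenOf
      rw [h1]
      simp
    · rw [hI]
      exact (takeWhile_of_tg_nil h2).symm

lemma IsDec.cov_iff (hg : g.IsPropagating) (hL : Gen g) {n l v : ℕ} (hl : 0 < l)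
    (hgood : Good n l v) {I : List g.Item} (h : IsDec g n v I) (p : ℕ) :
    (flags l I)[p]? = some true ↔ Cov l I p := by
  rw [flags_true]
  constructor
  · rintro ⟨I1, it, I2, hI, hlong, h1, h2⟩
    rw [long_iff] at hlong
    obtain ⟨⟨A, hA⟩, hlen⟩ := hlong
    obtain ⟨X, z⟩ := it
    simp only at hA hlen h2
    subst hA
    have htg : tg A I = tg A I1 ++ z :: tg A I2 := by
      rw [hI, tg_append, tg_cons_pos]
    have h3 := h.long_unique hg hL hl hgood (A := A) (z := z) (by rw [htg]; simp) hlen
    rw [htg] at h3
    have h4 : tg A I1 = [] ∧ tg A I2 = [] := by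
      cases hh : tg A I1 with
      | nil =>
        rw [hh] at h3
        simp only [List.nil_append, List.cons.injEq, true_and] at h3
        exact ⟨rfl, h3⟩
      | cons a b =>
        rw [hh] at h3
        have := congrArg List.length h3
        simp at this
    have h5 : startOf A I = (ForbiddingGrammar.flat I1).length := by
      rw [hI]; exact takeWhile_of_tg_nil h4.1
    have h6 : lenOf A I = z.length := by
      unfold lenOf
      rw [htg, h4.1]
      simp
    exact ⟨A, by omega, by omega, by omega⟩
  · rintro ⟨A, h1, h2, h3⟩
    obtain ⟨I1, z, I2, hI, g1, g2, g3, g4, g5⟩ := h.tg_single hg hL hl hgood h1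
    refine ⟨I1, _, I2, hI, ?_, by omega, ?_⟩
    · rw [long_iff]
      exact ⟨⟨A, rfl⟩, by rw [g4]; exact h1⟩
    · simp only
      omega

/-- The list of targets of a nonterminal without long targets is not changed by crossing. -/
lemma tg_cross_short (l : ℕ) (A : g.NT) (I : List g.Item) : ∀ (u : List Tm),
    (∀ z ∈ tg A I, z.length < l) → tg A (cross l I u) = tg A I := by
  induction I with
  | nil => intro u _; rfl
  | cons it I ih =>
    intro u h
    by_cases hit : it.1 = Symbol.nonterminal A
    · obtain ⟨X, z⟩ := it
      simp only at hit
      subst hit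
      rw [tg_cons_pos] at h ⊢
      simp only [cross]
      rw [tg_cons_pos, ih _ (fun z hz => h z (by simp [hz]))]
      rw [if_neg]
      rw [long_iff]
      have := h z (by simp)
      simp only
      omega
    · rw [tg_cons_neg _ _ _ hit] at h ⊢
      simp only [cross]
      rw [tg_cons_neg _ _ _ (by exact hit), ih _ h]

lemma tg_cross_none (l : ℕ) (A : g.NT) (I : List g.Item) (u : List Tm) (h : tg A I = []) :
    tg A (cross l I u) = [] := by
  rw [tg_cross_short l A I u (by rw [h]; simp), h]

lemma IsDec.short_all (hg : g.IsPropagating) (hL : Gen g) {n l v : ℕ} (hl : 0 < l)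
    (hgood : Good n l v) {I : List g.Item} (h : IsDec g n v I) {A : g.NT}
    (hlen : ¬ l ≤ lenOf A I) : ∀ z ∈ tg A I, z.length < l := by
  intro z hz
  by_contra hcon
  push Not at hcon
  have := h.long_unique hg hL hl hgood hz hcon
  apply hlen
  unfold lenOf
  rw [this]
  simpa using hcon

/-- Targets after crossing. -/
theorem tg_cross (hg : g.IsPropagating) (hL : Gen g) {n l v v' : ℕ} (hl : 0 < l)
    (hgood : Good n l v) (hgood' : Good n l v') {I I' : List g.Item} (h : IsDec g n v I)
    (h' : IsDec g n v' I') (hd : SameDesc l I I') (A : g.NT) :
    tg A (cross l I (word n v')) = tg A I' := by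
  by_cases hlen : l ≤ lenOf A I
  · have hlen' : l ≤ lenOf A I' := by rw [← hd.len]; exact hlen
    obtain ⟨I1, z, I2, hI, g1, g2, g3, g4, g5⟩ := h.tg_single hg hL hl hgood hlen
    obtain ⟨I1', z', I2', hI', g1', g2', g3', g4', g5'⟩ := h'.tg_single hg hL hl hgood' hlen'
    rw [g3']
    have e1 : cross l I (word n v') = cross l I1 (word n v') ++
        (Symbol.nonterminal A, ((word n v').drop (flat I1).length).take z.length) ::
        cross l I2 (((word n v').drop (flat I1).length).drop z.length) := by
      rw [hI, cross_append]
      congr 1
      simp only [cross]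
      rw [if_pos]
      rw [long_iff]
      exact ⟨⟨A, rfl⟩, by rw [g4]; exact hlen⟩
    rw [e1, tg_append, tg_cons_pos, tg_cross_none _ _ _ _ g1, tg_cross_none _ _ _ _ g2]
    have e2 : word n v' = flat I1' ++ (z' ++ flat I2') := by
      rw [← h'.flat_eq, hI']; simp
    have e3 : (flat I1).length = (flat I1').length := by
      rw [g5, g5', hd.start]
    have e4 : z.length = z'.length := by
      rw [g4, g4', hd.len]
    rw [e2, e3, e4, List.drop_left, List.take_left]
    rfl
  · have hlen' : ¬ l ≤ lenOf A I' := by rw [← hd.len]; exact hlen
    have s1 := h.short_all hg hL hl hgood hlen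
    have s2 := h'.short_all hg hL hl hgood' hlen'
    rw [tg_cross_short _ _ _ _ s1]
    -- compare the entries
    have hcode : ∀ i < 2 * l + 1, ∀ (hi : i < (tg A I).length) (hi' : i < (tg A I').length),
        (tg A I)[i] = (tg A I')[i] := by
      intro i hil hi hi'
      apply List.ext_getElem?
      intro j
      rcases Nat.lt_or_ge j l with hj | hj
      · have := hd.code A i hil j hj
        rw [List.getElem?_eq_getElem hi, List.getElem?_eq_getElem hi'] at this
        simpa using this
      · rw [List.getElem?_eq_none (by have := s1 _ (List.getElem_mem hi); omega),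
          List.getElem?_eq_none (by have := s2 _ (List.getElem_mem hi'); omega)]
    apply List.ext_getElem (hd.count A)
    intro i hi hi'
    rcases Nat.lt_or_ge i (2 * l + 1) with hil | hil
    · exact hcode i hil hi hi'
    · have c1 := h.const hg hL hl hgood (A := A) (by omega) i hi
      have c2 := h'.const hg hL hl hgood' (A := A) (by omega) i hi'
      rw [c1, c2]
      exact hcode 0 (by omega) (by omega) (by omega)

/-- Items with the same lists of targets agree up to a permutation. -/
lemma perm_of_tg {I J : List g.Item} (h : ∀ A, tg A I = tg A J) :
    (I.filter isNT).Perm (J.filter isNT) := by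
  classical
  have hfil : ∀ (A : g.NT) (I : List g.Item),
      I.filter (fun it => decide (it.1 = Symbol.nonterminal A)) =
        (tg A I).map (fun z => (Symbol.nonterminal A, z)) := by
    intro A I
    unfold tg
    rw [List.map_map]
    induction I with
    | nil => rfl
    | cons it I ih =>
      by_cases hit : it.1 = Symbol.nonterminal A
      · obtain ⟨X, z⟩ := it
        simp only at hit
        subst hit
        rw [List.filter_cons_of_pos (by simp), List.map_cons, ← ih]
        rfl
      · rw [List.filter_cons_of_neg (by simpa using hit)]
        exact ih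
  rw [List.perm_iff_count]
  rintro ⟨X, z⟩
  cases X with
  | terminal a =>
    rw [List.count_eq_zero_of_not_mem (by simp [isNT]),
      List.count_eq_zero_of_not_mem (by simp [isNT])]
  | nonterminal A =>
    rw [List.count_filter (by simp [isNT]), List.count_filter (by simp [isNT])]
    rw [← List.count_filter (l := I) (p := fun it => decide (it.1 = Symbol.nonterminal A))
      (by simp)]
    rw [← List.count_filter (l := J) (p := fun it => decide (it.1 = Symbol.nonterminal A))
      (by simp)]
    have e := hfil A I
    rw [h A, ← hfil A J] at e
    rw [e]

lemma cross_proper (l : ℕ) {I : List g.Item} : ∀ (u : List Tm), Proper I →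
    Proper (cross l I u) := by
  induction I with
  | nil => intro u h; exact h
  | cons it I ih =>
    intro u h a z hz
    simp only [cross, List.mem_cons] at hz
    rcases hz with hz | hz
    · obtain ⟨X, y⟩ := it
      simp only [Prod.mk.injEq] at hz
      obtain ⟨h1, h2⟩ := hz
      subst h1
      rw [if_neg (by rw [long_iff]; simp)] at h2
      rw [h2]
      exact h a y (by simp)
    · exact ih _ (fun a z hz => h a z (by simp [hz])) a z hz

/-- Crossing two cuts with the same descriptor. -/
theorem crossing (hg : g.IsPropagating) (hL : Gen g) {n l v v' : ℕ} (hl : 0 < l)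
    (hgood : Good n l v) (hgood' : Good n l v') {I I' : List g.Item} (h : IsDec g n v I)
    (h' : IsDec g n v' I') (hd : SameDesc l I I') :
    ∃ x < 6 ^ n, ∀ p < 4 * n + 1, (Cov l I p → letter n x p = letter n v' p) ∧
      (¬ Cov l I p → letter n x p = letter n v p) := by
  have hlenI : (flat I).length = 4 * n + 1 := by rw [h.flat_eq, word_length]
  have hle : (flat I).length ≤ (word n v').length := by rw [hlenI, word_length]
  let J := cross l I (word n v')
  have hperm : (I'.filter isNT).Perm (J.filter isNT) :=
    perm_of_tg (fun A => (tg_cross hg hL hl hgood hgood' h h' hd A).symm)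
  have hpI : Proper I := fun a z hz => dec_proper h.dec a z (by simpa using hz)
  have hJdec : g.Dec ↑J := dec_transfer h'.dec (cross_proper l _ hpI) hperm
  have hJmem : flat J ∈ g.language :=
    mem_language_of_dec (by rw [cross_map_fst]; exact h.reach) hJdec
  have hJlen : (flat J).length = 4 * n + 1 := by
    rw [cross_flat_length l I _ hle, hlenI]
  have hget : ∀ p < 4 * n + 1, (Cov l I p → (flat J)[p]? = some (letter n v' p)) ∧
      (¬ Cov l I p → (flat J)[p]? = some (letter n v p)) := by
    intro p hp
    have e := cross_get l I (word n v') hle p (by omega)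
    have c := h.cov_iff hg hL hl hgood p
    constructor
    · intro hc
      rw [← word_get hp]
      exact e.1 (c.mpr hc)
    · intro hc
      rw [← word_get hp, ← h.flat_eq]
      exact e.2 (fun hh => hc (c.mp hh))
  have hmap : (flat J).map Prod.fst = (word n v).map Prod.fst := by
    apply List.ext_getElem?
    intro p
    rw [List.getElem?_map, List.getElem?_map]
    rcases Nat.lt_or_ge p (4 * n + 1) with hp | hp
    · rw [word_get hp]
      by_cases hc : Cov l I p
      · rw [(hget p hp).1 hc]; rfl
      · rw [(hget p hp).2 hc]
    · rw [List.getElem?_eq_none (by omega), List.getElem?_eq_none (by rw [word_length]; omega)]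
  have hcls : ∀ j : Fin 5, j ≠ 2 → cls (flat J) j = n := by
    intro j hj
    unfold cls
    rw [hmap]
    exact cls_word n v j hj
  obtain ⟨x, hx, hxw⟩ := gen_word hL hJmem hcls (by
    intro h0
    rw [h0] at hJlen
    simp at hJlen)
  refine ⟨x, hx, ?_⟩
  intro p hp
  have e1 : (flat J)[p]? = some (letter n x p) := by rw [hxw, word_get hp]
  constructor
  · intro hc
    rw [(hget p hp).1 hc] at e1
    exact (Option.some.inj e1).symm
  · intro hc
    rw [(hget p hp).2 hc] at e1
    exact (Option.some.inj e1).symm

/-! ### Counting covered binary positions -/

lemma countP_card {α : Type} (P : α → Bool) (L : List α) :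
    L.countP P = ((Finset.range L.length).filter (fun i => L[i]?.map P = some true)).card := by
  induction L using List.reverseRecOn with
  | nil => simp
  | append_singleton L b ih =>
    rw [List.countP_append, ih]
    rw [List.length_append, List.length_singleton, Finset.range_add_one, Finset.filter_insert]
    have e1 : (Finset.range L.length).filter (fun i => (L ++ [b])[i]?.map P = some true) =
        (Finset.range L.length).filter (fun i => L[i]?.map P = some true) := by
      apply Finset.filter_congr
      intro i hi
      rw [Finset.mem_range] at hi
      rw [List.getElem?_append_left hi]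
    rw [e1]
    have e2 : (L ++ [b])[L.length]? = some b := by simp
    rw [e2]
    by_cases hb : P b = true
    · rw [if_pos (by simp [hb]), Finset.card_insert_of_notMem (by simp)]
      simp [hb]
    · rw [if_neg (by simpa using hb)]
      simp [hb]

lemma cov_eq_countP (l : ℕ) (I : List g.Item) :
    cov l I = ((flat I).zip (flags l I)).countP (fun x => decide (x.1.1 = 3) && x.2) := by
  induction I with
  | nil => rfl
  | cons it I ih =>
    rw [cov_cons, flat_cons, flags_cons, List.zip_append (by simp), List.countP_append, ← ih]
    congr 1
    have key : ∀ (z : List Tm) (b : Bool), (z.zip (List.replicate z.length b)).countP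
        (fun x => decide (x.1.1 = 3) && x.2) = if b then cls z 3 else 0 := by
      intro z b
      induction z with
      | nil => simp [cls]
      | cons a z ihz =>
        simp only [List.length_cons, List.replicate_succ, List.zip_cons_cons, List.countP_cons, ihz]
        cases b with
        | false => simp
        | true =>
          simp only [Bool.and_true, decide_eq_true_eq, if_true, cls, List.map_cons, List.count_cons,
            beq_iff_eq]
    exact (key it.2 (long l it)).symm

open Classical in
lemma IsDec.cov_card (hg : g.IsPropagating) (hL : Gen g) {n l v : ℕ} (hl : 0 < l)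
    (hgood : Good n l v) {I : List g.Item} (h : IsDec g n v I) :
    cov l I = ((Finset.range n).filter (fun i => Cov l I (2 * n + 1 + i))).card := by
  rw [cov_eq_countP, countP_card]
  symm
  apply Finset.card_bij (fun i _ => 2 * n + 1 + i)
  · intro i hi
    rw [Finset.mem_filter, Finset.mem_range] at hi
    rw [Finset.mem_filter, Finset.mem_range, List.length_zip, flags_length, h.flat_eq, word_length]
    refine ⟨by omega, ?_⟩
    have e : ((word n v).zip (flags l I))[2 * n + 1 + i]? =
        some (letter n v (2 * n + 1 + i), true) := by
      rw [List.getElem?_zip_eq_some]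
      exact ⟨word_get (by omega), (h.cov_iff hg hL hl hgood _).mpr hi.2⟩
    rw [e]
    have : (letter n v (2 * n + 1 + i)).1 = 3 := by
      rw [letter_fst, pc_eq3]; omega
    simp [this]
  · intro a _ b _ hab
    omega
  · intro p hp
    rw [Finset.mem_filter, Finset.mem_range, List.length_zip, flags_length, h.flat_eq,
      word_length] at hp
    obtain ⟨hp1, hx⟩ := hp
    rw [Option.map_eq_some_iff] at hx
    obtain ⟨x, hx1, hx2⟩ := hx
    rw [List.getElem?_zip_eq_some] at hx1
    obtain ⟨h1, h2⟩ := hx1
    simp only [Bool.and_eq_true, decide_eq_true_eq] at hx2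
    rw [word_get (by omega)] at h1
    have h3 := Option.some.inj h1
    rw [← h3, letter_fst, pc_eq3] at hx2
    rw [hx2.2] at h2
    refine ⟨p - (2 * n + 1), ?_, by omega⟩
    rw [Finset.mem_filter, Finset.mem_range]
    refine ⟨by omega, ?_⟩
    have e : 2 * n + 1 + (p - (2 * n + 1)) = p := by omega
    rw [e]
    exact (h.cov_iff hg hL hl hgood _).mp h2

end ForbiddingGrammar

end Pool.Agent.Helper79.Forb
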