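import Pool.Agent.Helper79.ForbDefs

set_option autoImplicit false

/-!
Decompositions of derivations: sentential forms whose symbols carry the terminal words they are
going to derive, seen as multisets.
-/

namespace Pool.Agent.Helper79.Forb

open Relation

namespace ForbiddingGrammar

variable {T : Type} (g : ForbiddingGrammar T)

/-- A symbol with the terminal word it derives. -/
abbrev Item := Symbol T g.NT × List T

variable {g} in
/-- The concatenation of the words of the items. -/
def flat (I : List g.Item) : List T := I.flatMap Prod.snd

variable {g} in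
@[simp] lemma flat_nil : flat ([] : List g.Item) = [] := rfl

variable {g} in
@[simp] lemma flat_cons (it : g.Item) (I : List g.Item) : flat (it :: I) = it.2 ++ flat I := rfl

variable {g} in
@[simp] lemma flat_append (I J : List g.Item) : flat (I ++ J) = flat I ++ flat J := by
  unfold flat; exact List.flatMap_append

/-- The items can be derived simultaneously. -/
inductive Dec : Multiset g.Item → Prop
  | base (M : Multiset g.Item) (h : ∀ it ∈ M, ∃ a, it = (Symbol.terminal a, [a])) : Dec M
  | rule (r : FRule T g.NT) (hr : r ∈ g.rules) (Jx : List g.Item)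
      (hJ : Jx.map Prod.fst = r.rule.output) (R : Multiset g.Item)
      (hin : r.rule.input ∉ r.forb)
      (hR : ∀ A ∈ r.forb, ∀ it ∈ R, it.1 ≠ Symbol.nonterminal A)
      (hd : Dec (↑Jx + R)) : Dec ((Symbol.nonterminal r.rule.input, flat Jx) ::ₘ R)

variable {g}

lemma dec_lower {M : Multiset g.Item} (h : g.Dec M) : ∀ I : List g.Item, (I : Multiset g.Item) = M →
    g.Derives (I.map Prod.fst) ((flat I).map Symbol.terminal) := by
  induction h with
  | base M hM =>
    intro I hI
    have key : ∀ I : List g.Item, (∀ it ∈ I, ∃ a, it = (Symbol.terminal a, [a])) →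
        I.map Prod.fst = (flat I).map Symbol.terminal := by
      intro I
      induction I with
      | nil => intro _; rfl
      | cons it I ih =>
        intro h
        obtain ⟨a, rfl⟩ := h it (by simp)
        simp only [List.map_cons, flat_cons, List.map_append, List.map_nil]
        rw [ih (fun x hx => h x (by simp [hx]))]
        rfl
    rw [key I (fun it hit => hM it (by rw [← hI]; exact Multiset.mem_coe.mpr hit))]
    exact ReflTransGen.refl
  | rule r hr Jx hJ R hin hR hd ih =>
    intro I hI
    have hmem : (Symbol.nonterminal r.rule.input, flat Jx) ∈ I := by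
      rw [← Multiset.mem_coe, hI]; exact Multiset.mem_cons_self _ _
    obtain ⟨I1, I2, rfl⟩ := List.append_of_mem hmem
    have hR' : ((I1 ++ I2 : List g.Item) : Multiset g.Item) = R := by
      have : ((I1 ++ (Symbol.nonterminal r.rule.input, flat Jx) :: I2 : List g.Item) :
          Multiset g.Item) = (Symbol.nonterminal r.rule.input, flat Jx) ::ₘ
            ((I1 ++ I2 : List g.Item) : Multiset g.Item) := by
        rw [Multiset.cons_coe]
        exact Multiset.coe_eq_coe.mpr List.perm_middle
      rw [this] at hI
      exact (Multiset.cons_inj_right _).mp hI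
    have hih := ih (I1 ++ Jx ++ I2) (by
      rw [← hR']
      simp only [Multiset.coe_add]
      exact Multiset.coe_eq_coe.mpr ((List.perm_append_comm (l₁ := I1) (l₂ := Jx)).append_right I2
        |>.trans (by rw [List.append_assoc])))
    have e1 : flat (I1 ++ Jx ++ I2) = flat (I1 ++ (Symbol.nonterminal r.rule.input, flat Jx) :: I2) := by
      simp
    rw [e1] at hih
    refine ReflTransGen.head ?_ hih
    refine ⟨r, hr, ?_, ?_⟩
    · intro A hA hmem
      rw [List.mem_map] at hmem
      obtain ⟨it, hit, hA'⟩ := hmem
      rcases List.mem_append.mp hit with h1 | h1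
      · exact hR A hA it (by rw [← hR']; simp [h1]) hA'
      · rcases List.mem_cons.mp h1 with h2 | h2
        · subst h2
          simp only [Symbol.nonterminal.injEq] at hA'
          rw [hA'] at hin
          exact hin hA
        · exact hR A hA it (by rw [← hR']; simp [h2]) hA'
    · rw [ContextFreeRule.rewrites_iff]
      refine ⟨I1.map Prod.fst, I2.map Prod.fst, ?_, ?_⟩
      · simp
      · rw [List.map_append, List.map_append, hJ]

lemma dec_add_terminal {M : Multiset g.Item} (h : g.Dec M) (a : T) :
    g.Dec ((Symbol.terminal a, [a]) ::ₘ M) := by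
  induction h with
  | base M hM =>
    refine Dec.base _ ?_
    intro it hit
    rcases Multiset.mem_cons.mp hit with h | h
    · exact ⟨a, h⟩
    · exact hM it h
  | rule r hr Jx hJ R hin hR hd ih =>
    rw [Multiset.cons_swap]
    refine Dec.rule r hr Jx hJ _ hin ?_ ?_
    · intro A hA it hit
      rcases Multiset.mem_cons.mp hit with h | h
      · subst h; simp
      · exact hR A hA it h
    · rw [Multiset.add_cons]; exact ih

lemma dec_remove_terminal {N : Multiset g.Item} (h : g.Dec N) (a : T) :
    ∀ M, N = (Symbol.terminal a, [a]) ::ₘ M → g.Dec M := by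
  induction h with
  | base N hN =>
    intro M hM
    refine Dec.base _ ?_
    intro it hit
    exact hN it (by rw [hM]; exact Multiset.mem_cons_of_mem hit)
  | rule r hr Jx hJ R hin hR hd ih =>
    intro M hM
    rw [Multiset.cons_eq_cons] at hM
    rcases hM with ⟨h1, _⟩ | ⟨_, cs, h1, h2⟩
    · simp at h1
    · rw [h2]
      refine Dec.rule r hr Jx hJ _ hin ?_ ?_
      · intro A hA it hit
        exact hR A hA it (by rw [h1]; exact Multiset.mem_cons_of_mem hit)
      · exact ih _ (by rw [h1, Multiset.add_cons])

lemma dec_proper {M : Multiset g.Item} (h : g.Dec M) :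
    ∀ a z, (Symbol.terminal a, z) ∈ M → z = [a] := by
  induction h with
  | base M hM =>
    intro a z hz
    obtain ⟨b, hb⟩ := hM _ hz
    simp only [Prod.mk.injEq, Symbol.terminal.injEq] at hb
    obtain ⟨rfl, rfl⟩ := hb
    rfl
  | rule r hr Jx hJ R hin hR hd ih =>
    intro a z hz
    rcases Multiset.mem_cons.mp hz with h | h
    · simp at h
    · exact ih a z (by simp [h])

lemma dec_nonempty (hg : g.IsPropagating) {M : Multiset g.Item} (h : g.Dec M) :
    ∀ it ∈ M, it.2 ≠ [] := by
  induction h with
  | base M hM =>
    intro it hit
    obtain ⟨b, rfl⟩ := hM _ hit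
    simp
  | rule r hr Jx hJ R hin hR hd ih =>
    intro it hit
    rcases Multiset.mem_cons.mp hit with h | h
    · subst h
      have hne := hg r hr
      rw [← hJ] at hne
      cases Jx with
      | nil => simp at hne
      | cons j Jx =>
        simp only [flat_cons]
        intro hcon
        rw [List.append_eq_nil_iff] at hcon
        exact ih j (by simp) hcon.1
    · exact ih it (by simp [h])

/-- Whether an item is a nonterminal item. -/
def isNT (it : g.Item) : Bool := match it.1 with
  | Symbol.terminal _ => false
  | Symbol.nonterminal _ => true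

/-- Terminal items are proper. -/
def Proper (I : List g.Item) : Prop := ∀ a z, (Symbol.terminal a, z) ∈ I → z = [a]

lemma dec_filter : ∀ (I : List g.Item), Proper I → ∀ M : Multiset g.Item,
    (g.Dec (↑I + M) ↔ g.Dec (↑(I.filter isNT) + M)) := by
  intro I
  induction I with
  | nil => intro _ M; rfl
  | cons it I ih =>
    intro hp M
    have hp' : Proper I := fun a z h => hp a z (by simp [h])
    obtain ⟨X, z⟩ := it
    cases X with
    | terminal a =>
      have hz : z = [a] := hp a z (by simp)
      subst hz
      have e1 : (((Symbol.terminal a, [a]) : g.Item) :: I).filter isNT = I.filter isNT := by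
        rw [List.filter_cons_of_neg]; simp [isNT]
      rw [e1, ← ih hp' M]
      rw [← Multiset.cons_coe, Multiset.cons_add]
      constructor
      · intro h; exact dec_remove_terminal h a _ rfl
      · intro h; exact dec_add_terminal h a
    | nonterminal A =>
      have e1 : (((Symbol.nonterminal A, z) : g.Item) :: I).filter isNT =
          (Symbol.nonterminal A, z) :: I.filter isNT := by
        rw [List.filter_cons_of_pos]; simp [isNT]
      rw [e1, ← Multiset.cons_coe, ← Multiset.cons_coe, Multiset.cons_add, Multiset.cons_add]
      have := ih hp' ((Symbol.nonterminal A, z) ::ₘ M)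
      rw [Multiset.add_cons, Multiset.add_cons] at this
      exact this

lemma dec_transfer {I J : List g.Item} (hI : g.Dec ↑I) (hJ : Proper J)
    (h : (I.filter isNT).Perm (J.filter isNT)) : g.Dec ↑J := by
  have hIp : Proper I := fun a z hz => dec_proper hI a z (by simpa using hz)
  have h1 := (dec_filter I hIp 0).mp (by simpa using hI)
  have h2 := (dec_filter J hJ 0).mpr (by
    rw [← Multiset.coe_eq_coe.mpr h]; exact h1)
  simpa using h2

/-- Derivations can be decomposed, and there is a moment when a measure is in a given range. -/
theorem exists_cut {w : List T} (hw : w ∈ g.language) (cov : List g.Item → ℕ) (lo d : ℕ)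
    (hlo : 0 < lo)
    (hbase : ∀ I : List g.Item, (∀ it ∈ I, ∃ a, it = (Symbol.terminal a, [a])) → cov I = 0)
    (hstep : ∀ (I1 I2 Jx : List g.Item) (A : g.NT), (∃ r ∈ g.rules, Jx.map Prod.fst = r.rule.output) →
      Proper Jx → cov (I1 ++ (Symbol.nonterminal A, flat Jx) :: I2) ≤ cov (I1 ++ Jx ++ I2) + d)
    (hstart : lo ≤ cov [(Symbol.nonterminal g.initial, w)]) :
    ∃ I : List g.Item, g.Derives [Symbol.nonterminal g.initial] (I.map Prod.fst) ∧ g.Dec ↑I ∧
      flat I = w ∧ lo ≤ cov I ∧ cov I ≤ lo + d := by
  by_contra hcon
  have key : ∀ α : List (Symbol T g.NT), g.Derives α (w.map Symbol.terminal) →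
      ∃ I : List g.Item, I.map Prod.fst = α ∧ flat I = w ∧ g.Dec ↑I ∧
        (g.Derives [Symbol.nonterminal g.initial] α → cov I < lo) := by
    intro α hα
    unfold Derives at hα
    induction hα using ReflTransGen.head_induction_on with
    | refl =>
      refine ⟨w.map (fun a => (Symbol.terminal a, [a])), ?_, ?_, ?_, ?_⟩
      · rw [List.map_map]; rfl
      · unfold flat
        rw [List.flatMap_map]
        induction w with
        | nil => rfl
        | cons a w _ => simp
      · refine Dec.base _ ?_
        intro it hit
        simp only [Multiset.mem_coe, List.mem_map] at hit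
        obtain ⟨a, _, rfl⟩ := hit
        exact ⟨a, rfl⟩
      · intro _
        rw [hbase]
        · exact hlo
        · intro it hit
          simp only [List.mem_map] at hit
          obtain ⟨a, _, rfl⟩ := hit
          exact ⟨a, rfl⟩
    | head hab hbc ih =>
      rename_i a b
      obtain ⟨J, hJ1, hJ2, hJ3, hJ4⟩ := ih
      obtain ⟨r, hr, hforb, hrew⟩ := hab
      rw [ContextFreeRule.rewrites_iff] at hrew
      obtain ⟨p, q, ha, hb⟩ := hrew
      have hprod : g.Produces a b :=
        ⟨r, hr, hforb, by rw [ContextFreeRule.rewrites_iff]; exact ⟨p, q, ha, hb⟩⟩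
      rw [hb] at hJ1
      rw [List.map_eq_append_iff] at hJ1
      obtain ⟨J12, Jq, rfl, h12, hq⟩ := hJ1
      rw [List.map_eq_append_iff] at h12
      obtain ⟨Jp, Jx, rfl, hp, hx⟩ := h12
      have hproper : Proper Jx := by
        intro c z hz
        exact dec_proper hJ3 c z (by simp [hz])
      have hdec : g.Dec ↑(Jp ++ (Symbol.nonterminal r.rule.input, flat Jx) :: Jq) := by
        have e : ((Jp ++ (Symbol.nonterminal r.rule.input, flat Jx) :: Jq : List g.Item) :
            Multiset g.Item) = (Symbol.nonterminal r.rule.input, flat Jx) ::ₘ
            ((Jp ++ Jq : List g.Item) : Multiset g.Item) := by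
          rw [Multiset.cons_coe]
          exact Multiset.coe_eq_coe.mpr List.perm_middle
        rw [e]
        refine Dec.rule r hr Jx hx _ ?_ ?_ ?_
        · intro hmem
          exact hforb _ hmem (by rw [ha]; simp)
        · intro A hA it hit hcontra
          refine hforb A hA ?_
          rw [ha, ← hcontra]
          simp only [Multiset.mem_coe, List.mem_append] at hit
          rcases hit with h | h
          · have : it.1 ∈ p := by rw [← hp]; exact List.mem_map_of_mem h
            simp [this]
          · have : it.1 ∈ q := by rw [← hq]; exact List.mem_map_of_mem h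
            simp [this]
        · have e2 : ((Jx : Multiset g.Item) + ((Jp ++ Jq : List g.Item) : Multiset g.Item)) =
              ((Jp ++ Jx ++ Jq : List g.Item) : Multiset g.Item) := by
            simp only [Multiset.coe_add]
            refine Multiset.coe_eq_coe.mpr ?_
            rw [← List.append_assoc]
            exact (List.perm_append_comm (l₁ := Jx) (l₂ := Jp)).append_right Jq
          rw [e2]; exact hJ3
      have hmap : (Jp ++ (Symbol.nonterminal r.rule.input, flat Jx) :: Jq).map Prod.fst = a := by
        rw [ha]; simp [hp, hq]
      have hflat : flat (Jp ++ (Symbol.nonterminal r.rule.input, flat Jx) :: Jq) = w := by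
        rw [← hJ2]; simp
      refine ⟨Jp ++ (Symbol.nonterminal r.rule.input, flat Jx) :: Jq, hmap, hflat, hdec, ?_⟩
      intro hder
      have hder' : g.Derives [Symbol.nonterminal g.initial] b := ReflTransGen.tail hder hprod
      have h4 := hJ4 hder'
      have h5 := hstep Jp Jq Jx r.rule.input ⟨r, hr, hx⟩ hproper
      by_contra h6
      push Not at h6
      apply hcon
      exact ⟨_, by rw [hmap]; exact hder, hdec, hflat, h6, by omega⟩
  obtain ⟨I, h1, h2, h3, h4⟩ := key _ hw
  have h5 := h4 ReflTransGen.refl
  rw [List.map_eq_singleton_iff] at h1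
  obtain ⟨it, rfl, hit⟩ := h1
  obtain ⟨X, z⟩ := it
  simp only at hit
  subst hit
  have : z = w := by rw [← h2]; simp
  subst this
  omega

end ForbiddingGrammar

end Pool.Agent.Helper79.Forb
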