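import Mathlib

set_option autoImplicit false

/-!
Forbidding grammars (context-free rules with forbidding sets of nonterminals), their languages and
the propagating ones. We follow the conventions of `ContextFreeGrammar` in Mathlib.
-/

namespace Pool.Agent.Helper79.Forb

/-- A rule of a forbidding grammar over the terminals `T` and the nonterminals `N`:
a context-free rule `A → x` together with a set `forb` of nonterminals. -/
structure FRule (T N : Type) where
  /-- The context-free rule `A → x`. -/
  rule : ContextFreeRule T N
  /-- The forbidding set. -/
  forb : Set N

/-- A forbidding grammar over the terminals `T`: finitely many nonterminals, a start symbol and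
finitely many rules with forbidding sets. -/
structure ForbiddingGrammar (T : Type) where
  /-- Nonterminals. -/
  NT : Type
  /-- There are finitely many nonterminals. -/
  finite_NT : Finite NT
  /-- Start symbol. -/
  initial : NT
  /-- Rules. -/
  rules : Set (FRule T NT)
  /-- There are finitely many rules. -/
  finite_rules : rules.Finite

namespace ForbiddingGrammar

variable {T : Type}

/-- One derivation step: some rule `(A → x, F)` rewrites one occurrence of `A` in `u` to `x`,
where no symbol of `F` occurs in `u`. -/
def Produces (g : ForbiddingGrammar T) (u v : List (Symbol T g.NT)) : Prop :=
  ∃ r ∈ g.rules, (∀ A ∈ r.forb, Symbol.nonterminal A ∉ u) ∧ r.rule.Rewrites u v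

/-- Finitely many derivation steps. -/
def Derives (g : ForbiddingGrammar T) (u v : List (Symbol T g.NT)) : Prop :=
  Relation.ReflTransGen g.Produces u v

/-- The language generated by the grammar: all terminal words derivable from the start symbol. -/
def language (g : ForbiddingGrammar T) : Set (List T) :=
  {w | g.Derives [Symbol.nonterminal g.initial] (w.map Symbol.terminal)}

/-- A grammar is propagating if it has no erasing rule `A → ε`. -/
def IsPropagating (g : ForbiddingGrammar T) : Prop :=
  ∀ r ∈ g.rules, r.rule.output ≠ []

end ForbiddingGrammar

end Pool.Agent.Helper79.Forb
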