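import Pool.Agent.Helper79.ForbLetter

set_option autoImplicit false

/-!
The concrete language: mixed radix (2 and 3) numbers written most significant digit first,
a separator, and the same number written least significant digit first.
-/

namespace Pool.Agent.Helper79.Forb

/-- Terminal letters: a class and a digit. Class 0: binary digits of the left number, class 1:
ternary digits of the left number, class 2: separator, class 3: binary digits of the right number,
class 4: ternary digits of the right number. -/
abbrev Tm := Fin 5 × Fin 3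

/-- Radix of a class. -/
def rad (j : Fin 5) : ℕ := if j = 0 ∨ j = 3 then 2 else if j = 2 then 1 else 3

lemma rad_pos (j : Fin 5) : 0 < rad j := by
  unfold rad; split_ifs <;> omega

/-- Digit of a letter, complemented for the family `true`. -/
def dgt (c : Bool) (l : Tm) : ℕ := if c then rad l.1 - 1 - l.2.val else l.2.val

/-- Whether a letter of class `j` may follow in mode `m`. -/
def allowed (m j : Fin 5) : Prop := (m ≤ 1 ∧ m ≤ j ∧ j ≤ 2) ∨ (2 ≤ m ∧ 3 ≤ j ∧ m ≤ j)

instance (m j : Fin 5) : Decidable (allowed m j) := by unfold allowed; infer_instance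

/-- The letter machine. -/
def LM : LetterMachine where
  A := Tm
  Md := Fin 5
  finA := inferInstance
  finMd := inferInstance
  next := fun m l => if l.2.val < rad l.1 ∧ allowed m l.1 then some l.1 else none
  start := 0
  acc := {m | 2 ≤ m}
  a := fun l c => if 3 ≤ l.1 then dgt c l else 0
  b := fun l c => if 3 ≤ l.1 then 0 else dgt c l
  p := fun l => if 3 ≤ l.1 then rad l.1 else 1
  q := fun l => if 3 ≤ l.1 then 1 else rad l.1
  hp := fun l => by
    split_ifs
    · exact rad_pos _
    · exact Nat.one_pos

/-- The effect of a letter on values. -/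
def ff (c : Bool) (D : ℕ) (l : Tm) : ℕ :=
  if 3 ≤ l.1 then LetterMachine.cdiv (D - dgt c l) (rad l.1) else rad l.1 * D + dgt c l

lemma cdiv_one (x : ℕ) : LetterMachine.cdiv x 1 = x := by
  unfold LetterMachine.cdiv; simp

lemma f_eq (l : Tm) (c : Bool) (D : ℕ) : LM.f l c D = ff c D l := by
  unfold LetterMachine.f ff
  simp only [LM]
  split_ifs with h
  · simp
  · rw [cdiv_one]; simp

lemma val_eq (w : List Tm) (c : Bool) : LM.val w c = w.foldl (ff c) 0 := by
  unfold LetterMachine.val
  congr 1
  funext D l
  exact f_eq l c D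

/-- Mode after a word, starting from a given mode. -/
def mdf (o : Option (Fin 5)) (w : List Tm) : Option (Fin 5) :=
  w.foldl (fun o l => o.bind (fun m => if l.2.val < rad l.1 ∧ allowed m l.1 then some l.1 else none)) o

lemma md_eq (w : List Tm) : LM.md w = mdf (some 0) w := rfl

lemma mdf_none (w : List Tm) : mdf none w = none := by
  induction w with
  | nil => rfl
  | cons a l ih => exact ih

lemma mdf_cons (m : Fin 5) (l : Tm) (w : List Tm) :
    mdf (some m) (l :: w) = if l.2.val < rad l.1 ∧ allowed m l.1 then mdf (some l.1) w else none := by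
  unfold mdf
  simp only [List.foldl_cons, Option.bind_some]
  split_ifs with h
  · rfl
  · exact mdf_none w

lemma mdf_append (o : Option (Fin 5)) (w w' : List Tm) : mdf o (w ++ w') = mdf (mdf o w) w' := by
  unfold mdf; rw [List.foldl_append]

/-- The language of the grammar, concretely. -/
def Lang : Set (List Tm) := {w | (∃ m, 2 ≤ m ∧ mdf (some 0) w = some m) ∧ ∀ c, w.foldl (ff c) 0 = 0}

theorem lang_eq : LM.machine.grammar.language = Lang := by
  ext w
  rw [LM.mem_language_iff]
  constructor
  · rintro ⟨⟨m, hm, h⟩, hv⟩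
    refine ⟨⟨m, hm, h⟩, ?_⟩
    intro c
    exact (val_eq w c).symm.trans (hv c)
  · rintro ⟨⟨m, hm, h⟩, hv⟩
    refine ⟨⟨m, hm, h⟩, ?_⟩
    intro c
    exact (val_eq w c).trans (hv c)

/-- A letter of class `j` with digit `d`. -/
def lt (j : Fin 5) (d : ℕ) : Tm := (j, Fin.ofNat 3 d)

/-- The word of the number `v`. -/
def word (n v : ℕ) : List Tm :=
  (List.range n).map (fun p => lt 0 (v / 3 ^ n / 2 ^ (n - 1 - p) % 2)) ++
  (List.range n).map (fun p => lt 1 (v / 3 ^ (n - 1 - p) % 3)) ++
  lt 2 0 ::
  ((List.range n).map (fun p => lt 3 (v / 2 ^ p % 2)) ++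
  (List.range n).map (fun p => lt 4 (v / 2 ^ n / 3 ^ p % 3)))

lemma lt_snd {j : Fin 5} {d : ℕ} (h : d < 3) : (lt j d).2.val = d := by
  unfold lt
  simp only [Fin.ofNat]
  exact Nat.mod_eq_of_lt h

/-! ### Words of numbers belong to the language -/

lemma cdiv_mul {r m : ℕ} (hr : 0 < r) : LetterMachine.cdiv (r * m) r = m := by
  unfold LetterMachine.cdiv
  have : r * m + r - 1 = (r - 1) + r * m := by omega
  rw [this, Nat.add_mul_div_left _ _ hr, Nat.div_eq_of_lt (by omega), Nat.zero_add]

lemma not_three_le {j : Fin 5} (hj : j ≤ 1) : ¬ (3 ≤ j) := by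
  revert j
  decide

/-- Reading digits most significant first. -/
lemma xfold {j : Fin 5} (hj : j ≤ 1) (x K M : ℕ) (D0 : Bool → ℕ)
    (h0 : D0 false = x / (rad j) ^ K) (h1 : D0 true + x / (rad j) ^ K + 1 = M) :
    ∀ k, k ≤ K → ∀ D : Bool → ℕ,
      (∀ c, D c = ((List.range k).map
        (fun p => lt j (x / (rad j) ^ (K - 1 - p) % (rad j)))).foldl (ff c) (D0 c)) →
      D false = x / (rad j) ^ (K - k) ∧ D true + x / (rad j) ^ (K - k) + 1 = M * (rad j) ^ k := by
  intro k
  have hr : 0 < rad j := rad_pos j
  have hr3 : rad j ≤ 3 := by unfold rad; split_ifs <;> omega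
  induction k with
  | zero =>
    intro _ D hD
    simp only [List.range_zero, List.map_nil, List.foldl_nil] at hD
    rw [hD false, hD true]
    simp only [Nat.sub_zero, Nat.pow_zero, Nat.mul_one]
    exact ⟨h0, h1⟩
  | succ k ih =>
    intro hk D hD
    obtain ⟨g0, g1⟩ := ih (by omega) (fun c => ((List.range k).map
        (fun p => lt j (x / (rad j) ^ (K - 1 - p) % (rad j)))).foldl (ff c) (D0 c)) (fun c => rfl)
    have hstep : ∀ c, D c = rad j * (((List.range k).map
        (fun p => lt j (x / (rad j) ^ (K - 1 - p) % (rad j)))).foldl (ff c) (D0 c)) +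
        dgt c (lt j (x / (rad j) ^ (K - 1 - k) % (rad j))) := by
      intro c
      rw [hD c, List.range_succ, List.map_append, List.foldl_append]
      simp only [List.map_cons, List.map_nil, List.foldl_cons, List.foldl_nil]
      have : ¬ (3 ≤ (lt j (x / (rad j) ^ (K - 1 - k) % (rad j))).1) := by
        show ¬ (3 ≤ j)
        exact not_three_le hj
      conv_lhs => unfold ff
      rw [if_neg this]
      rfl
    have hdig : x / (rad j) ^ (K - 1 - k) % (rad j) < rad j := Nat.mod_lt _ hr
    have hdiv : x / (rad j) ^ (K - k) * rad j + x / (rad j) ^ (K - 1 - k) % (rad j)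
        = x / (rad j) ^ (K - 1 - k) := by
      have e : K - k = (K - 1 - k) + 1 := by omega
      rw [e, Nat.pow_succ, ← Nat.div_div_eq_div_mul, Nat.mul_comm]
      exact Nat.div_add_mod _ _
    have e2 : K - (k + 1) = K - 1 - k := by omega
    rw [e2]
    constructor
    · rw [hstep false, g0]
      unfold dgt
      rw [if_neg (by simp), lt_snd (by omega)]
      rw [Nat.mul_comm]; exact hdiv
    · rw [hstep true]
      unfold dgt
      rw [if_pos rfl, lt_snd (by omega)]
      have hcls : (lt j (x / (rad j) ^ (K - 1 - k) % (rad j))).1 = j := rfl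
      rw [hcls]
      rw [Nat.pow_succ, ← Nat.mul_assoc, ← g1]
      generalize ((List.range k).map
        (fun p => lt j (x / (rad j) ^ (K - 1 - p) % (rad j)))).foldl (ff true) (D0 true) = A
      generalize x / (rad j) ^ (K - k) = B at *
      generalize x / (rad j) ^ (K - 1 - k) = E at *
      generalize E % rad j = C at *
      have : (A + B + 1) * rad j = rad j * A + B * rad j + rad j := by ring
      rw [this]
      omega

/-- Reading digits least significant first. -/
lemma yfold {j : Fin 5} (hj : 3 ≤ j) (x K M : ℕ) (D0 : Bool → ℕ)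
    (h0 : D0 false = x) (h1 : D0 true + x + 1 = M * (rad j) ^ K) :
    ∀ k, k ≤ K → ∀ D : Bool → ℕ,
      (∀ c, D c = ((List.range k).map
        (fun p => lt j (x / (rad j) ^ p % (rad j)))).foldl (ff c) (D0 c)) →
      D false = x / (rad j) ^ k ∧ D true + x / (rad j) ^ k + 1 = M * (rad j) ^ (K - k) := by
  intro k
  have hr : 0 < rad j := rad_pos j
  have hr3 : rad j ≤ 3 := by unfold rad; split_ifs <;> omega
  induction k with
  | zero =>
    intro _ D hD
    simp only [List.range_zero, List.map_nil, List.foldl_nil] at hD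
    rw [hD false, hD true]
    simp only [Nat.sub_zero, Nat.pow_zero, Nat.div_one]
    exact ⟨h0, h1⟩
  | succ k ih =>
    intro hk D hD
    obtain ⟨g0, g1⟩ := ih (by omega) (fun c => ((List.range k).map
        (fun p => lt j (x / (rad j) ^ p % (rad j)))).foldl (ff c) (D0 c)) (fun c => rfl)
    have hstep : ∀ c, D c = LetterMachine.cdiv (((List.range k).map
        (fun p => lt j (x / (rad j) ^ p % (rad j)))).foldl (ff c) (D0 c) -
        dgt c (lt j (x / (rad j) ^ k % (rad j)))) (rad j) := by
      intro c
      rw [hD c, List.range_succ, List.map_append, List.foldl_append]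
      simp only [List.map_cons, List.map_nil, List.foldl_cons, List.foldl_nil]
      have : (3 ≤ (lt j (x / (rad j) ^ k % (rad j))).1) := hj
      conv_lhs => unfold ff
      rw [if_pos this]
      rfl
    have hdig : x / (rad j) ^ k % (rad j) < rad j := Nat.mod_lt _ hr
    have hdiv : rad j * (x / (rad j) ^ (k + 1)) + x / (rad j) ^ k % (rad j)
        = x / (rad j) ^ k := by
      rw [Nat.pow_succ, ← Nat.div_div_eq_div_mul]
      exact Nat.div_add_mod _ _
    constructor
    · rw [hstep false, g0]
      unfold dgt
      rw [if_neg (by simp), lt_snd (by omega)]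
      have : x / rad j ^ k - x / rad j ^ k % rad j = rad j * (x / (rad j) ^ (k + 1)) := by omega
      rw [this, cdiv_mul hr]
    · rw [hstep true]
      unfold dgt
      rw [if_pos rfl, lt_snd (by omega)]
      have hcls : (lt j (x / (rad j) ^ k % (rad j))).1 = j := rfl
      rw [hcls]
      have hpow : M * rad j ^ (K - k) = rad j * (M * rad j ^ (K - (k + 1))) := by
        have e : K - k = (K - (k + 1)) + 1 := by omega
        rw [e, Nat.pow_succ]; ring
      rw [hpow] at g1
      rw [← hdiv] at g1
      generalize ((List.range k).map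
        (fun p => lt j (x / (rad j) ^ p % (rad j)))).foldl (ff true) (D0 true) = A at *
      generalize x / (rad j) ^ (k + 1) = B at *
      generalize x / (rad j) ^ k % (rad j) = C at *
      generalize M * rad j ^ (K - (k + 1)) = M' at *
      have hBM : B < M' := by
        by_contra hcon
        push Not at hcon
        have := Nat.mul_le_mul_left (rad j) hcon
        omega
      have hA : A - (rad j - 1 - C) = rad j * (M' - 1 - B) := by
        obtain ⟨t, ht⟩ : ∃ t, M' = B + 1 + t := ⟨M' - (B + 1), by omega⟩
        subst ht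
        have e1 : B + 1 + t - 1 - B = t := by omega
        rw [e1]
        have e2 : rad j * (B + 1 + t) = rad j * B + rad j + rad j * t := by ring
        rw [e2] at g1
        omega
      rw [hA, cdiv_mul hr]
      omega

lemma mdf_block (j m : Fin 5) (hm : mdf (some m) [] = some m) (hjj : allowed j j)
    (hmj : allowed m j) (g : ℕ → ℕ) (hg : ∀ p, g p < rad j) :
    ∀ k, ∃ m', mdf (some m) ((List.range k).map (fun p => lt j (g p))) = some m' ∧
      (m' = m ∨ m' = j) := by
  intro k
  induction k with
  | zero => exact ⟨m, hm, Or.inl rfl⟩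
  | succ k ih =>
    obtain ⟨m', h1, h2⟩ := ih
    refine ⟨j, ?_, Or.inr rfl⟩
    rw [List.range_succ, List.map_append, mdf_append, h1]
    simp only [List.map_cons, List.map_nil]
    rw [mdf_cons]
    have hr3 : rad j ≤ 3 := by unfold rad; split_ifs <;> omega
    rw [if_pos]
    · rfl
    · refine ⟨?_, ?_⟩
      · rw [lt_snd (by have := hg k; omega)]; exact hg k
      · rcases h2 with h2 | h2
        · rw [h2]; exact hmj
        · rw [h2]; exact hjj

theorem word_mem_lang (n v : ℕ) (hv : v < 6 ^ n) : word n v ∈ Lang := by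
  have h6 : (6 : ℕ) ^ n = 2 ^ n * 3 ^ n := by
    rw [← Nat.mul_pow]
  have hv3 : v / 3 ^ n < 2 ^ n := by
    rw [Nat.div_lt_iff_lt_mul (by positivity)]
    rw [← h6]; exact hv
  have hv2 : v / 2 ^ n < 3 ^ n := by
    rw [Nat.div_lt_iff_lt_mul (by positivity)]
    rw [Nat.mul_comm, ← h6]; exact hv
  constructor
  · -- mode
    unfold word
    obtain ⟨m1, a1, b1⟩ := mdf_block 0 0 rfl (by decide) (by decide)
      (fun p => v / 3 ^ n / 2 ^ (n - 1 - p) % 2) (fun p => Nat.mod_lt _ (by norm_num)) n
    have hm1 : m1 = 0 := by rcases b1 with h | h <;> exact h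
    subst hm1
    obtain ⟨m2, a2, b2⟩ := mdf_block 1 0 rfl (by decide) (by decide)
      (fun p => v / 3 ^ (n - 1 - p) % 3) (fun p => Nat.mod_lt _ (by norm_num)) n
    obtain ⟨m3, a3, b3⟩ := mdf_block 3 2 rfl (by decide) (by decide)
      (fun p => v / 2 ^ p % 2) (fun p => Nat.mod_lt _ (by norm_num)) n
    obtain ⟨m4, a4, b4⟩ := mdf_block 4 m3 rfl (by decide)
      (by rcases b3 with h | h <;> subst h <;> decide)
      (fun p => v / 2 ^ n / 3 ^ p % 3) (fun p => Nat.mod_lt _ (by norm_num)) n
    refine ⟨m4, ?_, ?_⟩
    · rcases b4 with h | h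
      · rcases b3 with h' | h' <;> subst h' <;> subst h <;> decide
      · subst h; decide
    · rw [mdf_append, mdf_append, a1, a2]
      have hsep : mdf (some m2) (lt 2 0 :: ((List.range n).map (fun p => lt 3 (v / 2 ^ p % 2)) ++
        (List.range n).map (fun p => lt 4 (v / 2 ^ n / 3 ^ p % 3)))) =
        mdf (some 2) ((List.range n).map (fun p => lt 3 (v / 2 ^ p % 2)) ++
        (List.range n).map (fun p => lt 4 (v / 2 ^ n / 3 ^ p % 3))) := by
        rw [mdf_cons, if_pos]
        · rfl
        · refine ⟨by decide, ?_⟩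
          rcases b2 with h | h <;> subst h <;> decide
      rw [hsep, mdf_append, a3, a4]
  · -- values
    have r0 : rad 0 = 2 := rfl
    have r1 : rad 1 = 3 := rfl
    have r3 : rad 3 = 2 := rfl
    have r4 : rad 4 = 3 := rfl
    -- left binary block
    let D1 : Bool → ℕ := fun c => ((List.range n).map
      (fun p => lt 0 (v / 3 ^ n / 2 ^ (n - 1 - p) % 2))).foldl (ff c) 0
    have e1 : D1 false = v / 3 ^ n ∧ D1 true + v / 3 ^ n + 1 = 2 ^ n := by
      have := xfold (j := 0) (by decide) (v / 3 ^ n) n 1 (fun _ => 0)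
        (by rw [r0]; exact (Nat.div_eq_of_lt hv3).symm)
        (by rw [r0, Nat.div_eq_of_lt hv3]) n (le_refl n) D1 (fun c => by simp only [D1, r0])
      simpa [r0] using this
    let D2 : Bool → ℕ := fun c => ((List.range n).map
      (fun p => lt 1 (v / 3 ^ (n - 1 - p) % 3))).foldl (ff c) (D1 c)
    have e2 : D2 false = v ∧ D2 true + v + 1 = 2 ^ n * 3 ^ n := by
      have := xfold (j := 1) (by decide) v n (2 ^ n) D1
        (by rw [r1]; exact e1.1) (by rw [r1]; exact e1.2) n (le_refl n) D2
        (fun c => by simp only [D2, r1])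
      simpa [r1] using this
    let D3 : Bool → ℕ := fun c => ((List.range n).map
      (fun p => lt 3 (v / 2 ^ p % 2))).foldl (ff c) (D2 c)
    have e3 : D3 false = v / 2 ^ n ∧ D3 true + v / 2 ^ n + 1 = 3 ^ n := by
      have := yfold (j := 3) (by decide) v n (3 ^ n) D2 e2.1
        (by rw [r3, Nat.mul_comm]; exact e2.2) n (le_refl n) D3
        (fun c => by simp only [D3, r3])
      simpa [r3] using this
    let D4 : Bool → ℕ := fun c => ((List.range n).map
      (fun p => lt 4 (v / 2 ^ n / 3 ^ p % 3))).foldl (ff c) (D3 c)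
    have e4 : D4 false = v / 2 ^ n / 3 ^ n ∧ D4 true + v / 2 ^ n / 3 ^ n + 1 = 1 := by
      have := yfold (j := 4) (by decide) (v / 2 ^ n) n 1 D3 e3.1
        (by rw [r4, Nat.one_mul]; exact e3.2) n (le_refl n) D4
        (fun c => by simp only [D4, r4])
      simpa [r4] using this
    intro c
    have hfin : (word n v).foldl (ff c) 0 = D4 c := by
      unfold word
      rw [List.foldl_append, List.foldl_append, List.foldl_cons, List.foldl_append]
      have hsep : ∀ D, ff c D (lt 2 0) = D := by
        intro D
        cases c <;> simp [ff, lt, dgt, rad]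
      rw [hsep]
    rw [hfin]
    cases c with
    | false => rw [e4.1]; exact Nat.div_eq_of_lt hv2
    | true => have := e4.2; omega

end Pool.Agent.Helper79.Forb
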