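import Pool.Agent.Helper79.ForbCut
import Pool.Agent.Helper79.ForbCount

set_option autoImplicit false

/-!
No propagating forbidding grammar generates the language.
-/

namespace Pool.Agent.Helper79.Forb

namespace ForbiddingGrammar

/-- Choice of the parameters. -/
lemma exists_params (s ρ : ℕ) : ∃ l n : ℕ, 0 < l ∧ 0 < n ∧
    n = 2 * (2 * (2 * s + 1) ^ 2 * l ^ 3 + 1) + ρ * l ∧ 8 * n ^ 2 ≤ 2 ^ l ∧
    4 * ((4 * n + 2) * ((4 * n + 2) * ((4 * n + 2) * ((16 ^ l) ^ (2 * l + 1))))) ^ s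
      < 3 ^ (l ^ 3) := by
  obtain ⟨c, hc⟩ : ∃ c, c = 4 * (2 * s + 1) ^ 2 + 2 + ρ := ⟨_, rfl⟩
  obtain ⟨m, hm⟩ : ∃ m, m = 8 * c ^ 2 + 15 * s + 2 := ⟨_, rfl⟩
  obtain ⟨l, hl⟩ : ∃ l, l = 2 ^ (m + 6) := ⟨_, rfl⟩
  obtain ⟨n, hn⟩ : ∃ n, n = 2 * (2 * (2 * s + 1) ^ 2 * l ^ 3 + 1) + ρ * l := ⟨_, rfl⟩
  have hl0 : 0 < l := by rw [hl]; positivity
  have hmm : m < 2 ^ m := Nat.lt_two_pow_self
  have hl2 : l = 64 * 2 ^ m := by rw [hl, Nat.pow_add]; ring
  have hn0 : 0 < n := by rw [hn]; positivity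
  have hl1 : l ≤ l ^ 3 := by
    calc l = l ^ 1 := (pow_one l).symm
      _ ≤ l ^ 3 := Nat.pow_le_pow_right hl0 (by norm_num)
  have hncl : n ≤ c * l ^ 3 := by
    have h1 : ρ * l ≤ ρ * l ^ 3 := Nat.mul_le_mul_left _ hl1
    have h2 : 1 ≤ l ^ 3 := by omega
    have h3 : c * l ^ 3 = 4 * (2 * s + 1) ^ 2 * l ^ 3 + 2 * l ^ 3 + ρ * l ^ 3 := by
      rw [hc]; ring
    have h4 : n = 4 * (2 * s + 1) ^ 2 * l ^ 3 + 2 + ρ * l := by
      rw [hn]; ring
    omega
  have h8 : 8 * n ^ 2 ≤ 2 ^ l := by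
    calc 8 * n ^ 2 ≤ 8 * (c * l ^ 3) ^ 2 := Nat.mul_le_mul_left _ (Nat.pow_le_pow_left hncl 2)
      _ = (8 * c ^ 2) * (2 ^ (m + 6)) ^ 6 := by rw [hl]; ring
      _ ≤ 2 ^ m * (2 ^ (m + 6)) ^ 6 := Nat.mul_le_mul_right _ (by omega)
      _ = 2 ^ (m + (m + 6) * 6) := by rw [← Nat.pow_mul, ← Nat.pow_add]
      _ ≤ 2 ^ l := Nat.pow_le_pow_right (by norm_num) (by omega)
  refine ⟨l, n, hl0, hn0, hn, h8, ?_⟩
  have h4n : 4 * n + 2 ≤ 2 ^ l := by
    refine le_trans ?_ h8
    nlinarith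
  have hbase : (4 * n + 2) * ((4 * n + 2) * ((4 * n + 2) * ((16 ^ l) ^ (2 * l + 1)))) ≤
      2 ^ (3 * l + 4 * l * (2 * l + 1)) := by
    have e : (2 : ℕ) ^ (3 * l + 4 * l * (2 * l + 1)) =
        2 ^ l * (2 ^ l * (2 ^ l * ((16 ^ l) ^ (2 * l + 1)))) := by
      have e1 : (16 : ℕ) = 2 ^ 4 := by norm_num
      rw [e1, ← Nat.pow_mul, ← Nat.pow_mul, ← Nat.pow_add, ← Nat.pow_add, ← Nat.pow_add]
      congr 1
      ring
    rw [e]
    exact Nat.mul_le_mul h4n (Nat.mul_le_mul h4n (Nat.mul_le_mul h4n (le_refl _)))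
  have hs : 15 * s + 2 ≤ l := by omega
  calc 4 * ((4 * n + 2) * ((4 * n + 2) * ((4 * n + 2) * ((16 ^ l) ^ (2 * l + 1))))) ^ s
      ≤ 4 * (2 ^ (3 * l + 4 * l * (2 * l + 1))) ^ s :=
        Nat.mul_le_mul_left _ (Nat.pow_le_pow_left hbase s)
    _ = 2 ^ (2 + (3 * l + 4 * l * (2 * l + 1)) * s) := by
        rw [← Nat.pow_mul, Nat.pow_add 2 2]
    _ ≤ 2 ^ (l ^ 3) := by
        apply Nat.pow_le_pow_right (by norm_num)
        have h1 : (15 * s + 2) * l ^ 2 ≤ l * l ^ 2 := Nat.mul_le_mul_right _ hs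
        have h2 : l * l ^ 2 = l ^ 3 := by ring
        have h3 : l ≤ l ^ 2 := by nlinarith
        have h4 : s * l ≤ s * l ^ 2 := Nat.mul_le_mul_left _ h3
        have h5 : (15 * s + 2) * l ^ 2 = 15 * (s * l ^ 2) + 2 * l ^ 2 := by ring
        have h6 : 2 + (3 * l + 4 * l * (2 * l + 1)) * s = 2 + 7 * (s * l) + 8 * (s * l ^ 2) := by
          ring
        have h7 : 1 ≤ l ^ 2 := by nlinarith
        omega
    _ < 3 ^ (l ^ 3) := Nat.pow_lt_pow_left (by norm_num) (by omega)

variable {g : ForbiddingGrammar Tm}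

lemma startOf_le (A : g.NT) (I : List g.Item) : startOf A I ≤ (flat I).length := by
  classical
  unfold startOf
  conv_rhs => rw [← List.takeWhile_append_dropWhile
    (p := fun it => decide (it.1 ≠ Symbol.nonterminal A)) (l := I)]
  rw [flat_append, List.length_append]
  omega

lemma lenOf_le (A : g.NT) (I : List g.Item) : lenOf A I ≤ (flat I).length := by
  unfold lenOf
  cases h : tg A I with
  | nil => simp
  | cons z Z =>
    obtain ⟨I1, I2, hI, _, _⟩ := tg_split (Z1 := []) h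
    rw [hI]
    simp
    omega

/-- Descriptors as elements of a finite type. -/
abbrev Desc (g : ForbiddingGrammar Tm) (n l : ℕ) : Type :=
  g.NT → Fin (4 * n + 2) × Fin (4 * n + 2) × Fin (4 * n + 2) × (Fin (2 * l + 1) → Fin l → Option Tm)

/-- The descriptor of a list of items. -/
noncomputable def desc (n l : ℕ) (I : List g.Item) : Desc g n l := fun A =>
  (Fin.ofNat _ (startOf A I), Fin.ofNat _ (lenOf A I), Fin.ofNat _ (tg A I).length,
    fun i j => ((tg A I)[i.val]?.getD [])[j.val]?)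

lemma sameDesc_of (hg : g.IsPropagating) {n l v v' : ℕ} {I I' : List g.Item} (h : IsDec g n v I)
    (h' : IsDec g n v' I') (hd : desc n l I = desc n l I') : SameDesc l I I' := by
  have hlen : (flat I).length = 4 * n + 1 := by rw [h.flat_eq, word_length]
  have hlen' : (flat I').length = 4 * n + 1 := by rw [h'.flat_eq, word_length]
  have hfin : ∀ a b : ℕ, a ≤ 4 * n + 1 → b ≤ 4 * n + 1 →
      Fin.ofNat (4 * n + 2) a = Fin.ofNat (4 * n + 2) b → a = b := by
    intro a b ha hb hab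
    have := congrArg Fin.val hab
    simp only [Fin.ofNat] at this
    rwa [Nat.mod_eq_of_lt (by omega), Nat.mod_eq_of_lt (by omega)] at this
  have hA : ∀ A : g.NT, desc n l I A = desc n l I' A := fun A => by rw [hd]
  unfold desc at hA
  simp only [Prod.mk.injEq] at hA
  refine ⟨?_, ?_, ?_, ?_⟩
  · intro A
    exact hfin _ _ (by rw [← hlen]; exact startOf_le A I) (by rw [← hlen']; exact startOf_le A I')
      (hA A).1
  · intro A
    exact hfin _ _ (by rw [← hlen]; exact lenOf_le A I) (by rw [← hlen']; exact lenOf_le A I')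
      (hA A).2.1
  · intro A
    exact hfin _ _ (by rw [← hlen]; exact tg_length_le A (h.ne_nil hg))
      (by rw [← hlen']; exact tg_length_le A (h'.ne_nil hg)) (hA A).2.2.1
  · intro A i hi j hj
    have := congrFun (congrFun (hA A).2.2.2 ⟨i, hi⟩) ⟨j, hj⟩
    exact this

lemma SameDesc.cov {l : ℕ} {I I' : List g.Item} (h : SameDesc l I I') (p : ℕ) :
    Cov l I p ↔ Cov l I' p := by
  unfold Cov
  constructor
  · rintro ⟨A, h1, h2, h3⟩
    rw [h.len] at h1 h3
    rw [h.start] at h2 h3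
    exact ⟨A, h1, h2, h3⟩
  · rintro ⟨A, h1, h2, h3⟩
    rw [← h.len] at h1 h3
    rw [← h.start] at h2 h3
    exact ⟨A, h1, h2, h3⟩

/-- The language is not generated by a propagating forbidding grammar. -/
theorem no_propagating (g : ForbiddingGrammar Tm) (hg : g.IsPropagating) : ¬ Gen g := by
  classical
  intro hL
  have := g.finite_NT
  have : Fintype g.NT := Fintype.ofFinite g.NT
  obtain ⟨ρ, hρ⟩ : ∃ ρ, ∀ r ∈ g.rules, r.rule.output.length ≤ ρ := by
    have hfin := g.finite_rules.image (fun r => r.rule.output.length)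
    obtain ⟨ρ, hρ⟩ := hfin.bddAbove
    exact ⟨ρ, fun r hr => hρ (Set.mem_image_of_mem _ hr)⟩
  obtain ⟨l, n, hl, hn0, hn, h8, hbig⟩ := exists_params (Fintype.card g.NT) ρ
  set s := Fintype.card g.NT with hs
  obtain ⟨M, hM⟩ : ∃ M, M = 2 * (2 * s + 1) ^ 2 * l ^ 3 := ⟨_, rfl⟩
  rw [← hM] at hn
  have hl3 : l ≤ l ^ 3 := by
    calc l = l ^ 1 := (pow_one l).symm
      _ ≤ l ^ 3 := Nat.pow_le_pow_right hl (by norm_num)
  have hlM : l ≤ M := by
    rw [hM]
    have : 1 * l ^ 3 ≤ 2 * (2 * s + 1) ^ 2 * l ^ 3 := Nat.mul_le_mul_right _ (by nlinarith)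
    omega
  have hex : ∀ v, ∃ I : List g.Item, v < 6 ^ n → (IsDec g n v I ∧ M + 1 ≤ cov l I ∧
      cov l I ≤ M + 1 + ρ * l) := by
    intro v
    by_cases hv : v < 6 ^ n
    · obtain ⟨I, hI⟩ := cut_exists hL hρ (n := n) (l := l) (v := v) (lo := M + 1) hl (by omega)
        (by omega) (by omega) hv
      exact ⟨I, fun _ => hI⟩
    · exact ⟨[], fun h => absurd h hv⟩
  choose It hIt using hex
  let F : Finset ℕ := (Finset.range (6 ^ n)).filter (fun v => Good n l v)
  have hfiber : ∀ δ ∈ (Finset.univ : Finset (Desc g n l)),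
      (F.filter (fun v => desc n l (It v) = δ)).card * 3 ^ (l ^ 3) ≤ 2 * 6 ^ n := by
    intro δ _
    rcases (F.filter (fun v => desc n l (It v) = δ)).eq_empty_or_nonempty with h0 | ⟨v0, hv0⟩
    · rw [h0]; simp
    · rw [Finset.mem_filter, Finset.mem_filter, Finset.mem_range] at hv0
      obtain ⟨⟨hv0a, hv0b⟩, hv0c⟩ := hv0
      obtain ⟨hd0, hc0, hc0'⟩ := hIt v0 hv0a
      have hcard := hd0.cov_card hg hL hl hv0b
      have hcompl := Finset.card_filter_add_card_filter_not (s := Finset.range n)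
        (fun i => Cov l (It v0) (2 * n + 1 + i))
      rw [Finset.card_range] at hcompl
      apply class_bound (ι := g.NT) (fun A => startOf A (It v0))
        (fun A => if l ≤ lenOf A (It v0) then startOf A (It v0) + lenOf A (It v0) else 0)
        (Cov l (It v0)) ?_ n (l ^ 3) (by positivity) _ ?_ ?_ ?_ ?_
      · intro p
        unfold Cov
        constructor
        · rintro ⟨A, h1, h2, h3⟩
          exact ⟨A, h2, by rw [if_pos h1]; exact h3⟩
        · rintro ⟨A, h1, h2⟩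
          by_cases h3 : l ≤ lenOf A (It v0)
          · rw [if_pos h3] at h2
            exact ⟨A, h3, h1, h2⟩
          · rw [if_neg h3] at h2
            omega
      · intro v hv
        rw [Finset.mem_filter, Finset.mem_filter, Finset.mem_range] at hv
        exact hv.1.1
      · intro v hv v' hv'
        rw [Finset.mem_filter, Finset.mem_filter, Finset.mem_range] at hv hv'
        obtain ⟨⟨hva, hvb⟩, hvc⟩ := hv
        obtain ⟨⟨hva', hvb'⟩, hvc'⟩ := hv'
        have hd := (hIt v hva).1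
        have hd' := (hIt v' hva').1
        have hsame : SameDesc l (It v) (It v') := sameDesc_of hg hd hd' (by rw [hvc, hvc'])
        have hsame0 : SameDesc l (It v) (It v0) := sameDesc_of hg hd hd0 (by rw [hvc, hv0c])
        obtain ⟨x, hx, hxl⟩ := crossing hg hL hl hvb hvb' hd hd' hsame
        refine ⟨x, hx, ?_⟩
        intro p hp
        rw [← hsame0.cov p]
        exact hxl p hp
      · rw [← hs, ← hM, ← hcard]
        omega
      · rw [← hs, ← hM]
        omega
  have hsum : F.card = ∑ δ : Desc g n l, (F.filter (fun v => desc n l (It v) = δ)).card :=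
    Finset.card_eq_sum_card_fiberwise (fun _ _ => Finset.mem_coe.mpr (Finset.mem_univ _))
  have hF : F.card * 3 ^ (l ^ 3) ≤ Fintype.card (Desc g n l) * (2 * 6 ^ n) := by
    rw [hsum, Finset.sum_mul]
    calc _ ≤ ∑ δ : Desc g n l, 2 * 6 ^ n := Finset.sum_le_sum hfiber
      _ = Fintype.card (Desc g n l) * (2 * 6 ^ n) := by
        rw [Finset.sum_const, Finset.card_univ, smul_eq_mul]
  have hΔ : Fintype.card (Desc g n l) =
      ((4 * n + 2) * ((4 * n + 2) * ((4 * n + 2) * ((16 ^ l) ^ (2 * l + 1))))) ^ s := by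
    have h16 : Fintype.card (Option Tm) = 16 := by rfl
    simp only [Desc, Fintype.card_fun, Fintype.card_prod, Fintype.card_fin, Fintype.card_option]
    rw [← hs]
  have hbad := bad_total n l hl
  have hsplit : ((Finset.range (6 ^ n)).filter (fun v => Good n l v)).card +
      ((Finset.range (6 ^ n)).filter (fun v => ¬ Good n l v)).card = 6 ^ n := by
    have := Finset.card_filter_add_card_filter_not (s := Finset.range (6 ^ n))
      (fun v => Good n l v)
    rwa [Finset.card_range] at this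
  have hbad2 : 2 * ((Finset.range (6 ^ n)).filter (fun v => ¬ Good n l v)).card ≤ 6 ^ n := by
    have h1 : ((Finset.range (6 ^ n)).filter (fun v => ¬ Good n l v)).card * (8 * n ^ 2) ≤
        4 * n * n * 6 ^ n := le_trans (Nat.mul_le_mul_left _ h8) hbad
    have h2 : (2 * ((Finset.range (6 ^ n)).filter (fun v => ¬ Good n l v)).card) * (4 * n ^ 2) ≤
        6 ^ n * (4 * n ^ 2) := by
      calc _ = ((Finset.range (6 ^ n)).filter (fun v => ¬ Good n l v)).card * (8 * n ^ 2) := by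
            ring
        _ ≤ 4 * n * n * 6 ^ n := h1
        _ = 6 ^ n * (4 * n ^ 2) := by ring
    exact Nat.le_of_mul_le_mul_right h2 (by positivity)
  have hF2 : 6 ^ n ≤ 2 * F.card := by
    have : F.card = ((Finset.range (6 ^ n)).filter (fun v => Good n l v)).card := rfl
    omega
  have h6 : 0 < (6 : ℕ) ^ n := by positivity
  have hfin1 : 6 ^ n * 3 ^ (l ^ 3) ≤ 6 ^ n * (4 * Fintype.card (Desc g n l)) := by
    calc 6 ^ n * 3 ^ (l ^ 3) ≤ 2 * F.card * 3 ^ (l ^ 3) := Nat.mul_le_mul_right _ hF2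
      _ = 2 * (F.card * 3 ^ (l ^ 3)) := by ring
      _ ≤ 2 * (Fintype.card (Desc g n l) * (2 * 6 ^ n)) := Nat.mul_le_mul_left _ hF
      _ = 6 ^ n * (4 * Fintype.card (Desc g n l)) := by ring
  have hfin2 := Nat.le_of_mul_le_mul_left hfin1 h6
  rw [hΔ] at hfin2
  omega

end ForbiddingGrammar

end Pool.Agent.Helper79.Forb
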