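import Pool.Agent.Helper79.ForbPos

set_option autoImplicit false

/-!
Most words of numbers have no repeated factor of logarithmic length.
-/

namespace Pool.Agent.Helper79.Forb

/-- Multiplier of a block. -/
def bK (n : ℕ) (k : Fin 4) : ℕ := if k = 0 then 3 ^ n else if k = 3 then 2 ^ n else 1

/-- Radix of a block. -/
def bR (k : Fin 4) : ℕ := if k = 0 ∨ k = 2 then 2 else 3

/-- No repetition of length `l` among the digits of a block. -/
def Good (n l v : ℕ) : Prop := ∀ (k : Fin 4) (a a' : ℕ), a < a' → a' + l ≤ n →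
  ∃ t < l, v / bK n k / bR k ^ (a' + t) % bR k ≠ v / bK n k / bR k ^ (a + t) % bR k

lemma bR_ge (k : Fin 4) : 2 ≤ bR k := by
  unfold bR; split_ifs <;> omega

lemma bK_pos (n : ℕ) (k : Fin 4) : 0 < bK n k := by
  unfold bK; split_ifs <;> positivity

lemma bK_dvd (n : ℕ) (k : Fin 4) {m : ℕ} (hm : m ≤ n) : bK n k * bR k ^ m ∣ 6 ^ n := by
  rw [six_pow]
  fin_cases k
  · show 3 ^ n * 2 ^ m ∣ 2 ^ n * 3 ^ n
    rw [Nat.mul_comm (3 ^ n)]
    exact Nat.mul_dvd_mul (Nat.pow_dvd_pow 2 hm) (dvd_refl _)
  · show 1 * 3 ^ m ∣ 2 ^ n * 3 ^ n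
    rw [Nat.one_mul]
    exact Dvd.dvd.mul_left (Nat.pow_dvd_pow 3 hm) _
  · show 1 * 2 ^ m ∣ 2 ^ n * 3 ^ n
    rw [Nat.one_mul]
    exact Dvd.dvd.mul_right (Nat.pow_dvd_pow 2 hm) _
  · show 2 ^ n * 3 ^ m ∣ 2 ^ n * 3 ^ n
    exact Nat.mul_dvd_mul (dvd_refl _) (Nat.pow_dvd_pow 3 hm)

/-- Counting numbers with a prescribed repetition of digits. -/
lemma bad_count {K r a a' l N : ℕ} (hK : 0 < K) (hr : 2 ≤ r) (haa : a < a')
    (hN : K * r ^ (a' + l) ∣ N) :
    ((Finset.range N).filter (fun v => ∀ t < l, v / K / r ^ (a' + t) % r = v / K / r ^ (a + t) % r)).card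
      * r ^ l ≤ N := by
  obtain ⟨c, rfl⟩ := hN
  have hr0 : 0 < r := by omega
  have key : ((Finset.range (K * r ^ (a' + l) * c)).filter
      (fun v => ∀ t < l, v / K / r ^ (a' + t) % r = v / K / r ^ (a + t) % r)).card ≤
      (Finset.range (K * r ^ a') ×ˢ Finset.range c).card := by
    apply Finset.card_le_card_of_injOn (fun v => (v % (K * r ^ a'), v / (K * r ^ (a' + l))))
    · intro v hv
      simp only [Finset.coe_filter, Finset.mem_range, Set.mem_ofPred_eq] at hv
      simp only [Finset.coe_product, Finset.coe_range, Set.mem_prod, Set.mem_Iio]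
      refine ⟨Nat.mod_lt _ (by positivity), ?_⟩
      rw [Nat.div_lt_iff_lt_mul (by positivity), Nat.mul_comm c]
      exact hv.1
    · intro v hv v' hv' heq
      simp only [Finset.coe_filter, Finset.mem_range, Set.mem_ofPred_eq] at hv hv'
      simp only [Prod.mk.injEq] at heq
      obtain ⟨h1, h2⟩ := heq
      have hind : ∀ t, t ≤ l → v % (K * r ^ (a' + t)) = v' % (K * r ^ (a' + t)) := by
        intro t
        induction t with
        | zero => intro _; exact h1
        | succ t ih =>
          intro ht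
          have h3 := ih (by omega)
          have h4 : v / K / r ^ (a' + t) % r = v' / K / r ^ (a' + t) % r := by
            rw [hv.2 t (by omega), hv'.2 t (by omega)]
            exact digit_of_mod (Nat.mul_dvd_mul (dvd_refl K) (Nat.pow_dvd_pow r (by omega))) h3
          have e : K * r ^ (a' + (t + 1)) = K * r ^ (a' + t) * r := by
            rw [← Nat.add_assoc, Nat.pow_succ, Nat.mul_assoc]
          have hm : ∀ u : ℕ, u % (K * r ^ (a' + t) * r) = u % (K * r ^ (a' + t)) +
              K * r ^ (a' + t) * (u / (K * r ^ (a' + t)) % r) := fun u => Nat.mod_mul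
          rw [e, hm v, hm v', h3, ← Nat.div_div_eq_div_mul, ← Nat.div_div_eq_div_mul, h4]
      exact eq_of_div_mod h2 (hind l (le_refl l))
  rw [Finset.card_product, Finset.card_range, Finset.card_range] at key
  calc _ ≤ (K * r ^ a' * c) * r ^ l := Nat.mul_le_mul_right _ key
    _ = K * r ^ (a' + l) * c := by rw [Nat.pow_add]; ring

open Classical in
/-- Most numbers are good. -/
lemma bad_total (n l : ℕ) (hl : 0 < l) :
    ((Finset.range (6 ^ n)).filter (fun v => ¬ Good n l v)).card * 2 ^ l ≤ 4 * n * n * 6 ^ n := by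
  let B : Fin 4 × ℕ × ℕ → Finset ℕ := fun x => if x.2.1 < x.2.2 ∧ x.2.2 + l ≤ n then
    (Finset.range (6 ^ n)).filter (fun v => ∀ t < l,
      v / bK n x.1 / bR x.1 ^ (x.2.2 + t) % bR x.1 = v / bK n x.1 / bR x.1 ^ (x.2.1 + t) % bR x.1)
    else ∅
  have hB : ∀ x, (B x).card * 2 ^ l ≤ 6 ^ n := by
    intro x
    simp only [B]
    split_ifs with hx
    · refine le_trans (Nat.mul_le_mul_left _ (Nat.pow_le_pow_left (bR_ge x.1) l)) ?_
      exact bad_count (bK_pos n x.1) (bR_ge x.1) hx.1 (bK_dvd n x.1 hx.2)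
    · simp
  have hsub : (Finset.range (6 ^ n)).filter (fun v => ¬ Good n l v) ⊆
      (Finset.univ ×ˢ (Finset.range n ×ˢ Finset.range n)).biUnion B := by
    intro v hv
    rw [Finset.mem_filter] at hv
    obtain ⟨hv1, hv2⟩ := hv
    unfold Good at hv2
    push Not at hv2
    obtain ⟨k, a, a', h1, h2, h3⟩ := hv2
    rw [Finset.mem_biUnion]
    refine ⟨(k, a, a'), ?_, ?_⟩
    · simp only [Finset.mem_product, Finset.mem_univ, Finset.mem_range, true_and]
      omega
    · simp only [B]
      rw [if_pos ⟨h1, h2⟩, Finset.mem_filter]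
      exact ⟨hv1, h3⟩
  calc _ ≤ ((Finset.univ ×ˢ (Finset.range n ×ˢ Finset.range n)).biUnion B).card * 2 ^ l :=
        Nat.mul_le_mul_right _ (Finset.card_le_card hsub)
    _ ≤ (∑ x ∈ (Finset.univ ×ˢ (Finset.range n ×ˢ Finset.range n)), (B x).card) * 2 ^ l :=
        Nat.mul_le_mul_right _ Finset.card_biUnion_le
    _ = ∑ x ∈ (Finset.univ ×ˢ (Finset.range n ×ˢ Finset.range n)), (B x).card * 2 ^ l := by
        rw [Finset.sum_mul]
    _ ≤ ∑ x ∈ ((Finset.univ : Finset (Fin 4)) ×ˢ (Finset.range n ×ˢ Finset.range n)), 6 ^ n :=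
        Finset.sum_le_sum (fun x _ => hB x)
    _ = 4 * n * n * 6 ^ n := by
        rw [Finset.sum_const, Finset.card_product, Finset.card_product]
        simp
        ring

lemma pc_eq0 {n p : ℕ} : pc n p = 0 ↔ p < n := by
  unfold pc
  split_ifs <;> simp_all

lemma pc_eq1 {n p : ℕ} : pc n p = 1 ↔ n ≤ p ∧ p < 2 * n := by
  unfold pc
  split_ifs <;> simp_all <;> omega

lemma pc_eq2 {n p : ℕ} : pc n p = 2 ↔ p = 2 * n := by
  unfold pc
  split_ifs <;> simp_all <;> omega

lemma pc_eq3 {n p : ℕ} : pc n p = 3 ↔ 2 * n < p ∧ p < 3 * n + 1 := by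
  unfold pc
  split_ifs <;> simp_all <;> omega

lemma pc_eq4 {n p : ℕ} : pc n p = 4 ↔ 3 * n + 1 ≤ p := by
  unfold pc
  split_ifs <;> simp_all
  all_goals omega

/-- Good words have no repetition. -/
lemma no_repeat {n l v p q : ℕ} (hg : Good n l v) (hl : 0 < l) (hpq : p < q)
    (hq : q + l ≤ 4 * n + 1) : ¬ ∀ t < l, letter n v (p + t) = letter n v (q + t) := by
  intro h
  have hc : ∀ t < l, pc n (p + t) = pc n (q + t) := by
    intro t ht
    have := congrArg Prod.fst (h t ht)
    exact this
  have hd : ∀ t < l, pd n v (p + t) = pd n v (q + t) := by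
    intro t ht
    have h1 := h t ht
    have h2 := hc t ht
    have h3 : (letter n v (p + t)).2.val = (letter n v (q + t)).2.val := by rw [h1]
    unfold letter at h3
    rw [lt_snd (pd_lt _ _ _), lt_snd (pd_lt _ _ _)] at h3
    exact h3
  have h0 := hc 0 hl
  rw [Nat.add_zero, Nat.add_zero] at h0
  rcases Nat.lt_or_ge q n with c0 | c0
  · -- block 0
    have hqn : q + l ≤ n := by
      by_contra hcon
      have := hc (n - q) (by omega)
      rw [(pc_eq0).mpr (by omega : p + (n - q) < n)] at this
      have := (pc_eq0).mp this.symm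
      omega
    obtain ⟨t, ht, hne⟩ := hg 0 (n - q - l) (n - p - l) (by omega) (by omega)
    apply hne
    have h5 := hd (l - 1 - t) (by omega)
    have e1 : p + (l - 1 - t) = n - 1 - (n - p - l + t) := by omega
    have e2 : q + (l - 1 - t) = n - 1 - (n - q - l + t) := by omega
    rw [e1, e2, pd_x0 (by omega), pd_x0 (by omega)] at h5
    exact h5
  · rcases Nat.lt_or_ge q (2 * n) with c1 | c1
    · -- block 1
      rw [(pc_eq1).mpr ⟨c0, c1⟩] at h0
      rw [pc_eq1] at h0
      have hqn : q + l ≤ 2 * n := by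
        by_contra hcon
        have := hc (2 * n - q) (by omega)
        rw [(pc_eq1).mpr (by omega : n ≤ p + (2 * n - q) ∧ p + (2 * n - q) < 2 * n)] at this
        have := (pc_eq1).mp this.symm
        omega
      obtain ⟨t, ht, hne⟩ := hg 1 (2 * n - q - l) (2 * n - p - l) (by omega) (by omega)
      apply hne
      have h5 := hd (l - 1 - t) (by omega)
      have e1 : p + (l - 1 - t) = 2 * n - 1 - (2 * n - p - l + t) := by omega
      have e2 : q + (l - 1 - t) = 2 * n - 1 - (2 * n - q - l + t) := by omega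
      rw [e1, e2, pd_x1 (by omega), pd_x1 (by omega)] at h5
      show v / 1 / 3 ^ _ % 3 = v / 1 / 3 ^ _ % 3
      rw [Nat.div_one]
      exact h5
    · rcases Nat.eq_or_lt_of_le c1 with c2 | c2
      · rw [← c2, (pc_eq2).mpr rfl] at h0
        have := (pc_eq2).mp h0
        omega
      · rcases Nat.lt_or_ge q (3 * n + 1) with c3 | c3
        · -- block 3
          rw [(pc_eq3).mpr ⟨c2, c3⟩] at h0
          rw [pc_eq3] at h0
          have hqn : q + l ≤ 3 * n + 1 := by
            by_contra hcon
            have := hc (3 * n + 1 - q) (by omega)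
            rw [(pc_eq3).mpr (by omega : 2 * n < p + (3 * n + 1 - q) ∧
              p + (3 * n + 1 - q) < 3 * n + 1)] at this
            have := (pc_eq3).mp this.symm
            omega
          obtain ⟨t, ht, hne⟩ := hg 2 (p - (2 * n + 1)) (q - (2 * n + 1)) (by omega) (by omega)
          apply hne
          have h5 := hd t ht
          have e1 : p + t = 2 * n + 1 + (p - (2 * n + 1) + t) := by omega
          have e2 : q + t = 2 * n + 1 + (q - (2 * n + 1) + t) := by omega
          rw [e1, e2, pd_y3 (by omega), pd_y3 (by omega)] at h5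
          show v / 1 / 2 ^ _ % 2 = v / 1 / 2 ^ _ % 2
          rw [Nat.div_one]
          exact h5.symm
        · -- block 4
          rw [(pc_eq4).mpr c3] at h0
          rw [pc_eq4] at h0
          obtain ⟨t, ht, hne⟩ := hg 3 (p - (3 * n + 1)) (q - (3 * n + 1)) (by omega) (by omega)
          apply hne
          have h5 := hd t ht
          have e1 : p + t = 3 * n + 1 + (p - (3 * n + 1) + t) := by omega
          have e2 : q + t = 3 * n + 1 + (q - (3 * n + 1) + t) := by omega
          rw [e1, e2, pd_y4 (by omega), pd_y4 (by omega)] at h5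
          exact h5.symm

/-- Good words have no repetition, in terms of factorisations. -/
lemma no_repeat' {n l v : ℕ} (hg : Good n l v) (hl : 0 < l) {P1 P2 u Q1 Q2 : List Tm}
    (h1 : word n v = P1 ++ u ++ Q1) (h2 : word n v = P2 ++ u ++ Q2) (hu : l ≤ u.length) :
    P1.length = P2.length := by
  have key : ∀ P1 P2 Q1 Q2 : List Tm, word n v = P1 ++ u ++ Q1 → word n v = P2 ++ u ++ Q2 →
      ¬ P1.length < P2.length := by
    intro P1 P2 Q1 Q2 h1 h2 hlt
    have hlen : P2.length + u.length ≤ 4 * n + 1 := by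
      rw [← word_length n v, h2]
      simp
    refine no_repeat hg hl hlt (by omega) ?_
    intro t ht
    have e1 : (word n v)[P1.length + t]? = u[t]? := by
      rw [h1, List.append_assoc, List.getElem?_append_right (by omega), Nat.add_sub_cancel_left,
        List.getElem?_append_left (by omega)]
    have e2 : (word n v)[P2.length + t]? = u[t]? := by
      rw [h2, List.append_assoc, List.getElem?_append_right (by omega), Nat.add_sub_cancel_left,
        List.getElem?_append_left (by omega)]
    rw [← e2] at e1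
    rw [word_get (by omega), word_get (by omega)] at e1
    exact Option.some.inj e1
  rcases Nat.lt_trichotomy P1.length P2.length with h | h | h
  · exact absurd h (key P1 P2 Q1 Q2 h1 h2)
  · exact h
  · exact absurd h (key P2 P1 Q2 Q1 h2 h1)

end Pool.Agent.Helper79.Forb
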