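import Pool.Agent.Helper79.ForbMachine

set_option autoImplicit false

/-!
Machines reading letters: every letter `ℓ` transforms the value `D` of family `c` into
`q ℓ * ⌈(D - a ℓ c) / p ℓ⌉ + b ℓ c`. Their languages are generated by forbidding grammars.
-/

namespace Pool.Agent.Helper79.Forb

open Relation

/-- Data of a letter machine. -/
structure LetterMachine where
  A : Type
  Md : Type
  finA : Finite A
  finMd : Finite Md
  next : Md → A → Option Md
  start : Md
  acc : Set Md
  a : A → Bool → ℕ
  b : A → Bool → ℕ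
  p : A → ℕ
  q : A → ℕ
  hp : ∀ l, 0 < p l

namespace LetterMachine

variable (L : LetterMachine)

attribute [instance] LetterMachine.finA LetterMachine.finMd

/-- Rounded-up division. -/
def cdiv (x p : ℕ) : ℕ := (x + p - 1) / p

lemma cdiv_zero {p : ℕ} (hp : 0 < p) : cdiv 0 p = 0 := by
  unfold cdiv
  apply Nat.div_eq_of_lt
  omega

lemma cdiv_mono {x y p : ℕ} (h : x ≤ y) : cdiv x p ≤ cdiv y p := by
  unfold cdiv
  apply Nat.div_le_div_right
  omega

lemma cdiv_pos_step {x p : ℕ} (hp : 0 < p) (hx : 0 < x) : cdiv x p = cdiv (x - p) p + 1 := by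
  unfold cdiv
  rcases Nat.le_total p x with h | h
  · have : x + p - 1 = (x - p + p - 1) + p := by omega
    rw [this, Nat.add_div_right _ hp]
  · have h1 : x - p = 0 := by omega
    rw [h1]
    have h2 : (0 + p - 1) / p = 0 := Nat.div_eq_of_lt (by omega)
    rw [h2]
    have h3 : x + p - 1 = (x - 1) + p := by omega
    rw [h3, Nat.add_div_right _ hp, Nat.div_eq_of_lt (by omega)]

lemma cdiv_le_step {x p : ℕ} (hp : 0 < p) : cdiv x p ≤ cdiv (x - p) p + 1 := by
  rcases Nat.eq_zero_or_pos x with h | h
  · subst h; rw [cdiv_zero hp]; omega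
  · exact (cdiv_pos_step hp h).le

/-- The effect of a letter on the value of family `c`. -/
def f (l : L.A) (c : Bool) (D : ℕ) : ℕ := L.q l * cdiv (D - L.a l c) (L.p l) + L.b l c

/-- The value of family `c` after a word. -/
def val (w : List L.A) (c : Bool) : ℕ := w.foldl (fun D l => L.f l c D) 0

/-- The mode after a word. -/
def md (w : List L.A) : Option L.Md := w.foldl (fun o l => o.bind (fun m => L.next m l)) (some L.start)

lemma val_append (w : List L.A) (l : L.A) (c : Bool) : L.val (w ++ [l]) c = L.f l c (L.val w c) := by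
  simp [val]

lemma md_append (w : List L.A) (l : L.A) : L.md (w ++ [l]) = (L.md w).bind (fun m => L.next m l) := by
  simp [md]

/-- States. -/
inductive St
  | R (m : L.Md) (e : Bool)
  | W (l : L.A) (m : L.Md) (c : Bool) (e : Bool)

instance : Finite L.St := by
  let g : L.St → (L.Md × Bool) ⊕ (L.A × L.Md × Bool × Bool) := fun x =>
    match x with
    | .R m e => Sum.inl (m, e)
    | .W l m c e => Sum.inr (l, m, c, e)
  apply Finite.of_injective g
  intro x y h
  cases x <;> cases y <;> simp [g] at h ⊢ <;> try exact h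

/-- Transitions. -/
inductive Trn
  | read (m : L.Md) (e : Bool) (l : L.A) (m' : L.Md) (h : L.next m l = some m')
  | loop (l : L.A) (m : L.Md) (c : Bool) (e : Bool)
  | mid (l : L.A) (m : L.Md) (e : Bool)
  | done (l : L.A) (m : L.Md) (e : Bool)

instance : Finite L.Trn := by
  let g : L.Trn → (L.Md × Bool × L.A × L.Md) ⊕ (L.A × L.Md × Bool × Bool) ⊕
      (L.A × L.Md × Bool) ⊕ (L.A × L.Md × Bool) := fun x =>
    match x with
    | .read m e l m' _ => Sum.inl (m, e, l, m')
    | .loop l m c e => Sum.inr (Sum.inl (l, m, c, e))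
    | .mid l m e => Sum.inr (Sum.inr (Sum.inl (l, m, e)))
    | .done l m e => Sum.inr (Sum.inr (Sum.inr (l, m, e)))
  apply Finite.of_injective g
  intro x y h
  cases x <;> cases y <;> simp [g] at h ⊢ <;> try exact h

/-- The counter machine. -/
def machine : Machine L.A where
  Q := L.St
  K := Bool × Bool
  Tr := L.Trn
  finQ := inferInstance
  finK := inferInstance
  finTr := inferInstance
  src := fun t => match t with
    | .read m e _ _ _ => .R m e
    | .loop l m c e => .W l m c e
    | .mid l m e => .W l m false e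
    | .done l m e => .W l m true e
  dst := fun t => match t with
    | .read _ e l m' _ => .W l m' false e
    | .loop l m c e => .W l m c e
    | .mid l m e => .W l m true e
    | .done _ m e => .R m (!e)
  out := fun t => match t with
    | .read _ _ l _ _ => [l]
    | _ => []
  dc := fun t => match t with
    | .read _ e _ _ _ => (false, e)
    | .loop _ _ c e => (c, e)
    | .mid _ _ e => (true, e)
    | .done _ _ e => (true, e)
  amt := fun t => match t with
    | .read _ _ l _ _ => L.a l false
    | .loop l _ _ _ => L.p l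
    | .mid l _ _ => L.a l true
    | .done _ _ _ => 0
  zero := fun t => match t with
    | .read _ _ _ _ _ => ∅
    | .loop _ _ _ _ => ∅
    | .mid _ _ e => {(false, e)}
    | .done _ _ e => {(true, e)}
  ic := fun t => match t with
    | .read _ e _ _ _ => (false, !e)
    | .loop _ _ c e => (c, !e)
    | .mid _ _ e => (false, !e)
    | .done _ _ e => (true, !e)
  ia := fun t => match t with
    | .read _ _ _ _ _ => 0
    | .loop l _ _ _ => L.q l
    | .mid l _ _ => L.b l false
    | .done l _ _ => L.b l true
  q0 := .R L.start false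
  fin := {x | ∃ m ∈ L.acc, ∃ e, x = .R m e}

/-- Invariant of runs. -/
def Inv (x : L.machine.Cfg) : Prop :=
  match x with
  | (.R m e, c, u) => L.md u = some m ∧ ∀ fam, c (fam, !e) = 0 ∧ L.val u fam ≤ c (fam, e)
  | (.W l m false e, c, u) => ∃ u', u = u' ++ [l] ∧ L.md u = some m ∧
      c (true, !e) = 0 ∧ L.val u' true ≤ c (true, e) ∧
      L.q l * cdiv (L.val u' false - L.a l false) (L.p l) ≤
        c (false, !e) + L.q l * cdiv (c (false, e)) (L.p l)
  | (.W l m true e, c, u) => ∃ u', u = u' ++ [l] ∧ L.md u = some m ∧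
      c (false, e) = 0 ∧ L.val u false ≤ c (false, !e) ∧
      L.q l * cdiv (L.val u' true - L.a l true) (L.p l) ≤
        c (true, !e) + L.q l * cdiv (c (true, e)) (L.p l)

lemma loop_ineq {X y y' o o' t p q : ℕ} (hp : 0 < p) (h : X ≤ y + q * cdiv o p)
    (ho : o = o' + t) (ht : t ≤ p) (hy : y' = y + q) : X ≤ y' + q * cdiv o' p := by
  have h1 : cdiv o p ≤ cdiv o' p + 1 := by
    refine (cdiv_le_step hp).trans ?_
    have : cdiv (o - p) p ≤ cdiv o' p := cdiv_mono (by omega)
    omega
  have h2 : q * cdiv o p ≤ q * (cdiv o' p + 1) := Nat.mul_le_mul_left _ h1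
  rw [Nat.mul_add, Nat.mul_one] at h2
  omega

lemma inv_step {x y : L.machine.Cfg} (hx : L.Inv x) (h : L.machine.Step x y) : L.Inv y := by
  obtain ⟨q, c, u⟩ := x
  obtain ⟨q', c', u'⟩ := y
  obtain ⟨τ, t, c1, h1, h2, h3, h4, h5, h6, h7⟩ := h
  simp only at h1 h2 h4 h6 h7
  cases τ with
  | read m e l m' hn =>
    simp only [machine] at h1 h2 h3 h4 h5 h6 h7
    subst h1 h2
    simp only [Inv] at hx ⊢
    obtain ⟨g1, g2⟩ := hx
    subst h7
    have e1 := h4 (false, e)
    have e2 := h4 (false, !e)
    have e3 := h4 (true, e)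
    have e4 := h4 (true, !e)
    have d1 := h6 (false, e)
    have d2 := h6 (false, !e)
    have d3 := h6 (true, e)
    have d4 := h6 (true, !e)
    simp at e1 e2 e3 e4 d1 d2 d3 d4
    refine ⟨u, rfl, ?_, ?_, ?_, ?_⟩
    · rw [md_append, g1]; exact hn
    · have := (g2 true).1; omega
    · have := (g2 true).2; omega
    · have k1 := (g2 false).1
      have k2 := (g2 false).2
      have : cdiv (L.val u false - L.a l false) (L.p l) ≤ cdiv (c' (false, e)) (L.p l) :=
        cdiv_mono (by omega)
      have := Nat.mul_le_mul_left (L.q l) this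
      omega
  | loop l m fam e =>
    simp only [machine] at h1 h2 h3 h4 h5 h6 h7
    subst h1 h2
    simp only [List.append_nil] at h7
    subst h7
    cases fam with
    | false =>
      simp only [Inv] at hx ⊢
      obtain ⟨u0, g1, g2, g3, g4, g5⟩ := hx
      have e1 := h4 (false, e)
      have e2 := h4 (false, !e)
      have e3 := h4 (true, e)
      have e4 := h4 (true, !e)
      have d1 := h6 (false, e)
      have d2 := h6 (false, !e)
      have d3 := h6 (true, e)
      have d4 := h6 (true, !e)
      simp at e1 e2 e3 e4 d1 d2 d3 d4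
      refine ⟨u0, g1, g2, by omega, by omega, ?_⟩
      exact loop_ineq (L.hp l) g5 (t := t) (by omega) h3 (by omega)
    | true =>
      simp only [Inv] at hx ⊢
      obtain ⟨u0, g1, g2, g3, g4, g5⟩ := hx
      have e1 := h4 (false, e)
      have e2 := h4 (false, !e)
      have e3 := h4 (true, e)
      have e4 := h4 (true, !e)
      have d1 := h6 (false, e)
      have d2 := h6 (false, !e)
      have d3 := h6 (true, e)
      have d4 := h6 (true, !e)
      simp at e1 e2 e3 e4 d1 d2 d3 d4
      refine ⟨u0, g1, g2, by omega, by omega, ?_⟩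
      exact loop_ineq (L.hp l) g5 (t := t) (by omega) h3 (by omega)
  | mid l m e =>
    simp only [machine] at h1 h2 h3 h4 h5 h6 h7
    subst h1 h2
    simp only [List.append_nil] at h7
    subst h7
    simp only [Inv] at hx ⊢
    obtain ⟨u0, g1, g2, g3, g4, g5⟩ := hx
    have z1 := h5 (false, e) rfl
    have e1 := h4 (false, e)
    have e2 := h4 (false, !e)
    have e3 := h4 (true, e)
    have e4 := h4 (true, !e)
    have d1 := h6 (false, e)
    have d2 := h6 (false, !e)
    have d3 := h6 (true, e)
    have d4 := h6 (true, !e)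
    simp at e1 e2 e3 e4 d1 d2 d3 d4
    refine ⟨u0, g1, g2, by omega, ?_, ?_⟩
    · rw [g1, val_append]
      unfold f
      have : c (false, e) = 0 := by omega
      rw [this, cdiv_zero (L.hp l)] at g5
      omega
    · have k3 : c' (true, !e) = 0 := by omega
      rw [k3]
      have : cdiv (L.val u0 true - L.a l true) (L.p l) ≤ cdiv (c' (true, e)) (L.p l) :=
        cdiv_mono (by omega)
      have := Nat.mul_le_mul_left (L.q l) this
      omega
  | done l m e =>
    simp only [machine] at h1 h2 h3 h4 h5 h6 h7
    subst h1 h2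
    simp only [List.append_nil] at h7
    subst h7
    simp only [Inv] at hx ⊢
    obtain ⟨u0, g1, g2, g3, g4, g5⟩ := hx
    have z1 := h5 (true, e) rfl
    have e1 := h4 (false, e)
    have e2 := h4 (false, !e)
    have e3 := h4 (true, e)
    have e4 := h4 (true, !e)
    have d1 := h6 (false, e)
    have d2 := h6 (false, !e)
    have d3 := h6 (true, e)
    have d4 := h6 (true, !e)
    simp at e1 e2 e3 e4 d1 d2 d3 d4
    refine ⟨g2, ?_⟩
    intro fam
    cases fam with
    | false =>
      simp only [Bool.not_not]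
      refine ⟨by omega, by omega⟩
    | true =>
      simp only [Bool.not_not]
      refine ⟨by omega, ?_⟩
      rw [g1, val_append]
      unfold f
      have : c (true, e) = 0 := by omega
      rw [this, cdiv_zero (L.hp l)] at g5
      omega

theorem machine_sound {w : List L.A} (hw : w ∈ L.machine.language) :
    (∃ m ∈ L.acc, L.md w = some m) ∧ ∀ c, L.val w c = 0 := by
  obtain ⟨q, ⟨m, hm, e, rfl⟩, hrun⟩ := hw
  have key : ∀ y, ReflTransGen L.machine.Step (L.machine.q0, (fun _ => 0), []) y → L.Inv y := by
    intro y hy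
    induction hy with
    | refl =>
      refine ⟨by simp [md], ?_⟩
      intro fam
      simp [val]
    | tail _ hstep ih => exact L.inv_step ih hstep
  have := key _ hrun
  simp only [Inv] at this
  obtain ⟨h1, h2⟩ := this
  refine ⟨⟨m, hm, h1⟩, ?_⟩
  intro c
  have := (h2 c).2
  omega

/-- Counter values: current and other counter of both families. -/
def cn (e : Bool) (x0 y0 x1 y1 : ℕ) : Bool × Bool → ℕ := fun k =>
  if k.1 = false then (if k.2 = e then x0 else y0) else (if k.2 = e then x1 else y1)

lemma cn_flip (e : Bool) (x0 y0 x1 y1 : ℕ) : cn e x0 y0 x1 y1 = cn (!e) y0 x0 y1 x1 := by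
  funext k
  obtain ⟨k1, k2⟩ := k
  unfold cn
  cases k1 <;> cases k2 <;> cases e <;> simp

lemma step_read (m : L.Md) (e : Bool) (l : L.A) (m' : L.Md) (h : L.next m l = some m')
    (x0 y0 x1 y1 : ℕ) (u : List L.A) :
    L.machine.Step (.R m e, cn e x0 y0 x1 y1, u)
      (.W l m' false e, cn e (x0 - L.a l false) y0 x1 y1, u ++ [l]) := by
  refine ⟨.read m e l m' h, min (L.a l false) x0, cn e (x0 - L.a l false) y0 x1 y1, rfl, rfl,
    Nat.min_le_left _ _, ?_, ?_, ?_, rfl⟩
  · rintro ⟨k1, k2⟩
    cases k1 <;> cases k2 <;> cases e <;> simp [cn, machine] <;> omega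
  · intro k hk; exact False.elim hk
  · rintro ⟨k1, k2⟩; simp [machine]

lemma step_loop_false (l : L.A) (m : L.Md) (e : Bool) (x0 y0 x1 y1 : ℕ) (u : List L.A) :
    L.machine.Step (.W l m false e, cn e x0 y0 x1 y1, u)
      (.W l m false e, cn e (x0 - L.p l) (y0 + L.q l) x1 y1, u) := by
  refine ⟨.loop l m false e, min (L.p l) x0, cn e (x0 - L.p l) y0 x1 y1, rfl, rfl,
    Nat.min_le_left _ _, ?_, ?_, ?_, by simp [machine]⟩
  · rintro ⟨k1, k2⟩
    cases k1 <;> cases k2 <;> cases e <;> simp [cn, machine] <;> omega
  · intro k hk; exact False.elim hk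
  · rintro ⟨k1, k2⟩
    cases k1 <;> cases k2 <;> cases e <;> simp [cn, machine]

lemma step_loop_true (l : L.A) (m : L.Md) (e : Bool) (x0 y0 x1 y1 : ℕ) (u : List L.A) :
    L.machine.Step (.W l m true e, cn e x0 y0 x1 y1, u)
      (.W l m true e, cn e x0 y0 (x1 - L.p l) (y1 + L.q l), u) := by
  refine ⟨.loop l m true e, min (L.p l) x1, cn e x0 y0 (x1 - L.p l) y1, rfl, rfl,
    Nat.min_le_left _ _, ?_, ?_, ?_, by simp [machine]⟩
  · rintro ⟨k1, k2⟩
    cases k1 <;> cases k2 <;> cases e <;> simp [cn, machine] <;> omega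
  · intro k hk; exact False.elim hk
  · rintro ⟨k1, k2⟩
    cases k1 <;> cases k2 <;> cases e <;> simp [cn, machine]

lemma run_loop_false (l : L.A) (m : L.Md) (e : Bool) (y1 x1 : ℕ) (u : List L.A) :
    ∀ (x0 y0 : ℕ), ReflTransGen L.machine.Step (.W l m false e, cn e x0 y0 x1 y1, u)
      (.W l m false e, cn e 0 (y0 + L.q l * cdiv x0 (L.p l)) x1 y1, u) := by
  intro x0
  induction x0 using Nat.strong_induction_on with
  | _ x0 ih =>
    intro y0
    rcases Nat.eq_zero_or_pos x0 with h | h
    · subst h
      rw [cdiv_zero (L.hp l), Nat.mul_zero, Nat.add_zero]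
    · have s := L.step_loop_false l m e x0 y0 x1 y1 u
      have hlt : x0 - L.p l < x0 := by have := L.hp l; omega
      have r := ih (x0 - L.p l) hlt (y0 + L.q l)
      refine ReflTransGen.head s ?_
      rw [cdiv_pos_step (L.hp l) h]
      have : y0 + L.q l * (cdiv (x0 - L.p l) (L.p l) + 1) =
          y0 + L.q l + L.q l * cdiv (x0 - L.p l) (L.p l) := by ring
      rw [this]
      exact r

lemma run_loop_true (l : L.A) (m : L.Md) (e : Bool) (x0 y0 : ℕ) (u : List L.A) :
    ∀ (x1 y1 : ℕ), ReflTransGen L.machine.Step (.W l m true e, cn e x0 y0 x1 y1, u)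
      (.W l m true e, cn e x0 y0 0 (y1 + L.q l * cdiv x1 (L.p l)), u) := by
  intro x1
  induction x1 using Nat.strong_induction_on with
  | _ x1 ih =>
    intro y1
    rcases Nat.eq_zero_or_pos x1 with h | h
    · subst h
      rw [cdiv_zero (L.hp l), Nat.mul_zero, Nat.add_zero]
    · have s := L.step_loop_true l m e x0 y0 x1 y1 u
      have hlt : x1 - L.p l < x1 := by have := L.hp l; omega
      have r := ih (x1 - L.p l) hlt (y1 + L.q l)
      refine ReflTransGen.head s ?_
      rw [cdiv_pos_step (L.hp l) h]
      have : y1 + L.q l * (cdiv (x1 - L.p l) (L.p l) + 1) =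
          y1 + L.q l + L.q l * cdiv (x1 - L.p l) (L.p l) := by ring
      rw [this]
      exact r

lemma step_mid (l : L.A) (m : L.Md) (e : Bool) (y0 x1 y1 : ℕ) (u : List L.A) :
    L.machine.Step (.W l m false e, cn e 0 y0 x1 y1, u)
      (.W l m true e, cn e 0 (y0 + L.b l false) (x1 - L.a l true) y1, u) := by
  refine ⟨.mid l m e, min (L.a l true) x1, cn e 0 y0 (x1 - L.a l true) y1, rfl, rfl,
    Nat.min_le_left _ _, ?_, ?_, ?_, by simp [machine]⟩
  · rintro ⟨k1, k2⟩
    cases k1 <;> cases k2 <;> cases e <;> simp [cn, machine] <;> omega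
  · intro k hk
    have : k = (false, e) := hk
    subst this
    simp [cn]
  · rintro ⟨k1, k2⟩
    cases k1 <;> cases k2 <;> cases e <;> simp [cn, machine]

lemma step_done (l : L.A) (m : L.Md) (e : Bool) (y0 y1 : ℕ) (u : List L.A) :
    L.machine.Step (.W l m true e, cn e 0 y0 0 y1, u)
      (.R m (!e), cn (!e) y0 0 (y1 + L.b l true) 0, u) := by
  refine ⟨.done l m e, 0, cn e 0 y0 0 y1, rfl, rfl, le_refl _, ?_, ?_, ?_, by simp [machine]⟩
  · rintro ⟨k1, k2⟩
    cases k1 <;> cases k2 <;> cases e <;> simp [cn, machine]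
  · intro k hk
    have : k = (true, e) := hk
    subst this
    simp [cn]
  · rintro ⟨k1, k2⟩
    cases k1 <;> cases k2 <;> cases e <;> simp [cn, machine]

theorem run_word (w : List L.A) : ∀ m, L.md w = some m →
    ∃ e, ReflTransGen L.machine.Step (L.machine.q0, (fun _ => 0), [])
      (.R m e, cn e (L.val w false) 0 (L.val w true) 0, w) := by
  induction w using List.reverseRecOn with
  | nil =>
    intro m hm
    simp only [md, List.foldl_nil, Option.some.injEq] at hm
    subst hm
    refine ⟨false, ?_⟩
    have : cn false (L.val [] false) 0 (L.val [] true) 0 = fun _ => 0 := by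
      funext k
      simp [cn, val]
    rw [this]
    exact ReflTransGen.refl
  | append_singleton w l ih =>
    intro m' hm'
    rw [md_append] at hm'
    cases hmd : L.md w with
    | none => rw [hmd] at hm'; simp at hm'
    | some m =>
      rw [hmd] at hm'
      simp only [Option.bind_some] at hm'
      obtain ⟨e, hrun⟩ := ih m hmd
      refine ⟨!e, ?_⟩
      have s1 := L.step_read m e l m' hm' (L.val w false) 0 (L.val w true) 0 w
      have s2 := L.run_loop_false l m' e 0 (L.val w true) (w ++ [l])
        (L.val w false - L.a l false) 0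
      have s3 := L.step_mid l m' e (0 + L.q l * cdiv (L.val w false - L.a l false) (L.p l))
        (L.val w true) 0 (w ++ [l])
      have s4 := L.run_loop_true l m' e 0
        (0 + L.q l * cdiv (L.val w false - L.a l false) (L.p l) + L.b l false) (w ++ [l])
        (L.val w true - L.a l true) 0
      have s5 := L.step_done l m' e
        (0 + L.q l * cdiv (L.val w false - L.a l false) (L.p l) + L.b l false)
        (0 + L.q l * cdiv (L.val w true - L.a l true) (L.p l)) (w ++ [l])
      rw [val_append, val_append]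
      unfold f
      simp only [Nat.zero_add] at s2 s3 s4 s5
      exact (((hrun.tail s1).trans s2).tail s3 |>.trans s4).tail s5

theorem machine_complete {w : List L.A} {m : L.Md} (hm : m ∈ L.acc) (h : L.md w = some m)
    (hv : ∀ c, L.val w c = 0) : w ∈ L.machine.language := by
  obtain ⟨e, hrun⟩ := L.run_word w m h
  refine ⟨.R m e, ⟨m, hm, e, rfl⟩, ?_⟩
  have : cn e (L.val w false) 0 (L.val w true) 0 = fun _ => 0 := by
    funext k
    simp [cn, hv]
  rw [this] at hrun
  exact hrun

/-- The language of the simulating forbidding grammar. -/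
theorem mem_language_iff {w : List L.A} :
    w ∈ L.machine.grammar.language ↔
      (∃ m ∈ L.acc, L.md w = some m) ∧ ∀ c, L.val w c = 0 := by
  rw [Machine.grammar_language]
  constructor
  · exact L.machine_sound
  · rintro ⟨⟨m, hm, h⟩, hv⟩
    exact L.machine_complete hm h hv

end LetterMachine

end Pool.Agent.Helper79.Forb
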