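import Pool.Agent.Helper79.ForbDefs

set_option autoImplicit false

/-!
Counter machines whose decrements may fail to decrement, and their simulation by forbidding
grammars.
-/

namespace Pool.Agent.Helper79.Forb

open Relation

/-- A counter machine. A transition `τ` writes `out τ`, removes at most `amt τ` units from the
counter `dc τ`, then tests that the counters in `zero τ` vanish, and finally adds `ia τ` to the
counter `ic τ`. -/
structure Machine (T : Type) where
  Q : Type
  K : Type
  Tr : Type
  finQ : Finite Q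
  finK : Finite K
  finTr : Finite Tr
  src : Tr → Q
  dst : Tr → Q
  out : Tr → List T
  dc : Tr → K
  amt : Tr → ℕ
  zero : Tr → Set K
  ic : Tr → K
  ia : Tr → ℕ
  q0 : Q
  fin : Set Q

namespace Machine

variable {T : Type} (M : Machine T)

attribute [instance] Machine.finQ Machine.finK Machine.finTr

open Classical in
/-- The counter values after removing `t` units from counter `k0`. -/
noncomputable def sub1 (c : M.K → ℕ) (k0 : M.K) (t : ℕ) (c1 : M.K → ℕ) : Prop :=
  ∀ k, c k = c1 k + if k = k0 then t else 0

/-- Configurations: state, counters, output so far. -/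
abbrev Cfg := M.Q × (M.K → ℕ) × List T

open Classical in
/-- One step. -/
def Step (x y : M.Cfg) : Prop :=
  ∃ τ : M.Tr, ∃ t : ℕ, ∃ c1 : M.K → ℕ, x.1 = M.src τ ∧ y.1 = M.dst τ ∧ t ≤ M.amt τ ∧
    (∀ k, x.2.1 k = c1 k + if k = M.dc τ then t else 0) ∧
    (∀ k ∈ M.zero τ, c1 k = 0) ∧ (∀ k, y.2.1 k = c1 k + if k = M.ic τ then M.ia τ else 0) ∧
    y.2.2 = x.2.2 ++ M.out τ

/-- The language of the machine. -/
def language : Set (List T) :=
  {w | ∃ q ∈ M.fin, ReflTransGen M.Step (M.q0, (fun _ => 0), []) (q, (fun _ => 0), w)}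

/-- Nonterminals of the simulating grammar. -/
inductive NTm
  | st (q : M.Q)
  | gd (τ : M.Tr) (j : Fin (2 * M.amt τ + 1))
  | tok (k : M.K)
  | lock (k : M.K)

instance : Finite M.NTm := by
  let f : M.NTm → M.Q ⊕ ((τ : M.Tr) × Fin (2 * M.amt τ + 1)) ⊕ M.K ⊕ M.K := fun x =>
    match x with
    | .st q => Sum.inl q
    | .gd τ j => Sum.inr (Sum.inl ⟨τ, j⟩)
    | .tok k => Sum.inr (Sum.inr (Sum.inl k))
    | .lock k => Sum.inr (Sum.inr (Sum.inr k))
  apply Finite.of_injective f
  intro x y h
  cases x <;> cases y <;> simp [f] at h ⊢ <;> try exact h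

/-- Names of the rules. -/
abbrev RName := M.Tr ⊕ ((τ : M.Tr) × Fin (2 * M.amt τ)) ⊕ M.Tr ⊕ M.K ⊕ M.K ⊕ {q // q ∈ M.fin}

/-- The rules. -/
def ruleOf : M.RName → FRule T M.NTm
  | .inl τ => ⟨⟨.st (M.src τ), [.nonterminal (.gd τ 0)]⟩, ∅⟩
  | .inr (.inl ⟨τ, j⟩) => ⟨⟨.gd τ j.castSucc, [.nonterminal (.gd τ j.succ)]⟩, ∅⟩
  | .inr (.inr (.inl τ)) =>
      ⟨⟨.gd τ (Fin.last _), (M.out τ).map Symbol.terminal ++
        .nonterminal (.st (M.dst τ)) ::
          (List.replicate (M.ia τ) (M.ic τ)).map (fun k => .nonterminal (.tok k))⟩,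
        {x | (∃ k, x = .lock k) ∨ ∃ k ∈ M.zero τ, x = .tok k}⟩
  | .inr (.inr (.inr (.inl k))) =>
      ⟨⟨.tok k, [.nonterminal (.lock k)]⟩,
        {x | (∃ q, x = .st q) ∨ (∃ τ j, x = .gd τ j ∧
          ¬ (M.dc τ = k ∧ j.val % 2 = 0 ∧ j.val < 2 * M.amt τ)) ∨ x = .lock k}⟩
  | .inr (.inr (.inr (.inr (.inl k)))) =>
      ⟨⟨.lock k, []⟩,
        {x | (∃ q, x = .st q) ∨ (∃ τ j, x = .gd τ j ∧ j.val % 2 = 0)}⟩
  | .inr (.inr (.inr (.inr (.inr q)))) =>
      ⟨⟨.st q.1, []⟩, {x | (∃ k, x = .tok k) ∨ (∃ k, x = .lock k)}⟩

/-- The simulating grammar. -/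
def grammar : ForbiddingGrammar T where
  NT := M.NTm
  finite_NT := inferInstance
  initial := .st M.q0
  rules := Set.range M.ruleOf
  finite_rules := Set.finite_range _

/-- Derivation steps of the simulating grammar, spelled out. -/
def MProd (α β : List (Symbol T M.NTm)) : Prop :=
  ∃ n : M.RName, (∀ A ∈ (M.ruleOf n).forb, Symbol.nonterminal A ∉ α) ∧
    ∃ p s : List (Symbol T M.NTm), α = p ++ [Symbol.nonterminal (M.ruleOf n).rule.input] ++ s ∧
      β = p ++ (M.ruleOf n).rule.output ++ s

lemma produces_iff {α β : List (Symbol T M.NTm)} : M.grammar.Produces α β ↔ M.MProd α β := by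
  constructor
  · rintro ⟨r, ⟨n, rfl⟩, hforb, hrw⟩
    exact ⟨n, hforb, (ContextFreeRule.rewrites_iff (r := (M.ruleOf n).rule)).mp hrw⟩
  · rintro ⟨n, hforb, h⟩
    exact ⟨M.ruleOf n, ⟨n, rfl⟩, hforb, (ContextFreeRule.rewrites_iff (r := (M.ruleOf n).rule)).mpr h⟩

/-- The sentential form with terminal part `u`, writer `w` and tokens `ts`. -/
def form (u : List T) (w : M.NTm) (ts : List M.NTm) : List (Symbol T M.NTm) :=
  u.map Symbol.terminal ++ Symbol.nonterminal w :: ts.map Symbol.nonterminal

lemma mem_form {u : List T} {w : M.NTm} {ts : List M.NTm} {A : M.NTm} :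
    Symbol.nonterminal A ∈ M.form u w ts ↔ A = w ∨ A ∈ ts := by
  unfold form
  simp

lemma split_form {u : List T} {w : M.NTm} {ts : List M.NTm} {A : M.NTm}
    {p q : List (Symbol T M.NTm)}
    (h : M.form u w ts = p ++ [Symbol.nonterminal A] ++ q) :
    (A = w ∧ p = u.map Symbol.terminal ∧ q = ts.map Symbol.nonterminal) ∨
    ∃ ts1 ts2, ts = ts1 ++ A :: ts2 ∧
      p = u.map Symbol.terminal ++ Symbol.nonterminal w :: ts1.map Symbol.nonterminal ∧
      q = ts2.map Symbol.nonterminal := by
  induction u generalizing p with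
  | nil =>
    unfold form at h
    simp only [List.map_nil, List.nil_append] at h
    cases p with
    | nil =>
      simp only [List.nil_append, List.singleton_append, List.cons.injEq,
        Symbol.nonterminal.injEq] at h
      left
      exact ⟨h.1.symm, rfl, h.2.symm⟩
    | cons a p =>
      simp only [List.cons_append, List.cons.injEq] at h
      obtain ⟨h1, h2⟩ := h
      right
      rw [List.append_assoc] at h2
      obtain ⟨ts1, ts2, rfl, h3, h4⟩ := List.map_eq_append_iff.mp h2
      simp only [List.singleton_append] at h4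
      obtain ⟨b, ts3, rfl, h5, h6⟩ := List.map_eq_cons_iff.mp h4
      simp only [Symbol.nonterminal.injEq] at h5
      subst h5
      refine ⟨ts1, ts3, rfl, ?_, h6.symm⟩
      simp [h3, h1]
  | cons a u ih =>
    unfold form at h
    cases p with
    | nil =>
      simp at h
    | cons b p =>
      simp only [List.map_cons, List.cons_append, List.cons.injEq] at h
      obtain ⟨h1, h2⟩ := h
      have := ih (p := p) h2
      rcases this with ⟨h3, h4, h5⟩ | ⟨ts1, ts2, h3, h4, h5⟩
      · left
        exact ⟨h3, by simp [h4, h1], h5⟩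
      · right
        refine ⟨ts1, ts2, h3, ?_, h5⟩
        simp [h4, h1]

open Classical in
/-- The invariant of derivations of the simulating grammar. -/
def Inv (α : List (Symbol T M.NTm)) : Prop :=
  (∃ u q c ts, α = M.form u (.st q) ts ∧ (∀ x ∈ ts, ∃ k, x = .tok k) ∧
    (∀ k, c k = ts.count (.tok k)) ∧
    ReflTransGen M.Step (M.q0, (fun _ => 0), []) (q, c, u)) ∨
  (∃ u τ c ts t, ∃ j : Fin (2 * M.amt τ + 1), α = M.form u (.gd τ j) ts ∧
    (∀ x ∈ ts, (∃ k, x = .tok k) ∨ x = .lock (M.dc τ)) ∧
    (∀ k, c k = ts.count (.tok k) + if k = M.dc τ then t else 0) ∧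
    ts.count (.lock (M.dc τ)) ≤ 1 ∧
    (j.val % 2 = 0 → (ts.count (.lock (M.dc τ)) = 0 ∨ j.val = 2 * M.amt τ) → t ≤ j.val / 2) ∧
    (j.val % 2 = 0 → t ≤ j.val / 2 + 1) ∧ (j.val % 2 = 1 → t ≤ (j.val + 1) / 2) ∧
    ReflTransGen M.Step (M.q0, (fun _ => 0), []) (M.src τ, c, u)) ∨
  (∃ w, α = w.map Symbol.terminal ∧ w ∈ M.language)

lemma count_tok_map {k : M.K} (l : List M.K) [DecidableEq M.K] [DecidableEq M.NTm] :
    (l.map (NTm.tok (M := M))).count (.tok k) = l.count k := by
  rw [List.count_map_of_injective]
  intro a b h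
  injection h

open Classical in
lemma count_rep (k k0 : M.K) (n : ℕ) :
    (List.replicate n k0).count k = if k = k0 then n else 0 := by
  rw [List.count_replicate]
  by_cases h : k = k0
  · subst h; simp
  · have : ¬ (k0 = k) := fun h' => h h'.symm
    simp [h, this]

open Classical in
lemma inv_step {α β : List (Symbol T M.NTm)} (h : M.Inv α) (hp : M.MProd α β) :
    M.Inv β := by
  obtain ⟨n, hforb, p, s, hα, hβ⟩ := hp
  rcases h with ⟨u, q, c, ts, h1, h2, h3, h4⟩ | ⟨u, τ, c, ts, t, j, h1, h2, h3, h4, h5, h6, h7, h8⟩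
    | ⟨w, h1, h2⟩
  · -- writer is a state
    rw [h1] at hα
    have hsp := M.split_form hα
    match n, hforb, hsp, hβ with
    | .inl τ, hforb, hsp, hβ =>
      simp only [ruleOf] at hsp hβ
      rcases hsp with ⟨h5, h6, h7⟩ | ⟨ts1, ts2, h5, h6, h7⟩
      · right; left
        injection h5 with h5
        refine ⟨u, τ, c, ts, 0, 0, ?_, ?_, ?_, ?_, ?_, ?_, ?_, ?_⟩
        · rw [hβ, h6, h7]; simp [form]
        · intro x hx; left; exact h2 x hx
        · intro k; simp [h3 k]
        · have : ts.count (.lock (M.dc τ)) = 0 := by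
            apply List.count_eq_zero_of_not_mem
            intro hmem
            obtain ⟨k, hk⟩ := h2 _ hmem
            exact absurd hk (by simp)
          omega
        · simp
        · simp
        · simp
        · rw [h5]; exact h4
      · exfalso
        obtain ⟨k, hk⟩ := h2 (.st (M.src τ)) (by rw [h5]; simp)
        exact absurd hk (by simp)
    | .inr (.inl ⟨τ, j⟩), hforb, hsp, hβ =>
      simp only [ruleOf] at hsp hβ
      exfalso
      rcases hsp with ⟨h5, h6, h7⟩ | ⟨ts1, ts2, h5, h6, h7⟩
      · exact absurd h5 (by simp)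
      · obtain ⟨k, hk⟩ := h2 (.gd τ j.castSucc) (by rw [h5]; simp)
        exact absurd hk (by simp)
    | .inr (.inr (.inl τ)), hforb, hsp, hβ =>
      simp only [ruleOf] at hsp hβ
      exfalso
      rcases hsp with ⟨h5, h6, h7⟩ | ⟨ts1, ts2, h5, h6, h7⟩
      · exact absurd h5 (by simp)
      · obtain ⟨k, hk⟩ := h2 (.gd τ (Fin.last _)) (by rw [h5]; simp)
        exact absurd hk (by simp)
    | .inr (.inr (.inr (.inl k))), hforb, hsp, hβ =>
      simp only [ruleOf] at hsp hβ hforb
      exfalso
      apply hforb (.st q)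
      · left; exact ⟨q, rfl⟩
      · rw [h1, mem_form]; left; rfl
    | .inr (.inr (.inr (.inr (.inl k)))), hforb, hsp, hβ =>
      simp only [ruleOf] at hsp hβ
      exfalso
      rcases hsp with ⟨h5, h6, h7⟩ | ⟨ts1, ts2, h5, h6, h7⟩
      · exact absurd h5 (by simp)
      · obtain ⟨k, hk⟩ := h2 (.lock k) (by rw [h5]; simp)
        exact absurd hk (by simp)
    | .inr (.inr (.inr (.inr (.inr q')))), hforb, hsp, hβ =>
      simp only [ruleOf] at hsp hβ hforb
      rcases hsp with ⟨h5, h6, h7⟩ | ⟨ts1, ts2, h5, h6, h7⟩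
      · have hts : ts = [] := by
          cases ts with
          | nil => rfl
          | cons a l =>
            exfalso
            obtain ⟨k, hk⟩ := h2 a (by simp)
            apply hforb (.tok k)
            · left; exact ⟨k, rfl⟩
            · rw [h1, mem_form]; right; rw [hk]; simp
        right; right
        refine ⟨u, ?_, ?_⟩
        · rw [hβ, h6, h7, hts]; simp
        · injection h5 with h5
          refine ⟨q, ?_, ?_⟩
          · rw [← h5]; exact q'.2
          · have hc : c = fun _ => 0 := by
              funext k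
              rw [h3 k, hts]; simp
            rw [hc] at h4
            exact h4
      · exfalso
        obtain ⟨k, hk⟩ := h2 (.st q'.1) (by rw [h5]; simp)
        exact absurd hk (by simp)
  · -- writer is a gadget state
    rw [h1] at hα
    have hsp := M.split_form hα
    match n, hforb, hsp, hβ with
    | .inl τ', hforb, hsp, hβ =>
      simp only [ruleOf] at hsp hβ
      exfalso
      rcases hsp with ⟨h9, h10, h11⟩ | ⟨ts1, ts2, h9, h10, h11⟩
      · exact absurd h9 (by simp)
      · rcases h2 (.st (M.src τ')) (by rw [h9]; simp) with ⟨k, hk⟩ | hk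
        · exact absurd hk (by simp)
        · exact absurd hk (by simp)
    | .inr (.inl ⟨τ', j'⟩), hforb, hsp, hβ =>
      simp only [ruleOf] at hsp hβ
      rcases hsp with ⟨h9, h10, h11⟩ | ⟨ts1, ts2, h9, h10, h11⟩
      · injection h9 with h9 h12
        subst h9
        have h12' : j = j'.castSucc := (eq_of_heq h12).symm
        right; left
        refine ⟨u, τ', c, ts, t, j'.succ, ?_, h2, h3, h4, ?_, ?_, ?_, h8⟩
        · rw [hβ, h10, h11]; simp [form]
        · intro hev _
          have hjv : j.val = j'.val := by rw [h12']; simp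
          have : (j'.succ).val = j'.val + 1 := by simp
          rw [this] at hev ⊢
          have hodd : j.val % 2 = 1 := by omega
          have := h7 hodd
          omega
        · intro hev
          have hjv : j.val = j'.val := by rw [h12']; simp
          have : (j'.succ).val = j'.val + 1 := by simp
          rw [this] at hev ⊢
          have hodd : j.val % 2 = 1 := by omega
          have := h7 hodd
          omega
        · intro hev
          have hjv : j.val = j'.val := by rw [h12']; simp
          have : (j'.succ).val = j'.val + 1 := by simp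
          rw [this] at hev ⊢
          have hodd : j.val % 2 = 0 := by omega
          have := h6 hodd
          omega
      · exfalso
        rcases h2 (.gd τ' j'.castSucc) (by rw [h9]; simp) with ⟨k, hk⟩ | hk
        · exact absurd hk (by simp)
        · exact absurd hk (by simp)
    | .inr (.inr (.inl τ')), hforb, hsp, hβ =>
      simp only [ruleOf] at hsp hβ hforb
      rcases hsp with ⟨h9, h10, h11⟩ | ⟨ts1, ts2, h9, h10, h11⟩
      · injection h9 with h9 h12
        subst h9
        have h12' : j = Fin.last _ := (eq_of_heq h12).symm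
        have hjv : j.val = 2 * M.amt τ' := by rw [h12']; simp
        have hnolock : ∀ k, NTm.lock k ∉ ts := by
          intro k hk
          apply hforb (.lock k)
          · left; exact ⟨k, rfl⟩
          · rw [h1, mem_form]; right; exact hk
        have ht : t ≤ M.amt τ' := by
          have := h5 (by omega) (Or.inr hjv)
          omega
        left
        refine ⟨u ++ M.out τ', M.dst τ',
          fun k => ts.count (.tok k) + if k = M.ic τ' then M.ia τ' else 0,
          (List.replicate (M.ia τ') (M.ic τ')).map (NTm.tok (M := M)) ++ ts, ?_, ?_, ?_, ?_⟩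
        · rw [hβ, h10, h11]; simp [form]
        · intro x hx
          rw [List.mem_append] at hx
          rcases hx with hx | hx
          · obtain ⟨k, _, rfl⟩ := List.mem_map.mp hx
            exact ⟨k, rfl⟩
          · rcases h2 x hx with h13 | h13
            · exact h13
            · exfalso; rw [h13] at hx; exact hnolock _ hx
        · intro k
          rw [List.count_append, count_tok_map, add_comm, M.count_rep]
        · refine ReflTransGen.tail h8 ⟨τ', t, fun k => ts.count (.tok k), rfl, rfl, ht, h3, ?_, ?_, rfl⟩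
          · intro k hk
            apply List.count_eq_zero_of_not_mem
            intro hmem
            apply hforb (.tok k)
            · right; exact ⟨k, hk, rfl⟩
            · rw [h1, mem_form]; right; exact hmem
          · intro k; rfl
      · exfalso
        rcases h2 (.gd τ' (Fin.last _)) (by rw [h9]; simp) with ⟨k, hk⟩ | hk
        · exact absurd hk (by simp)
        · exact absurd hk (by simp)
    | .inr (.inr (.inr (.inl k))), hforb, hsp, hβ =>
      simp only [ruleOf] at hsp hβ hforb
      have hcond : M.dc τ = k ∧ j.val % 2 = 0 ∧ j.val < 2 * M.amt τ := by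
        by_contra hcon
        apply hforb (.gd τ j)
        · right; left; exact ⟨τ, j, rfl, hcon⟩
        · rw [h1, mem_form]; left; rfl
      obtain ⟨hk, hev, hlt⟩ := hcond
      have hnolock : NTm.lock k ∉ ts := by
        intro hmem
        apply hforb (.lock k)
        · right; right; rfl
        · rw [h1, mem_form]; right; exact hmem
      subst hk
      have hc0 : ts.count (.lock (M.dc τ)) = 0 := List.count_eq_zero_of_not_mem hnolock
      have ht := h5 hev (Or.inl hc0)
      rcases hsp with ⟨h9, h10, h11⟩ | ⟨ts1, ts2, h9, h10, h11⟩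
      · exact absurd h9 (by simp)
      · right; left
        refine ⟨u, τ, c, ts1 ++ NTm.lock (M.dc τ) :: ts2, t + 1, j, ?_, ?_, ?_, ?_, ?_, ?_, ?_,
          h8⟩
        · rw [hβ, h10, h11]; simp [form]
        · intro x hx
          rw [List.mem_append, List.mem_cons] at hx
          rcases hx with hx | hx | hx
          · exact h2 x (by rw [h9]; simp [hx])
          · right; exact hx
          · exact h2 x (by rw [h9]; simp [hx])
        · intro k
          rw [h3 k, h9]
          simp only [List.count_append, List.count_cons]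
          by_cases hkd : k = M.dc τ
          · subst hkd
            simp
            omega
          · have h13 : ¬ (NTm.tok (M.dc τ) = NTm.tok k) := by
              intro h14; injection h14 with h14; exact hkd h14.symm
            simp [hkd, h13]
        · rw [h9] at hc0
          simp only [List.count_append, List.count_cons] at hc0 ⊢
          simp at hc0 ⊢
          omega
        · intro _ hor
          exfalso
          rcases hor with hor | hor
          · simp at hor
          · omega
        · intro _; omega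
        · intro hodd; omega
    | .inr (.inr (.inr (.inr (.inl k)))), hforb, hsp, hβ =>
      simp only [ruleOf] at hsp hβ hforb
      have hodd : j.val % 2 = 1 := by
        by_contra hcon
        apply hforb (.gd τ j)
        · right; exact ⟨τ, j, rfl, by omega⟩
        · rw [h1, mem_form]; left; rfl
      rcases hsp with ⟨h9, h10, h11⟩ | ⟨ts1, ts2, h9, h10, h11⟩
      · exact absurd h9 (by simp)
      · have hk : k = M.dc τ := by
          rcases h2 (.lock k) (by rw [h9]; simp) with ⟨k', hk'⟩ | hk'
          · exact absurd hk' (by simp)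
          · injection hk'
        subst hk
        right; left
        refine ⟨u, τ, c, ts1 ++ ts2, t, j, ?_, ?_, ?_, ?_, ?_, ?_, h7, h8⟩
        · rw [hβ, h10, h11]; simp [form]
        · intro x hx
          rw [List.mem_append] at hx
          rcases hx with hx | hx
          · exact h2 x (by rw [h9]; simp [hx])
          · exact h2 x (by rw [h9]; simp [hx])
        · intro k
          rw [h3 k, h9]
          simp only [List.count_append, List.count_cons]
          simp
        · rw [h9] at h4
          simp only [List.count_append, List.count_cons] at h4 ⊢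
          simp at h4
          omega
        · intro hev; omega
        · intro hev; omega
    | .inr (.inr (.inr (.inr (.inr q')))), hforb, hsp, hβ =>
      simp only [ruleOf] at hsp hβ
      exfalso
      rcases hsp with ⟨h9, h10, h11⟩ | ⟨ts1, ts2, h9, h10, h11⟩
      · exact absurd h9 (by simp)
      · rcases h2 (.st q'.1) (by rw [h9]; simp) with ⟨k, hk⟩ | hk
        · exact absurd hk (by simp)
        · exact absurd hk (by simp)
  · exfalso
    rw [h1] at hα
    have : Symbol.nonterminal (M.ruleOf n).rule.input ∈ w.map (Symbol.terminal (N := M.NTm)) := by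
      rw [hα]; simp
    simp at this

lemma inv_init : M.Inv [Symbol.nonterminal (NTm.st M.q0)] := by
  left
  refine ⟨[], M.q0, fun _ => 0, [], ?_, ?_, ?_, ReflTransGen.refl⟩
  · simp [form]
  · intro x hx; simp at hx
  · intro k; simp

/-- Soundness of the simulation. -/
theorem grammar_sound : M.grammar.language ⊆ M.language := by
  intro w hw
  have hd : ReflTransGen M.MProd [Symbol.nonterminal (NTm.st M.q0)]
      (w.map Symbol.terminal) := by
    have hw' : ReflTransGen M.grammar.Produces [Symbol.nonterminal (NTm.st M.q0)]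
      (w.map Symbol.terminal) := hw
    exact ReflTransGen.mono (fun a b hab => M.produces_iff.mp hab) _ _ hw'
  have hinv : ∀ β, ReflTransGen M.MProd [Symbol.nonterminal (NTm.st M.q0)] β → M.Inv β := by
    intro β hβ
    induction hβ with
    | refl => exact M.inv_init
    | tail _ hstep ih => exact M.inv_step ih hstep
  have hnt : ∀ A : M.NTm, Symbol.nonterminal A ∉ w.map (Symbol.terminal (N := M.NTm)) := by
    intro A hA
    simp at hA
  rcases hinv _ hd with ⟨u, q, c, ts, h1, -⟩ | ⟨u, τ, c, ts, t, j, h1, -⟩ | ⟨w', h1, h2⟩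
  · exfalso
    apply hnt (.st q)
    rw [h1, mem_form]; left; rfl
  · exfalso
    apply hnt (.gd τ j)
    rw [h1, mem_form]; left; rfl
  · have : w = w' := by
      have hinj : Function.Injective (Symbol.terminal (T := T) (N := M.NTm)) := by
        intro a b h; injection h
      exact List.map_injective_iff.mpr hinj h1
    rw [this]; exact h2

/-! ### Completeness -/

lemma mprod_writer {n : M.RName} {u : List T} {w : M.NTm} {ts : List M.NTm}
    (hin : (M.ruleOf n).rule.input = w)
    (hf : ∀ A ∈ (M.ruleOf n).forb, A ≠ w ∧ A ∉ ts) :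
    M.MProd (M.form u w ts)
      (u.map Symbol.terminal ++ (M.ruleOf n).rule.output ++ ts.map Symbol.nonterminal) := by
  refine ⟨n, ?_, u.map Symbol.terminal, ts.map Symbol.nonterminal, ?_, rfl⟩
  · intro A hA
    rw [mem_form]
    rintro (h | h)
    · exact (hf A hA).1 h
    · exact (hf A hA).2 h
  · rw [hin]; simp [form]

lemma mprod_token {n : M.RName} {u : List T} {w : M.NTm} {ts1 ts2 : List M.NTm} {a : M.NTm}
    {b : List M.NTm}
    (hin : (M.ruleOf n).rule.input = a)
    (hout : (M.ruleOf n).rule.output = b.map Symbol.nonterminal)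
    (hf : ∀ A ∈ (M.ruleOf n).forb, A ≠ w ∧ A ∉ ts1 ++ a :: ts2) :
    M.MProd (M.form u w (ts1 ++ a :: ts2)) (M.form u w (ts1 ++ b ++ ts2)) := by
  refine ⟨n, ?_, u.map Symbol.terminal ++ Symbol.nonterminal w :: ts1.map Symbol.nonterminal,
    ts2.map Symbol.nonterminal, ?_, ?_⟩
  · intro A hA
    rw [mem_form]
    rintro (h | h)
    · exact (hf A hA).1 h
    · exact (hf A hA).2 h
  · rw [hin]; simp [form]
  · rw [hout]; simp [form]

/-- Plain token lists. -/
def toks (ks : List M.K) : List M.NTm := ks.map NTm.tok

lemma lock_not_mem_toks (ks : List M.K) (k : M.K) : NTm.lock k ∉ M.toks ks := by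
  unfold toks; simp

lemma st_not_mem_toks (ks : List M.K) (q : M.Q) : NTm.st q ∉ M.toks ks := by
  unfold toks; simp

lemma gd_not_mem_toks (ks : List M.K) (τ : M.Tr) (j) : NTm.gd τ j ∉ M.toks ks := by
  unfold toks; simp

lemma tok_mem_toks (ks : List M.K) (k : M.K) : NTm.tok k ∈ M.toks ks ↔ k ∈ ks := by
  unfold toks; simp

/-- Starting a transition. -/
lemma prod_start (u : List T) (τ : M.Tr) (ks : List M.K) :
    M.MProd (M.form u (.st (M.src τ)) (M.toks ks)) (M.form u (.gd τ 0) (M.toks ks)) := by
  have := M.mprod_writer (n := .inl τ) (u := u) (w := .st (M.src τ)) (ts := M.toks ks) rfl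
    (by intro A hA; exact absurd hA (by simp [ruleOf]))
  simpa [form, ruleOf] using this

/-- Advancing in a gadget. -/
lemma prod_adv (u : List T) (τ : M.Tr) (j : Fin (2 * M.amt τ)) (ts : List M.NTm) :
    M.MProd (M.form u (.gd τ j.castSucc) ts) (M.form u (.gd τ j.succ) ts) := by
  have := M.mprod_writer (n := .inr (.inl ⟨τ, j⟩)) (u := u) (w := .gd τ j.castSucc)
    (ts := ts) rfl (by intro A hA; exact absurd hA (by simp [ruleOf]))
  simpa [form, ruleOf] using this

/-- Locking a token. -/
lemma prod_lock (u : List T) (τ : M.Tr) (j : Fin (2 * M.amt τ + 1)) (hev : j.val % 2 = 0)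
    (hlt : j.val < 2 * M.amt τ) (ks1 ks2 : List M.K) :
    M.MProd (M.form u (.gd τ j) (M.toks (ks1 ++ M.dc τ :: ks2)))
      (M.form u (.gd τ j) (M.toks ks1 ++ [.lock (M.dc τ)] ++ M.toks ks2)) := by
  have h1 : M.toks (ks1 ++ M.dc τ :: ks2) = M.toks ks1 ++ .tok (M.dc τ) :: M.toks ks2 := by
    simp [toks]
  rw [h1]
  apply M.mprod_token (n := .inr (.inr (.inr (.inl (M.dc τ))))) rfl rfl
  intro A hA
  change _ ∧ A ∉ M.toks ks1 ++ NTm.tok (M.dc τ) :: M.toks ks2
  rw [← h1]
  rcases hA with ⟨q, rfl⟩ | ⟨τ', j', rfl, h⟩ | rfl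
  · exact ⟨by simp, M.st_not_mem_toks _ _⟩
  · refine ⟨?_, M.gd_not_mem_toks _ _ _⟩
    intro h2
    injection h2 with h2 h3
    subst h2
    have h3' := eq_of_heq h3
    subst h3'
    exact h ⟨rfl, hev, hlt⟩
  · exact ⟨by simp, M.lock_not_mem_toks _ _⟩

/-- Freeing a locked token. -/
lemma prod_free (u : List T) (τ : M.Tr) (j : Fin (2 * M.amt τ + 1)) (hodd : j.val % 2 = 1)
    (k : M.K) (ks1 ks2 : List M.K) :
    M.MProd (M.form u (.gd τ j) (M.toks ks1 ++ [.lock k] ++ M.toks ks2))
      (M.form u (.gd τ j) (M.toks (ks1 ++ ks2))) := by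
  have h1 : M.toks (ks1 ++ ks2) = M.toks ks1 ++ [] ++ M.toks ks2 := by
    simp [toks]
  rw [h1]
  have h2 : M.toks ks1 ++ [.lock k] ++ M.toks ks2 = M.toks ks1 ++ .lock k :: M.toks ks2 := by
    simp
  rw [h2]
  apply M.mprod_token (n := .inr (.inr (.inr (.inr (.inl k))))) rfl rfl
  intro A hA
  rcases hA with ⟨q, rfl⟩ | ⟨τ', j', rfl, h⟩
  · refine ⟨by simp, ?_⟩
    rw [List.mem_append, List.mem_cons]
    rintro (h | h | h)
    · exact M.st_not_mem_toks _ _ h
    · exact absurd h (by simp [ruleOf])
    · exact M.st_not_mem_toks _ _ h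
  · refine ⟨?_, ?_⟩
    · intro h2
      injection h2 with h2 h3
      subst h2
      have h3' := eq_of_heq h3
      subst h3'
      omega
    · rw [List.mem_append, List.mem_cons]
      rintro (h | h | h)
      · exact M.gd_not_mem_toks _ _ _ h
      · exact absurd h (by simp [ruleOf])
      · exact M.gd_not_mem_toks _ _ _ h

/-- Finishing a transition. -/
lemma prod_finish (u : List T) (τ : M.Tr) (ks : List M.K) (hz : ∀ k ∈ M.zero τ, k ∉ ks) :
    M.MProd (M.form u (.gd τ (Fin.last _)) (M.toks ks))
      (M.form (u ++ M.out τ) (.st (M.dst τ)) (M.toks (List.replicate (M.ia τ) (M.ic τ) ++ ks))) := by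
  have := M.mprod_writer (n := .inr (.inr (.inl τ))) (u := u) (w := .gd τ (Fin.last _))
    (ts := M.toks ks) rfl
    (by
      intro A hA
      rcases hA with ⟨k, rfl⟩ | ⟨k, hk, rfl⟩
      · exact ⟨by simp, M.lock_not_mem_toks _ _⟩
      · refine ⟨by simp, ?_⟩
        rw [tok_mem_toks]
        exact hz k hk)
  simpa [form, ruleOf, toks, Function.comp_def] using this

/-- Ending the derivation. -/
lemma prod_stop (u : List T) (q : M.Q) (hq : q ∈ M.fin) :
    M.MProd (M.form u (.st q) []) (u.map Symbol.terminal) := by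
  have := M.mprod_writer (n := .inr (.inr (.inr (.inr (.inr ⟨q, hq⟩))))) (u := u) (w := .st q)
    (ts := []) rfl
    (by
      intro A hA
      rcases hA with ⟨k, rfl⟩ | ⟨k, rfl⟩
      · exact ⟨by simp, by simp⟩
      · exact ⟨by simp, by simp⟩)
  simpa [form, ruleOf] using this

open Classical in
/-- Removing `t` tokens of the right kind while walking through the gadget. -/
lemma gadget_run (u : List T) (τ : M.Tr) :
    ∀ (m : ℕ) (hm : m ≤ M.amt τ) (t : ℕ) (_ : t ≤ m) (ks : List M.K)
      (_ : t ≤ ks.count (M.dc τ)),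
    ∃ ks' : List M.K, (∀ k, ks.count k = ks'.count k + if k = M.dc τ then t else 0) ∧
      ReflTransGen M.MProd (M.form u (.gd τ 0) (M.toks ks))
        (M.form u (.gd τ ⟨2 * m, by omega⟩) (M.toks ks')) := by
  intro m
  induction m with
  | zero =>
    intro hm t ht ks _
    have ht0 : t = 0 := by omega
    subst ht0
    exact ⟨ks, by intro k; simp, ReflTransGen.refl⟩
  | succ m ih =>
    intro hm t ht ks hks
    rcases Nat.lt_or_ge m t with hlt | hge
    · -- t = m + 1: remove t - 1 = m first, then one more
      obtain ⟨ks', h1, h2⟩ := ih (by omega) m (le_refl m) ks (by omega)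
      have htm : t = m + 1 := by omega
      have hc : 0 < ks'.count (M.dc τ) := by
        have := h1 (M.dc τ)
        simp at this
        omega
      have hmem : M.dc τ ∈ ks' := List.count_pos_iff.mp hc
      obtain ⟨a, b, hab⟩ := List.append_of_mem hmem
      subst hab
      refine ⟨a ++ b, ?_, ?_⟩
      · intro k
        rw [h1 k]
        simp only [List.count_append, List.count_cons]
        by_cases hk : k = M.dc τ
        · subst hk; simp; omega
        · have : ¬ (M.dc τ = k) := fun h => hk h.symm
          simp [hk, this]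
      · refine ReflTransGen.trans h2 ?_
        have s1 := M.prod_lock u τ ⟨2 * m, by omega⟩ (by simp) (by show 2 * m < 2 * M.amt τ; omega) a b
        have s2 := M.prod_adv u τ ⟨2 * m, by omega⟩
          (M.toks a ++ [.lock (M.dc τ)] ++ M.toks b)
        have s3 := M.prod_free u τ ⟨2 * m + 1, by omega⟩ (by show (2 * m + 1) % 2 = 1; omega) (M.dc τ) a b
        have s4 := M.prod_adv u τ ⟨2 * m + 1, by omega⟩ (M.toks (a ++ b))
        exact (((ReflTransGen.single s1).tail s2).tail s3).tail s4
    · obtain ⟨ks', h1, h2⟩ := ih (by omega) t (by omega) ks hks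
      refine ⟨ks', h1, ReflTransGen.trans h2 ?_⟩
      have s2 := M.prod_adv u τ ⟨2 * m, by omega⟩ (M.toks ks')
      have s4 := M.prod_adv u τ ⟨2 * m + 1, by omega⟩ (M.toks ks')
      exact (ReflTransGen.single s2).tail s4

open Classical in
lemma step_complete {x y : M.Cfg} (h : M.Step x y) (ks : List M.K)
    (hks : ∀ k, x.2.1 k = ks.count k) :
    ∃ ks' : List M.K, (∀ k, y.2.1 k = ks'.count k) ∧
      ReflTransGen M.MProd (M.form x.2.2 (.st x.1) (M.toks ks))
        (M.form y.2.2 (.st y.1) (M.toks ks')) := by
  obtain ⟨τ, t, c1, h1, h2, h3, h4, h5, h6, h7⟩ := h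
  have ht : t ≤ ks.count (M.dc τ) := by
    have := h4 (M.dc τ)
    rw [hks] at this
    simp at this
    omega
  obtain ⟨ks1, g1, g2⟩ := M.gadget_run x.2.2 τ (M.amt τ) (le_refl _) t h3 ks ht
  have hc1 : ∀ k, c1 k = ks1.count k := by
    intro k
    have e1 := h4 k
    have e2 := g1 k
    rw [hks k, e2] at e1
    omega
  refine ⟨List.replicate (M.ia τ) (M.ic τ) ++ ks1, ?_, ?_⟩
  · intro k
    rw [h6 k, List.count_append, hc1 k, add_comm, M.count_rep]
  · have s1 := M.prod_start x.2.2 τ ks
    rw [← h1] at s1
    have s2 : M.MProd (M.form x.2.2 (.gd τ (Fin.last _)) (M.toks ks1))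
      (M.form (x.2.2 ++ M.out τ) (.st (M.dst τ)) (M.toks (List.replicate (M.ia τ) (M.ic τ) ++ ks1))) := by
      apply M.prod_finish
      intro k hk hmem
      have := h5 k hk
      rw [hc1 k] at this
      exact absurd (List.count_pos_iff.mpr hmem) (by omega)
    rw [h7, h2]
    exact ((ReflTransGen.single s1).trans g2).tail s2

open Classical in
/-- Completeness of the simulation. -/
theorem grammar_complete : M.language ⊆ M.grammar.language := by
  rintro w ⟨q, hq, hrun⟩
  have key : ∀ y : M.Cfg, ReflTransGen M.Step (M.q0, (fun _ => 0), []) y →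
      ∃ ks' : List M.K, (∀ k, y.2.1 k = ks'.count k) ∧
        ReflTransGen M.MProd (M.form [] (.st M.q0) []) (M.form y.2.2 (.st y.1) (M.toks ks')) := by
    intro y hy
    induction hy with
    | refl => exact ⟨[], by intro k; simp, ReflTransGen.refl⟩
    | tail _ hstep ih =>
      obtain ⟨ks, h1, h2⟩ := ih
      obtain ⟨ks', h3, h4⟩ := M.step_complete hstep ks h1
      exact ⟨ks', h3, h2.trans h4⟩
  obtain ⟨ks', h1, h2⟩ := key _ hrun
  have hks : ks' = [] := by
    cases ks' with
    | nil => rfl
    | cons a l =>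
      exfalso
      have := h1 a
      simp at this
  subst hks
  have h3 := h2.tail (M.prod_stop w q hq)
  have h4 : ReflTransGen M.grammar.Produces (M.form [] (.st M.q0) []) (w.map Symbol.terminal) :=
    ReflTransGen.mono (fun a b hab => M.produces_iff.mpr hab) _ _ h3
  exact h4

theorem grammar_language : M.grammar.language = M.language :=
  Set.Subset.antisymm M.grammar_sound M.grammar_complete

end Machine

end Pool.Agent.Helper79.Forb
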