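import Pool.Agent.Helper79.ForbUniq

set_option autoImplicit false

/-!
Positions and digits of the words of numbers.
-/

namespace Pool.Agent.Helper79.Forb

/-- Class at a position. -/
def pc (n p : ℕ) : Fin 5 :=
  if p < n then 0 else if p < 2 * n then 1 else if p = 2 * n then 2 else
    if p < 3 * n + 1 then 3 else 4

/-- Digit at a position. -/
def pd (n v p : ℕ) : ℕ :=
  if p < n then v / 3 ^ n / 2 ^ (n - 1 - p) % 2 else
    if p < 2 * n then v / 3 ^ (2 * n - 1 - p) % 3 else if p = 2 * n then 0 else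
    if p < 3 * n + 1 then v / 2 ^ (p - (2 * n + 1)) % 2 else v / 2 ^ n / 3 ^ (p - (3 * n + 1)) % 3

/-- Letter at a position. -/
def letter (n v p : ℕ) : Tm := lt (pc n p) (pd n v p)

lemma letter_fst (n v p : ℕ) : (letter n v p).1 = pc n p := rfl

lemma pd_lt (n v p : ℕ) : pd n v p < 3 := by
  unfold pd
  split_ifs <;> omega

lemma letter_eq_iff {n v v' p : ℕ} : letter n v p = letter n v' p ↔ pd n v p = pd n v' p := by
  constructor
  · intro h
    have h1 : (letter n v p).2.val = (letter n v' p).2.val := by rw [h]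
    unfold letter at h1
    rw [lt_snd (pd_lt _ _ _), lt_snd (pd_lt _ _ _)] at h1
    exact h1
  · intro h
    unfold letter
    rw [h]

lemma word_length (n v : ℕ) : (word n v).length = 4 * n + 1 := by
  unfold word
  simp
  omega

lemma word_get {n v p : ℕ} (hp : p < 4 * n + 1) : (word n v)[p]? = some (letter n v p) := by
  unfold word letter pc pd
  rw [List.append_assoc]
  by_cases h1 : p < n
  · rw [List.getElem?_append_left (by simpa using h1)]
    simp [h1]
  · rw [List.getElem?_append_right (by simpa using h1)]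
    by_cases h2 : p < 2 * n
    · rw [List.getElem?_append_left (by simp; omega)]
      simp only [List.length_map, List.length_range, List.getElem?_map]
      rw [List.getElem?_range (by omega)]
      simp only [Option.map_some, if_neg h1, if_pos h2]
      have e : n - 1 - (p - n) = 2 * n - 1 - p := by omega
      rw [e]
    · rw [List.getElem?_append_right (by simp; omega)]
      simp only [List.length_map, List.length_range]
      by_cases h3 : p = 2 * n
      · subst h3
        have e : 2 * n - n - n = 0 := by omega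
        rw [e]
        simp [h1]
      · obtain ⟨q, hq⟩ : ∃ q, p - n - n = q + 1 := ⟨p - n - n - 1, by omega⟩
        rw [hq, List.getElem?_cons_succ]
        by_cases h4 : p < 3 * n + 1
        · rw [List.getElem?_append_left (by simp; omega)]
          simp only [List.getElem?_map]
          rw [List.getElem?_range (by omega)]
          simp only [Option.map_some, if_neg h1, if_neg h2, if_neg h3, if_pos h4]
          have e : q = p - (2 * n + 1) := by omega
          rw [e]
        · rw [List.getElem?_append_right (by simp; omega)]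
          simp only [List.length_map, List.length_range, List.getElem?_map]
          rw [List.getElem?_range (by omega)]
          simp only [Option.map_some, if_neg h1, if_neg h2, if_neg h3, if_neg h4]
          have e : q - n = p - (3 * n + 1) := by omega
          rw [e]

/-- The word of a number as a list of letters. -/
lemma word_eq (n v : ℕ) : word n v = (List.range (4 * n + 1)).map (letter n v) := by
  apply List.ext_getElem?
  intro p
  by_cases hp : p < 4 * n + 1
  · rw [word_get hp, List.getElem?_map, List.getElem?_range hp]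
    rfl
  · rw [List.getElem?_eq_none (by rw [word_length]; omega),
      List.getElem?_eq_none (by simp; omega)]

lemma word_map_fst (n v : ℕ) : (word n v).map Prod.fst = (List.range (4 * n + 1)).map (pc n) := by
  rw [word_eq, List.map_map]
  rfl

lemma cls_word (n v : ℕ) (j : Fin 5) (hj : j ≠ 2) : cls (word n v) j = n := by
  unfold cls word
  have key : ∀ (k : Fin 5) (g : ℕ → ℕ), ((List.range n).map (fun p => lt k (g p))).map Prod.fst =
      List.replicate n k := by
    intro k g
    rw [List.map_map, List.eq_replicate_iff]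
    refine ⟨by simp, ?_⟩
    intro b hb
    simp only [List.mem_map] at hb
    obtain ⟨a, _, rfl⟩ := hb
    rfl
  simp only [List.map_append, List.map_cons, key, List.count_append, List.count_cons,
    List.count_replicate]
  have : (lt 2 0).1 = 2 := rfl
  rw [this]
  fin_cases j
  · simp
  · simp
  · exact absurd rfl hj
  · simp
  · simp

/-! ### Digits -/

lemma mod_eq_of_digits {r v v' : ℕ} (k : ℕ) (h : ∀ i < k, v / r ^ i % r = v' / r ^ i % r) :
    v % r ^ k = v' % r ^ k := by
  induction k with
  | zero => simp [Nat.mod_one]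
  | succ k ih =>
    rw [Nat.mod_pow_succ, Nat.mod_pow_succ, ih (fun i hi => h i (by omega)), h k (by omega)]

lemma digit_of_mod {r v v' K i m : ℕ} (hm : K * r ^ (i + 1) ∣ m) (h : v % m = v' % m) :
    v / K / r ^ i % r = v' / K / r ^ i % r := by
  have key : ∀ u : ℕ, u / K / r ^ i % r = (u % m) / K / r ^ i % r := by
    intro u
    obtain ⟨t, rfl⟩ := hm
    rw [Nat.div_div_eq_div_mul, Nat.div_div_eq_div_mul, Nat.pow_succ, ← Nat.mul_assoc,
      Nat.mul_assoc (K * r ^ i) r t, Nat.mod_mul_right_div_self, Nat.mod_mod_of_dvd]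
    exact Nat.dvd_mul_right r t
  rw [key v, key v', h]

lemma six_pow (n : ℕ) : (6 : ℕ) ^ n = 2 ^ n * 3 ^ n := by
  rw [← Nat.mul_pow]

lemma div3_lt {n v : ℕ} (hv : v < 6 ^ n) : v / 3 ^ n < 2 ^ n := by
  rw [Nat.div_lt_iff_lt_mul (by positivity), ← six_pow]; exact hv

lemma div2_lt {n v : ℕ} (hv : v < 6 ^ n) : v / 2 ^ n < 3 ^ n := by
  rw [Nat.div_lt_iff_lt_mul (by positivity), Nat.mul_comm, ← six_pow]; exact hv

lemma eq_of_div_mod {v v' m : ℕ} (h1 : v / m = v' / m) (h2 : v % m = v' % m) : v = v' := by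
  rw [← Nat.div_add_mod v m, ← Nat.div_add_mod v' m, h1, h2]

/-- Digits of the four blocks by position. -/
lemma pd_x0 {n v i : ℕ} (hi : i < n) : pd n v (n - 1 - i) = v / 3 ^ n / 2 ^ i % 2 := by
  unfold pd
  rw [if_pos (by omega)]
  congr 3
  omega

lemma pd_x1 {n v i : ℕ} (hi : i < n) : pd n v (2 * n - 1 - i) = v / 3 ^ i % 3 := by
  unfold pd
  rw [if_neg (by omega), if_pos (by omega)]
  congr 3
  omega

lemma pd_y3 {n v i : ℕ} (hi : i < n) : pd n v (2 * n + 1 + i) = v / 2 ^ i % 2 := by
  unfold pd
  rw [if_neg (by omega), if_neg (by omega), if_neg (by omega), if_pos (by omega)]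
  congr 3
  omega

lemma pd_y4 {n v i : ℕ} (hi : i < n) : pd n v (3 * n + 1 + i) = v / 2 ^ n / 3 ^ i % 3 := by
  unfold pd
  rw [if_neg (by omega), if_neg (by omega), if_neg (by omega), if_neg (by omega)]
  congr 3
  omega

lemma xdet {n v v' : ℕ} (hv : v < 6 ^ n) (hv' : v' < 6 ^ n)
    (h : ∀ p < 2 * n, pd n v p = pd n v' p) : v = v' := by
  have h1 : v % 3 ^ n = v' % 3 ^ n := by
    apply mod_eq_of_digits
    intro i hi
    rw [← pd_x1 hi, ← pd_x1 hi]
    exact h _ (by omega)
  have h2 : v / 3 ^ n = v' / 3 ^ n := by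
    have : (v / 3 ^ n) % 2 ^ n = (v' / 3 ^ n) % 2 ^ n := by
      apply mod_eq_of_digits
      intro i hi
      rw [← pd_x0 hi, ← pd_x0 hi]
      exact h _ (by omega)
    rwa [Nat.mod_eq_of_lt (div3_lt hv), Nat.mod_eq_of_lt (div3_lt hv')] at this
  exact eq_of_div_mod h2 h1

lemma ydet {n v v' : ℕ} (hv : v < 6 ^ n) (hv' : v' < 6 ^ n)
    (h : ∀ p, 2 * n < p → p < 4 * n + 1 → pd n v p = pd n v' p) : v = v' := by
  have h1 : v % 2 ^ n = v' % 2 ^ n := by
    apply mod_eq_of_digits
    intro i hi
    rw [← pd_y3 hi, ← pd_y3 hi]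
    exact h _ (by omega) (by omega)
  have h2 : v / 2 ^ n = v' / 2 ^ n := by
    have : (v / 2 ^ n) % 3 ^ n = (v' / 2 ^ n) % 3 ^ n := by
      apply mod_eq_of_digits
      intro i hi
      rw [← pd_y4 hi, ← pd_y4 hi]
      exact h _ (by omega) (by omega)
    rwa [Nat.mod_eq_of_lt (div2_lt hv), Nat.mod_eq_of_lt (div2_lt hv')] at this
  exact eq_of_div_mod h2 h1

/-- Outside of a window of binary digits, the right part depends only on the two ends. -/
lemma youtside {n v v' a L : ℕ} (haL : a + L ≤ n) (h1 : v % 2 ^ a = v' % 2 ^ a)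
    (h2 : v / 2 ^ (a + L) = v' / 2 ^ (a + L)) (p : ℕ) (hp : 2 * n < p)
    (hp2 : ¬ (2 * n + 1 + a ≤ p ∧ p < 2 * n + 1 + (a + L))) (hp3 : p < 4 * n + 1) :
    pd n v p = pd n v' p := by
  by_cases c1 : p < 2 * n + 1 + a
  · obtain ⟨i, rfl⟩ : ∃ i, p = 2 * n + 1 + i := ⟨p - (2 * n + 1), by omega⟩
    rw [pd_y3 (by omega), pd_y3 (by omega)]
    have := digit_of_mod (r := 2) (K := 1) (i := i) (m := 2 ^ a)
      (by rw [Nat.one_mul]; exact Nat.pow_dvd_pow 2 (by omega)) h1
    rwa [Nat.div_one, Nat.div_one] at this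
  · by_cases c2 : p < 3 * n + 1
    · obtain ⟨i, rfl⟩ : ∃ i, p = 2 * n + 1 + (a + L + i) := ⟨p - (2 * n + 1) - (a + L), by omega⟩
      rw [pd_y3 (by omega), pd_y3 (by omega), Nat.pow_add _ (a + L) i, ← Nat.div_div_eq_div_mul,
        ← Nat.div_div_eq_div_mul, h2]
    · obtain ⟨i, rfl⟩ : ∃ i, p = 3 * n + 1 + i := ⟨p - (3 * n + 1), by omega⟩
      rw [pd_y4 (by omega), pd_y4 (by omega)]
      have e : n = (a + L) + (n - (a + L)) := by omega
      have e2 : ∀ u : ℕ, u / 2 ^ n = u / 2 ^ (a + L) / 2 ^ (n - (a + L)) := by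
        intro u
        rw [Nat.div_div_eq_div_mul, ← Nat.pow_add, ← e]
      rw [e2 v, e2 v', h2]

end Pool.Agent.Helper79.Forb
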