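import Pool.Agent.Helper79.ForbGood
import Pool.Agent.Helper79.ForbDec

set_option autoImplicit false

/-!
Rigidity: equal nonterminals of a sentential form have short and nearby or equal targets.
-/

namespace Pool.Agent.Helper79.Forb

open Relation

/-- Swapping two factors of the word of a number cannot give the word of another number. -/
lemma swap_rigid {n v v' : ℕ} {P x M y Q : List Tm} (hx : x ≠ []) (hy : y ≠ [])
    (hv : v < 6 ^ n) (hv' : v' < 6 ^ n)
    (h : word n v = P ++ (x ++ (M ++ (y ++ Q)))) (h' : word n v' = P ++ (y ++ (M ++ (x ++ Q)))) :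
    v = v' := by
  have hX : 0 < x.length := List.length_pos_of_ne_nil hx
  have hY : 0 < y.length := List.length_pos_of_ne_nil hy
  have hlen : P.length + (x.length + (M.length + (y.length + Q.length))) = 4 * n + 1 := by
    rw [← word_length n v, h]; simp
  -- first letter of the first slot
  have c1 : pc n P.length = pc n (P.length + x.length + M.length) := by
    have e1 : (word n v')[P.length]? = y[0]? := by
      rw [h', List.getElem?_append_right (le_refl _), Nat.sub_self,
        List.getElem?_append_left hY]
    have e2 : (word n v)[P.length + x.length + M.length]? = y[0]? := by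
      rw [h, List.getElem?_append_right (by omega), List.getElem?_append_right (by omega),
        List.getElem?_append_right (by omega), List.getElem?_append_left (by omega)]
      congr 1
      omega
    rw [← e2, word_get (by omega), word_get (by omega)] at e1
    exact congrArg Prod.fst (Option.some.inj e1)
  -- last letter of the second slot
  have c2 : pc n (P.length + y.length + M.length + x.length - 1) = pc n (P.length + x.length - 1) := by
    have e1 : (word n v')[P.length + y.length + M.length + x.length - 1]? = x[x.length - 1]? := by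
      rw [h', List.getElem?_append_right (by omega), List.getElem?_append_right (by omega),
        List.getElem?_append_right (by omega), List.getElem?_append_left (by omega)]
      congr 1
      omega
    have e2 : (word n v)[P.length + x.length - 1]? = x[x.length - 1]? := by
      rw [h, List.getElem?_append_right (by omega), List.getElem?_append_left (by omega)]
      congr 1
      omega
    rw [← e2, word_get (by omega), word_get (by omega)] at e1
    exact congrArg Prod.fst (Option.some.inj e1)
  have hcase : 2 * n < P.length ∨ P.length + x.length + M.length + y.length ≤ 2 * n := by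
    by_contra hcon
    push Not at hcon
    obtain ⟨g1, g2⟩ := hcon
    have g3 : P.length + x.length + M.length ≤ 2 * n := by
      by_contra g4
      push Not at g4
      unfold pc at c1
      split_ifs at c1 <;> omega
    unfold pc at c2
    split_ifs at c2 <;> omega
  rcases hcase with hc | hc
  · apply xdet hv hv'
    intro p hp
    rw [← letter_eq_iff]
    have e1 : (word n v)[p]? = (word n v')[p]? := by
      rw [h, h', List.getElem?_append_left (by omega), List.getElem?_append_left (by omega)]
    rw [word_get (by omega), word_get (by omega)] at e1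
    exact Option.some.inj e1
  · apply ydet hv hv'
    intro p hp hp2
    rw [← letter_eq_iff]
    have e1 : (word n v)[p]? = (word n v')[p]? := by
      rw [h, h']
      rw [List.getElem?_append_right (by omega), List.getElem?_append_right (by omega),
        List.getElem?_append_right (by omega), List.getElem?_append_right (by omega)]
      rw [List.getElem?_append_right (by omega), List.getElem?_append_right (by omega),
        List.getElem?_append_right (by omega), List.getElem?_append_right (by omega)]
      congr 1
      omega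
    rw [word_get (by omega), word_get (by omega)] at e1
    exact Option.some.inj e1

lemma short_of_swap {n l v : ℕ} {P x M y Q : List Tm} (hg : Good n l v) (hl : 0 < l)
    (hx : x ≠ []) (hy : y ≠ [])
    (h : word n v = P ++ (x ++ (M ++ (y ++ Q)))) (h' : word n v = P ++ (y ++ (M ++ (x ++ Q)))) :
    x.length < l ∧ y.length < l ∧ (x ≠ y → M.length < l) := by
  have hX : 0 < x.length := List.length_pos_of_ne_nil hx
  have hY : 0 < y.length := List.length_pos_of_ne_nil hy
  refine ⟨?_, ?_, ?_⟩
  · by_contra hcon
    push Not at hcon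
    have := no_repeat' hg hl (P1 := P) (P2 := P ++ (y ++ M)) (u := x) (Q1 := M ++ (y ++ Q))
      (Q2 := Q) (by rw [h]; simp) (by rw [h']; simp) hcon
    simp only [List.length_append] at this
    omega
  · by_contra hcon
    push Not at hcon
    have := no_repeat' hg hl (P1 := P) (P2 := P ++ (x ++ M)) (u := y) (Q1 := M ++ (x ++ Q))
      (Q2 := Q) (by rw [h']; simp) (by rw [h]; simp) hcon
    simp only [List.length_append] at this
    omega
  · intro hxy
    by_contra hcon
    push Not at hcon
    have h1 := no_repeat' hg hl (P1 := P ++ x) (P2 := P ++ y) (u := M) (Q1 := y ++ Q)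
      (Q2 := x ++ Q) (by rw [h]; simp) (by rw [h']; simp) hcon
    simp at h1
    rw [h] at h'
    have h2 := List.append_cancel_left h'
    have h3 := List.append_inj_left h2 h1
    exact hxy h3

namespace ForbiddingGrammar

/-- The propagating grammar generates the language up to the empty word. -/
def Gen (g : ForbiddingGrammar Tm) : Prop := ∀ w : List Tm, w ≠ [] → (w ∈ g.language ↔ w ∈ Lang)

variable {g : ForbiddingGrammar Tm}

lemma mem_language_of_dec {I : List g.Item}
    (hr : g.Derives [Symbol.nonterminal g.initial] (I.map Prod.fst)) (hd : g.Dec ↑I) :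
    flat I ∈ g.language := ReflTransGen.trans hr (dec_lower hd I rfl)

/-- A decomposition of a derivation of the word of `v`. -/
structure IsDec (g : ForbiddingGrammar Tm) (n v : ℕ) (I : List g.Item) : Prop where
  reach : g.Derives [Symbol.nonterminal g.initial] (I.map Prod.fst)
  dec : g.Dec ↑I
  flat_eq : flat I = word n v
  lt : v < 6 ^ n

lemma IsDec.ne_nil (hg : g.IsPropagating) {n v : ℕ} {I : List g.Item} (h : IsDec g n v I) :
    ∀ it ∈ I, it.2 ≠ [] := fun it hit => dec_nonempty hg h.dec it (by simpa using hit)

/-- A word generated by the grammar with the classes of a word of a number is such a word. -/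
lemma gen_word (hL : Gen g) {n : ℕ} {u : List Tm} (hu : u ∈ g.language)
    (hc : ∀ j : Fin 5, j ≠ 2 → cls u j = n) (hne : u ≠ []) : ∃ v < 6 ^ n, u = word n v := by
  exact lang_uniq ((hL u hne).mp hu) n (hc 0 (by decide)) (hc 1 (by decide)) (hc 3 (by decide))
    (hc 4 (by decide))

/-- Swapping the targets of two equal nonterminals does not change the word. -/
lemma IsDec.swap (hg : g.IsPropagating) (hL : Gen g) {n v : ℕ} {I : List g.Item}
    (h : IsDec g n v I) {I1 I2 I3 : List g.Item} {X : Symbol Tm g.NT} {x y : List Tm}
    (hI : I = I1 ++ (X, x) :: (I2 ++ (X, y) :: I3)) :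
    word n v = ForbiddingGrammar.flat I1 ++ (x ++ (ForbiddingGrammar.flat I2 ++
      (y ++ ForbiddingGrammar.flat I3))) ∧
    word n v = ForbiddingGrammar.flat I1 ++ (y ++ (ForbiddingGrammar.flat I2 ++
      (x ++ ForbiddingGrammar.flat I3))) := by
  have e1 : word n v = ForbiddingGrammar.flat I1 ++ (x ++ (ForbiddingGrammar.flat I2 ++
      (y ++ ForbiddingGrammar.flat I3))) := by
    rw [← h.flat_eq, hI]; simp
  refine ⟨e1, ?_⟩
  have hx : x ≠ [] := h.ne_nil hg (X, x) (by rw [hI]; simp)
  have hy : y ≠ [] := h.ne_nil hg (X, y) (by rw [hI]; simp)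
  let J : List g.Item := I1 ++ (X, y) :: (I2 ++ (X, x) :: I3)
  have hJI : J.Perm I := by
    rw [hI]
    refine List.Perm.append_left I1 ?_
    have p1 : ((X, y) :: (I2 ++ (X, x) :: I3)).Perm ((X, y) :: (X, x) :: (I2 ++ I3)) :=
      List.Perm.cons _ List.perm_middle
    have p2 : ((X, x) :: (I2 ++ (X, y) :: I3)).Perm ((X, x) :: (X, y) :: (I2 ++ I3)) :=
      List.Perm.cons _ List.perm_middle
    exact p1.trans ((List.Perm.swap _ _ _).trans p2.symm)
  have hJdec : g.Dec ↑J := by
    rw [Multiset.coe_eq_coe.mpr hJI]; exact h.dec
  have hJmap : J.map Prod.fst = I.map Prod.fst := by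
    rw [hI]; simp [J]
  have hJmem : ForbiddingGrammar.flat J ∈ g.language :=
    mem_language_of_dec (by rw [hJmap]; exact h.reach) hJdec
  have hJflat : ForbiddingGrammar.flat J = ForbiddingGrammar.flat I1 ++
      (y ++ (ForbiddingGrammar.flat I2 ++ (x ++ ForbiddingGrammar.flat I3))) := by
    simp [J]
  have hperm : (ForbiddingGrammar.flat J).Perm (word n v) := by
    rw [← h.flat_eq]
    exact List.Perm.flatMap_right _ hJI
  have hcls : ∀ j : Fin 5, j ≠ 2 → cls (ForbiddingGrammar.flat J) j = n := by
    intro j hj
    rw [← cls_word n v j hj]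
    unfold cls
    exact (hperm.map Prod.fst).count_eq j
  have hne : ForbiddingGrammar.flat J ≠ [] := by
    intro h0
    have := hperm.length_eq
    rw [h0, word_length] at this
    simp at this
  obtain ⟨v', hv', hw⟩ := gen_word hL hJmem hcls hne
  rw [hJflat] at hw
  have hvv : v = v' := swap_rigid hx hy h.lt hv' e1 hw.symm
  rw [hvv]
  exact hw.symm

open Classical in
/-- Targets of the items of a given nonterminal. -/
noncomputable def tg (A : g.NT) (I : List g.Item) : List (List Tm) :=
  (I.filter (fun it => decide (it.1 = Symbol.nonterminal A))).map Prod.snd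

lemma tg_append (A : g.NT) (I J : List g.Item) : tg A (I ++ J) = tg A I ++ tg A J := by
  unfold tg; simp

lemma tg_cons_pos (A : g.NT) (x : List Tm) (I : List g.Item) :
    tg A ((Symbol.nonterminal A, x) :: I) = x :: tg A I := by
  unfold tg
  rw [List.filter_cons_of_pos (by simp)]
  rfl

lemma tg_cons_neg (A : g.NT) (it : g.Item) (I : List g.Item) (h : it.1 ≠ Symbol.nonterminal A) :
    tg A (it :: I) = tg A I := by
  unfold tg
  rw [List.filter_cons_of_neg (by simp [h])]

lemma tg_split {A : g.NT} {I : List g.Item} : ∀ {Z1 Z2 : List (List Tm)} {x : List Tm},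
    tg A I = Z1 ++ x :: Z2 → ∃ I1 I2, I = I1 ++ (Symbol.nonterminal A, x) :: I2 ∧
      tg A I1 = Z1 ∧ tg A I2 = Z2 := by
  induction I with
  | nil =>
    intro Z1 Z2 x h
    simp [tg] at h
  | cons it I ih =>
    intro Z1 Z2 x h
    by_cases hit : it.1 = Symbol.nonterminal A
    · obtain ⟨X, z⟩ := it
      simp only at hit
      subst hit
      rw [tg_cons_pos] at h
      cases Z1 with
      | nil =>
        simp only [List.nil_append, List.cons.injEq] at h
        obtain ⟨rfl, h2⟩ := h
        exact ⟨[], I, rfl, rfl, h2⟩
      | cons z1 Z1 =>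
        simp only [List.cons_append, List.cons.injEq] at h
        obtain ⟨rfl, h2⟩ := h
        obtain ⟨I1, I2, rfl, h3, h4⟩ := ih h2
        exact ⟨(Symbol.nonterminal A, z) :: I1, I2, rfl, by rw [tg_cons_pos, h3], h4⟩
    · rw [tg_cons_neg _ _ _ hit] at h
      obtain ⟨I1, I2, rfl, h3, h4⟩ := ih h
      exact ⟨it :: I1, I2, rfl, by rw [tg_cons_neg _ _ _ hit, h3], h4⟩

lemma tg_length_le (A : g.NT) {I : List g.Item}
    (h : ∀ it ∈ I, it.2 ≠ []) : (tg A I).length ≤ (ForbiddingGrammar.flat I).length := by
  induction I with
  | nil => simp [tg]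
  | cons it I ih =>
    have ih' := ih (fun x hx => h x (by simp [hx]))
    have h1 : 0 < it.2.length := List.length_pos_of_ne_nil (h it (by simp))
    by_cases hit : it.1 = Symbol.nonterminal A
    · obtain ⟨X, z⟩ := it
      simp only at hit
      subst hit
      rw [tg_cons_pos]
      simp only [List.length_cons, flat_cons, List.length_append] at *
      omega
    · rw [tg_cons_neg _ _ _ hit]
      simp only [flat_cons, List.length_append]
      omega

/-- Two targets of the same nonterminal. -/
lemma IsDec.pair (hg : g.IsPropagating) (hL : Gen g) {n l v : ℕ} (hl : 0 < l) (hgood : Good n l v)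
    {I : List g.Item} (h : IsDec g n v I) {A : g.NT} {Z1 Z2 Z3 : List (List Tm)} {x y : List Tm}
    (hZ : tg A I = Z1 ++ x :: (Z2 ++ y :: Z3)) :
    x.length < l ∧ y.length < l ∧ (x ≠ y → Z2.length < l) := by
  obtain ⟨I1, I2, hI, h1, h2⟩ := tg_split hZ
  obtain ⟨I3, I4, hI2, h3, h4⟩ := tg_split h2
  rw [hI2] at hI
  obtain ⟨e1, e2⟩ := h.swap hg hL hI
  have hx : x ≠ [] := h.ne_nil hg (Symbol.nonterminal A, x) (by rw [hI]; simp)
  have hy : y ≠ [] := h.ne_nil hg (Symbol.nonterminal A, y) (by rw [hI]; simp)
  obtain ⟨s1, s2, s3⟩ := short_of_swap hgood hl hx hy e1 e2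
  refine ⟨s1, s2, ?_⟩
  intro hxy
  have := s3 hxy
  have h5 : (tg A I3).length ≤ (ForbiddingGrammar.flat I3).length := by
    apply tg_length_le
    intro it hit
    exact h.ne_nil hg it (by rw [hI]; simp [hit])
  rw [h3] at h5
  omega

/-- A long target is the only target of its nonterminal. -/
lemma IsDec.long_unique (hg : g.IsPropagating) (hL : Gen g) {n l v : ℕ} (hl : 0 < l)
    (hgood : Good n l v) {I : List g.Item} (h : IsDec g n v I) {A : g.NT} {z : List Tm}
    (hz : z ∈ tg A I) (hlong : l ≤ z.length) : tg A I = [z] := by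
  obtain ⟨Z1, Z2, hZ⟩ := List.append_of_mem hz
  have h1 : Z1 = [] := by
    by_contra hcon
    obtain ⟨Z1', x, rfl⟩ : ∃ Z1' x, Z1 = Z1' ++ [x] :=
      ⟨Z1.dropLast, Z1.getLast hcon, (List.dropLast_append_getLast hcon).symm⟩
    have := h.pair hg hL hl hgood (A := A) (Z1 := Z1') (Z2 := []) (Z3 := Z2) (x := x) (y := z)
      (by rw [hZ]; simp)
    omega
  have h2 : Z2 = [] := by
    by_contra hcon
    obtain ⟨x, Z2', rfl⟩ := List.exists_cons_of_ne_nil hcon
    have := h.pair hg hL hl hgood (A := A) (Z1 := Z1) (Z2 := []) (Z3 := Z2') (x := z) (y := x)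
      (by rw [hZ]; simp)
    omega
  rw [hZ, h1, h2]
  rfl

lemma split_two {α : Type} (Z : List α) {i j : ℕ} (hij : i < j) (hj : j < Z.length) :
    ∃ Z1 Z2 Z3, Z = Z1 ++ Z[i] :: (Z2 ++ Z[j] :: Z3) ∧ Z2.length = j - i - 1 := by
  refine ⟨Z.take i, (Z.drop (i + 1)).take (j - i - 1), Z.drop (j + 1), ?_, ?_⟩
  · have h1 : Z = Z.take i ++ Z[i] :: Z.drop (i + 1) := by
      rw [← List.drop_eq_getElem_cons (by omega : i < Z.length), List.take_append_drop]
    have h2 : Z.drop (i + 1) = (Z.drop (i + 1)).take (j - i - 1) ++ Z[j] :: Z.drop (j + 1) := by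
      have h3 : Z[j] :: Z.drop (j + 1) = (Z.drop (i + 1)).drop (j - i - 1) := by
        rw [List.drop_drop, ← List.drop_eq_getElem_cons hj]
        congr 1
        omega
      rw [h3, List.take_append_drop]
    rw [← h2]
    exact h1
  · rw [List.length_take, List.length_drop]
    omega

/-- A long list of targets is constant. -/
lemma IsDec.const (hg : g.IsPropagating) (hL : Gen g) {n l v : ℕ} (hl : 0 < l)
    (hgood : Good n l v) {I : List g.Item} (h : IsDec g n v I) {A : g.NT}
    (hlen : 2 * l + 2 ≤ (tg A I).length) (i : ℕ) (hi : i < (tg A I).length) :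
    (tg A I)[i] = (tg A I)[0]'(by omega) := by
  have key : ∀ (i j : ℕ) (hij : i < j) (hj : j < (tg A I).length), l ≤ j - i - 1 →
      (tg A I)[i]'(by omega) = (tg A I)[j] := by
    intro i j hij hj hd
    obtain ⟨Z1, Z2, Z3, hZ, hZ2⟩ := split_two (tg A I) hij hj
    have := (h.pair hg hL hl hgood hZ).2.2
    by_contra hne
    have := this hne
    omega
  have hlast := key 0 ((tg A I).length - 1) (by omega) (by omega) (by omega)
  rcases Nat.lt_or_ge i (l + 1) with hil | hil
  · rw [key i ((tg A I).length - 1) (by omega) (by omega) (by omega)]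
    exact hlast.symm
  · exact (key 0 i (by omega) hi (by omega)).symm

end ForbiddingGrammar

end Pool.Agent.Helper79.Forb
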