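import Pool.Agent.Helper79.ForbDigit

set_option autoImplicit false

/-!
Rigidity: words of the language with prescribed class counts are the words of numbers.
-/

namespace Pool.Agent.Helper79.Forb

lemma mdf_ok {w : List Tm} : ∀ {m m' : Fin 5}, mdf (some m) w = some m' → ∀ l ∈ w, l.2.val < rad l.1 := by
  induction w with
  | nil => intro m m' _ l hl; simp at hl
  | cons a w ih =>
    intro m m' h l hl
    rw [mdf_cons] at h
    split_ifs at h with hc
    rcases List.mem_cons.mp hl with rfl | hl
    · exact hc.1
    · exact ih h l hl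

lemma allowed_le : ∀ {m j : Fin 5}, allowed m j → m ≤ j := by decide

lemma mdf_ge {w : List Tm} : ∀ {m m' : Fin 5}, mdf (some m) w = some m' →
    ∀ j ∈ w.map Prod.fst, m ≤ j := by
  induction w with
  | nil => intro m m' _ l hl; simp at hl
  | cons a w ih =>
    intro m m' h l hl
    rw [mdf_cons] at h
    split_ifs at h with hc
    rw [List.map_cons] at hl
    rcases List.mem_cons.mp hl with rfl | hl
    · exact allowed_le hc.2
    · exact (allowed_le hc.2).trans (ih h l hl)

lemma mdf_sorted {w : List Tm} : ∀ {m m' : Fin 5}, mdf (some m) w = some m' →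
    (w.map Prod.fst).Pairwise (· ≤ ·) := by
  induction w with
  | nil => intro m m' _; simp
  | cons a w ih =>
    intro m m' h
    rw [mdf_cons] at h
    split_ifs at h with hc
    rw [List.map_cons, List.pairwise_cons]
    exact ⟨fun j hj => mdf_ge h j hj, ih h⟩

lemma allowed_high : ∀ {m j : Fin 5}, allowed m j → 2 ≤ m → 3 ≤ j := by decide

lemma allowed_low : ∀ {m j : Fin 5}, allowed m j → m ≤ 1 → j ≤ 1 ∨ j = 2 := by decide

lemma mdf_high {w : List Tm} : ∀ {m m' : Fin 5}, mdf (some m) w = some m' → 2 ≤ m →
    (w.map Prod.fst).count 2 = 0 := by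
  induction w with
  | nil => intro m m' _ _; simp
  | cons a w ih =>
    intro m m' h hm
    rw [mdf_cons] at h
    split_ifs at h with hc
    have h3 : 3 ≤ a.1 := allowed_high hc.2 hm
    rw [List.map_cons, List.count_cons_of_ne (by intro e; rw [e] at h3; exact absurd h3 (by decide))]
    exact ih h (le_trans (by decide) h3)

lemma mdf_low {w : List Tm} : ∀ {m m' : Fin 5}, mdf (some m) w = some m' → m ≤ 1 → 2 ≤ m' →
    (w.map Prod.fst).count 2 = 1 := by
  induction w with
  | nil =>
    intro m m' h hm hm'
    have : m = m' := by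
      have := h
      simp [mdf] at this
      exact this
    subst this
    exact absurd (le_trans hm' hm) (by decide)
  | cons a w ih =>
    intro m m' h hm hm'
    rw [mdf_cons] at h
    split_ifs at h with hc
    rcases allowed_low hc.2 hm with h1 | h1
    · rw [List.map_cons, List.count_cons_of_ne (by intro e; rw [e] at h1; exact absurd h1 (by decide))]
      exact ih h h1 hm'
    · rw [List.map_cons, h1, List.count_cons_self]
      rw [mdf_high h (by rw [h1])]

/-- Number of letters of class `j`. -/
def cls (w : List Tm) (j : Fin 5) : ℕ := (w.map Prod.fst).count j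

lemma classes_eq {w : List Tm} {m : Fin 5} (h : mdf (some 0) w = some m) (hm : 2 ≤ m) (n : ℕ)
    (h0 : cls w 0 = n) (h1 : cls w 1 = n) (h3 : cls w 3 = n) (h4 : cls w 4 = n) :
    w.map Prod.fst = List.replicate n 0 ++ List.replicate n 1 ++ 2 ::
      (List.replicate n 3 ++ List.replicate n 4) := by
  have h2 : cls w 2 = 1 := mdf_low h (by decide) hm
  apply List.Perm.eq_of_pairwise' (r := (· ≤ ·)) (mdf_sorted h)
  · rw [List.pairwise_append, List.pairwise_append, List.pairwise_cons, List.pairwise_append]
    simp only [List.pairwise_replicate, List.mem_replicate, List.mem_append, List.mem_cons]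
    refine ⟨⟨Or.inr (le_refl _), Or.inr (le_refl _), ?_⟩, ⟨?_, Or.inr (le_refl _),
      Or.inr (le_refl _), ?_⟩, ?_⟩
    · rintro a ⟨_, rfl⟩ b ⟨_, rfl⟩; decide
    · rintro a (⟨_, rfl⟩ | ⟨_, rfl⟩) <;> decide
    · rintro a ⟨_, rfl⟩ b ⟨_, rfl⟩; decide
    · rintro a (⟨_, rfl⟩ | ⟨_, rfl⟩) b (rfl | ⟨_, rfl⟩ | ⟨_, rfl⟩) <;> decide
  · rw [List.perm_iff_count]
    intro a
    simp only [List.count_append, List.count_cons, List.count_replicate]
    fin_cases a
    · simpa [cls] using h0
    · simpa [cls] using h1
    · simpa [cls] using h2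
    · simpa [cls] using h3
    · simpa [cls] using h4

lemma dgt_add {l : Tm} (h : l.2.val < rad l.1) : dgt false l + dgt true l + 1 = rad l.1 := by
  unfold dgt
  simp only [Bool.false_eq_true, if_false, if_true]
  omega

lemma msb_sum {j : Fin 5} (hj : j ≤ 1) {u : List Tm} :
    (∀ l ∈ u, l.1 = j ∧ l.2.val < rad j) → ∀ (a b : ℕ),
    u.foldl (ff false) a + u.foldl (ff true) b + 1 = (a + b + 1) * (rad j) ^ u.length := by
  induction u with
  | nil => intro _ a b; simp
  | cons l u ih =>
    intro h a b
    have hl := h l (by simp)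
    have h3 : ¬ (3 ≤ l.1) := by rw [hl.1]; exact not_three_le hj
    simp only [List.foldl_cons, List.length_cons]
    rw [ih (fun l' hl' => h l' (by simp [hl'])) _ _]
    have hd := dgt_add (l := l) (by rw [hl.1]; exact hl.2)
    unfold ff
    rw [if_neg h3, if_neg h3, hl.1] at *
    rw [Nat.pow_succ]
    have : rad j * a + dgt false l + (rad j * b + dgt true l) + 1 = (a + b + 1) * rad j := by
      have e : (a + b + 1) * rad j = rad j * a + rad j * b + rad j := by ring
      rw [e]; omega
    rw [this]; ring

lemma msb_digits {j : Fin 5} (hj : j ≤ 1) (D0 : ℕ) {u : List Tm} :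
    (∀ l ∈ u, l.1 = j ∧ l.2.val < rad j) →
    u = (List.range u.length).map (fun p => lt j
      (u.foldl (ff false) D0 / (rad j) ^ (u.length - 1 - p) % rad j)) ∧
    u.foldl (ff false) D0 / (rad j) ^ u.length = D0 := by
  have hr : 0 < rad j := rad_pos j
  have hr3 : rad j ≤ 3 := by unfold rad; split_ifs <;> omega
  induction u using List.reverseRecOn with
  | nil => intro _; simp
  | append_singleton u l ih =>
    intro h
    have hl := h l (by simp)
    have h3 : ¬ (3 ≤ l.1) := by rw [hl.1]; exact not_three_le hj
    obtain ⟨i1, i2⟩ := ih (fun l' hl' => h l' (by simp [hl']))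
    set x' := u.foldl (ff false) D0 with hx'
    have hx : (u ++ [l]).foldl (ff false) D0 = rad j * x' + l.2.val := by
      rw [List.foldl_append]
      simp only [List.foldl_cons, List.foldl_nil]
      rw [← hx']
      conv_lhs => unfold ff
      rw [if_neg h3, hl.1]
      rfl
    have hdiv : (rad j * x' + l.2.val) / rad j = x' := by
      rw [Nat.mul_add_div hr, Nat.div_eq_of_lt hl.2, Nat.add_zero]
    have hmod : (rad j * x' + l.2.val) % rad j = l.2.val := by
      rw [Nat.mul_add_mod]; exact Nat.mod_eq_of_lt hl.2
    rw [hx]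
    constructor
    · rw [List.length_append, List.length_singleton, List.range_succ, List.map_append]
      congr 1
      · conv_lhs => rw [i1]
        apply List.map_congr_left
        intro p hp
        rw [List.mem_range] at hp
        have e : u.length + 1 - 1 - p = (u.length - 1 - p) + 1 := by omega
        rw [e, Nat.pow_succ, Nat.mul_comm ((rad j) ^ _) (rad j), ← Nat.div_div_eq_div_mul, hdiv]
      · have e : u.length + 1 - 1 - u.length = 0 := by omega
        simp only [List.map_cons, List.map_nil]
        rw [e, Nat.pow_zero, Nat.div_one, hmod]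
        congr 1
        unfold lt
        apply Prod.ext
        · exact hl.1
        · apply Fin.ext
          show l.2.val = l.2.val % 3
          exact (Nat.mod_eq_of_lt (by omega)).symm
    · rw [List.length_append, List.length_singleton, Nat.pow_succ, Nat.mul_comm ((rad j) ^ _) (rad j),
        ← Nat.div_div_eq_div_mul, hdiv]
      exact i2

/-- Value of the right part, least significant digit first. -/
def gv (c : Bool) : List Tm → ℕ
  | [] => 0
  | l :: w => dgt c l + rad l.1 * gv c w

lemma cdiv_le_iff {x r g : ℕ} (hr : 0 < r) : LetterMachine.cdiv x r ≤ g ↔ x ≤ r * g := by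
  unfold LetterMachine.cdiv
  rw [← Nat.lt_succ_iff, Nat.div_lt_iff_lt_mul hr, Nat.succ_mul, Nat.mul_comm g r]
  omega

lemma gv_iff (c : Bool) {w : List Tm} : (∀ l ∈ w, 3 ≤ l.1) → ∀ D,
    (w.foldl (ff c) D = 0 ↔ D ≤ gv c w) := by
  induction w with
  | nil => intro _ D; simp [gv]
  | cons l w ih =>
    intro h D
    simp only [List.foldl_cons, gv]
    rw [ih (fun l' hl' => h l' (by simp [hl']))]
    unfold ff
    rw [if_pos (h l (by simp)), cdiv_le_iff (rad_pos _)]
    omega

/-- Product of the radices. -/
def rprod (w : List Tm) : ℕ := (w.map (fun l => rad l.1)).prod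

lemma gv_sum {w : List Tm} : (∀ l ∈ w, l.2.val < rad l.1) →
    gv false w + gv true w + 1 = rprod w := by
  induction w with
  | nil => intro _; simp [gv, rprod]
  | cons l w ih =>
    intro h
    have h1 := ih (fun l' hl' => h l' (by simp [hl']))
    have h2 := dgt_add (h l (by simp))
    simp only [gv, rprod, List.map_cons, List.prod_cons] at *
    rw [← h1, Nat.mul_add, Nat.mul_add]
    omega

lemma lsb_digits {j : Fin 5} {u : List Tm} :
    (∀ l ∈ u, l.1 = j ∧ l.2.val < rad j) → ∀ (rest : List Tm),
    u = (List.range u.length).map (fun p => lt j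
      (gv false (u ++ rest) / (rad j) ^ p % rad j)) ∧
    gv false (u ++ rest) / (rad j) ^ u.length = gv false rest := by
  have hr : 0 < rad j := rad_pos j
  have hr3 : rad j ≤ 3 := by unfold rad; split_ifs <;> omega
  induction u with
  | nil => intro _ rest; simp
  | cons l u ih =>
    intro h rest
    have hl := h l (by simp)
    obtain ⟨i1, i2⟩ := ih (fun l' hl' => h l' (by simp [hl'])) rest
    set y' := gv false (u ++ rest) with hy'
    have hy : gv false (l :: u ++ rest) = l.2.val + rad j * y' := by
      rw [List.cons_append]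
      simp only [gv]
      rw [← hy', hl.1]
      rfl
    have hdiv : (l.2.val + rad j * y') / rad j = y' := by
      rw [Nat.add_mul_div_left _ _ hr, Nat.div_eq_of_lt hl.2, Nat.zero_add]
    have hmod : (l.2.val + rad j * y') % rad j = l.2.val := by
      rw [Nat.add_mul_mod_self_left]; exact Nat.mod_eq_of_lt hl.2
    rw [hy]
    constructor
    · rw [List.length_cons, List.range_succ_eq_map, List.map_cons, List.map_map]
      congr 1
      · rw [Nat.pow_zero, Nat.div_one, hmod]
        unfold lt
        apply Prod.ext
        · exact hl.1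
        · apply Fin.ext
          show l.2.val = l.2.val % 3
          exact (Nat.mod_eq_of_lt (by omega)).symm
      · conv_lhs => rw [i1]
        apply List.map_congr_left
        intro p hp
        simp only [Function.comp]
        rw [Nat.succ_eq_add_one, Nat.pow_succ, Nat.mul_comm ((rad j) ^ _) (rad j),
          ← Nat.div_div_eq_div_mul, hdiv]
    · rw [List.length_cons, Nat.pow_succ, Nat.mul_comm ((rad j) ^ _) (rad j),
        ← Nat.div_div_eq_div_mul, hdiv]
      exact i2

lemma rprod_const {j : Fin 5} {u : List Tm} (h : ∀ l ∈ u, l.1 = j ∧ l.2.val < rad j) :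
    rprod u = (rad j) ^ u.length := by
  unfold rprod
  rw [List.prod_eq_pow_card _ (rad j)]
  · simp
  · intro x hx
    rw [List.mem_map] at hx
    obtain ⟨l, hl, rfl⟩ := hx
    rw [(h l hl).1]

theorem lang_uniq {w : List Tm} (hw : w ∈ Lang) (n : ℕ)
    (h0 : cls w 0 = n) (h1 : cls w 1 = n) (h3 : cls w 3 = n) (h4 : cls w 4 = n) :
    ∃ v < 6 ^ n, w = word n v := by
  obtain ⟨⟨m, hm, hmd⟩, hval⟩ := hw
  have hcl := classes_eq hmd hm n h0 h1 h3 h4
  have hok := mdf_ok hmd
  rw [List.map_eq_append_iff] at hcl
  obtain ⟨wx, wr, rfl, hx, hr⟩ := hcl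
  rw [List.map_eq_append_iff] at hx
  obtain ⟨w0, w1, rfl, c0, c1⟩ := hx
  rw [List.map_eq_cons_iff] at hr
  obtain ⟨s, wy, rfl, hs, hy⟩ := hr
  rw [List.map_eq_append_iff] at hy
  obtain ⟨w3, w4, rfl, c3, c4⟩ := hy
  have key : ∀ (u : List Tm) (j : Fin 5), u.map Prod.fst = List.replicate n j →
      (∀ l ∈ u, l ∈ (w0 ++ w1 ++ s :: (w3 ++ w4))) → ∀ l ∈ u, l.1 = j ∧ l.2.val < rad j := by
    intro u j hu hsub l hl
    have : l.1 = j := by
      have hmem : l.1 ∈ u.map Prod.fst := List.mem_map_of_mem hl
      rw [hu] at hmem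
      exact List.eq_of_mem_replicate hmem
    refine ⟨this, ?_⟩
    have := hok l (hsub l hl)
    rwa [‹l.1 = j›] at this
  have k0 := key w0 0 c0 (by intro l hl; simp [hl])
  have k1 := key w1 1 c1 (by intro l hl; simp [hl])
  have k3 := key w3 3 c3 (by intro l hl; simp [hl])
  have k4 := key w4 4 c4 (by intro l hl; simp [hl])
  have l0 : w0.length = n := by simpa using congrArg List.length c0
  have l1 : w1.length = n := by simpa using congrArg List.length c1
  have l3 : w3.length = n := by simpa using congrArg List.length c3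
  have l4 : w4.length = n := by simpa using congrArg List.length c4
  have r0 : rad 0 = 2 := rfl
  have r1 : rad 1 = 3 := rfl
  have r3 : rad 3 = 2 := rfl
  have r4 : rad 4 = 3 := rfl
  have hs2 : s = lt 2 0 := by
    have : s.2.val < rad s.1 := hok s (by simp)
    rw [hs] at this
    have r2 : rad 2 = 1 := rfl
    rw [r2] at this
    apply Prod.ext
    · exact hs
    · apply Fin.ext
      show s.2.val = 0
      omega
  subst hs2
  -- values
  have hsep : ∀ c D, ff c D (lt 2 0) = D := by
    intro c D
    cases c <;> simp [ff, lt, dgt, rad]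
  let X0 := w0.foldl (ff false) 0
  let Y0 := w0.foldl (ff true) 0
  let X := w1.foldl (ff false) X0
  let Y := w1.foldl (ff true) Y0
  have s0 : X0 + Y0 + 1 = 2 ^ n := by
    have := msb_sum (j := 0) (by decide) k0 0 0
    rw [l0, r0] at this
    simpa using this
  have s1 : X + Y + 1 = 6 ^ n := by
    have := msb_sum (j := 1) (by decide) k1 X0 Y0
    rw [l1, r1, s0, ← Nat.mul_pow] at this
    exact this
  have ge3 : ∀ l ∈ w3 ++ w4, 3 ≤ l.1 := by
    intro l hl
    rcases List.mem_append.mp hl with h | h
    · rw [(k3 l h).1]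
    · rw [(k4 l h).1]; decide
  have v0 : X ≤ gv false (w3 ++ w4) := by
    rw [← gv_iff false ge3]
    have := hval false
    rw [List.foldl_append, List.foldl_append, List.foldl_cons, hsep] at this
    exact this
  have v1 : Y ≤ gv true (w3 ++ w4) := by
    rw [← gv_iff true ge3]
    have := hval true
    rw [List.foldl_append, List.foldl_append, List.foldl_cons, hsep] at this
    exact this
  have s2 : gv false (w3 ++ w4) + gv true (w3 ++ w4) + 1 = 6 ^ n := by
    rw [gv_sum (fun l hl => hok l (by simp at hl ⊢; tauto))]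
    have : rprod (w3 ++ w4) = rprod w3 * rprod w4 := by simp [rprod]
    rw [this, rprod_const k3, rprod_const k4, l3, l4, r3, r4, ← Nat.mul_pow]
  have hXG : X = gv false (w3 ++ w4) := by omega
  refine ⟨X, by omega, ?_⟩
  have d0 := msb_digits (j := 0) (by decide) 0 k0
  have d1 := msb_digits (j := 1) (by decide) X0 k1
  have d3 := lsb_digits (j := 3) k3 w4
  have d4 := lsb_digits (j := 4) k4 []
  have hX0 : X / 3 ^ n = X0 := by
    have := d1.2
    rw [l1, r1] at this
    exact this
  have hG : gv false w4 = X / 2 ^ n := by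
    have := d3.2
    rw [l3, r3, ← hXG] at this
    exact this.symm
  unfold word
  have e0 : w0 = (List.range n).map (fun p => lt 0 (X / 3 ^ n / 2 ^ (n - 1 - p) % 2)) := by
    rw [hX0]
    have := d0.1
    rw [l0, r0] at this
    exact this
  have e1 : w1 = (List.range n).map (fun p => lt 1 (X / 3 ^ (n - 1 - p) % 3)) := by
    have := d1.1
    rw [l1, r1] at this
    exact this
  have e3 : w3 = (List.range n).map (fun p => lt 3 (X / 2 ^ p % 2)) := by
    have := d3.1
    rw [l3, r3, ← hXG] at this
    exact this
  have e4 : w4 = (List.range n).map (fun p => lt 4 (X / 2 ^ n / 3 ^ p % 3)) := by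
    have := d4.1
    rw [l4, r4, List.append_nil, hG] at this
    exact this
  rw [← e0, ← e1, ← e3, ← e4]

end Pool.Agent.Helper79.Forb
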